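import Pool.Agent.Lib.H93E.Defs

/-!
# H93E, chunk A12: how the active set changes

`act ω` is the set of the `x ∈ H` with a coordinate `i'` located at `x` and `one i' (ω i')`. A change of the
coordinate `i` concerns only the element at which `i` is located. `rate_one`: the left side is
`μ.P (fun ω => one i (ω i))` (marginal of one coordinate: `Weights.P`, `Weights.E_avg`, `Weights.avg_const`, as
`avg i` of the indicator is the constant `∑ a, w i a * 1[one i a]`), which is at most `μ.P (y ∈ act)`.
-/

set_option autoImplicit false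

open Finset
open scoped Classical

namespace Pool.Agent.Lib.H93E

open Pool.Agent.Lib.Prob48 Pool.Agent.Lib.H93D

variable {X M ι : Type} [Fintype ι] [DecidableEq ι] {α : ι → Type} [∀ i, Fintype (α i)]
  {s : LS X M ι α} {μ : Weights α} {N K Cw : ℝ} {j0 nc d : ℕ}

theorem a12_mem {X M ι : Type} {α : ι → Type} (s : LS X M ι α) (ω : ∀ i, α i) (x : X) :
    x ∈ s.act ω ↔ x ∈ s.H ∧ ∃ i, s.loc i = Sum.inl x ∧ s.one i (ω i) := by
  unfold LS.act
  exact Finset.mem_filter

theorem act_sub_H (ω : ∀ i, α i) : s.act ω ⊆ s.H := by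
  intro x hx
  exact ((a12_mem s ω x).mp hx).1

theorem act_upd_inl (i : ι) (y : X) (hi : s.loc i = Sum.inl y) (ω : ∀ i, α i) (a : α i) :
    s.act (Function.update ω i a) ⊆ insert y (s.act ω) := by
  intro x hx
  rw [a12_mem] at hx
  rw [Finset.mem_insert, a12_mem]
  obtain ⟨hxH, j, hj, hone⟩ := hx
  by_cases hij : j = i
  · subst hij
    rw [hi] at hj
    exact Or.inl (Sum.inl.inj hj).symm
  · rw [Function.update_of_ne hij] at hone
    exact Or.inr ⟨hxH, j, hj, hone⟩

theorem act_upd_inr (i : ι) (f : M) (hi : s.loc i = Sum.inr f) (ω : ∀ i, α i) (a : α i) :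
    s.act (Function.update ω i a) = s.act ω := by
  ext x
  rw [a12_mem, a12_mem]
  constructor
  · rintro ⟨hxH, j, hj, hone⟩
    have hij : j ≠ i := by
      rintro rfl
      rw [hi] at hj
      exact absurd hj (by simp)
    rw [Function.update_of_ne hij] at hone
    exact ⟨hxH, j, hj, hone⟩
  · rintro ⟨hxH, j, hj, hone⟩
    have hij : j ≠ i := by
      rintro rfl
      rw [hi] at hj
      exact absurd hj (by simp)
    refine ⟨hxH, j, hj, ?_⟩
    rw [Function.update_of_ne hij]
    exact hone

theorem act_upd_zero (i : ι) (y : X) (hi : s.loc i = Sum.inl y) (ω : ∀ i, α i) (a : α i)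
    (hy : y ∉ s.act ω) (ha : ¬ s.one i a ∨ y ∉ s.H) :
    s.act (Function.update ω i a) = s.act ω := by
  rw [a12_mem] at hy
  ext x
  rw [a12_mem, a12_mem]
  constructor
  · rintro ⟨hxH, j, hj, hone⟩
    by_cases hij : j = i
    · subst hij
      rw [hi] at hj
      rw [Function.update_self] at hone
      have hxy : y = x := Sum.inl.inj hj
      rcases ha with h | h
      · exact absurd hone h
      · rw [hxy] at h
        exact absurd hxH h
    · rw [Function.update_of_ne hij] at hone
      exact ⟨hxH, j, hj, hone⟩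
  · rintro ⟨hxH, j, hj, hone⟩
    have hij : j ≠ i := by
      rintro rfl
      apply hy
      rw [hi] at hj
      have hxy : y = x := Sum.inl.inj hj
      rw [hxy]
      refine ⟨hxH, j, ?_, hone⟩
      rw [hi, hxy]
    refine ⟨hxH, j, hj, ?_⟩
    rw [Function.update_of_ne hij]
    exact hone

theorem rate_one (hs : LSHyp s μ N K Cw j0 nc d) (i : ι) (y : X) (hi : s.loc i = Sum.inl y)
    (hy : y ∈ s.H) : (∑ a, if s.one i a then μ.w i a else 0) ≤ Cw / N := by
  have h1 : μ.P (fun ω => s.one i (ω i)) ≤ μ.P (fun ω => y ∈ s.act ω) := by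
    apply μ.P_mono
    intro ω hω
    rw [a12_mem]
    exact ⟨hy, i, hi, hω⟩
  have h2 : μ.P (fun ω => s.one i (ω i)) = ∑ a, if s.one i a then μ.w i a else 0 := by
    unfold Weights.P
    rw [← μ.E_avg i]
    have h3 : μ.avg i (fun ω => if s.one i (ω i) then (1 : ℝ) else 0) =
        fun _ => ∑ a, if s.one i a then μ.w i a else 0 := by
      funext ω
      unfold Weights.avg
      refine Finset.sum_congr rfl fun a _ => ?_
      show μ.w i a * (if s.one i (Function.update ω i a i) then (1 : ℝ) else 0) = _
      rw [Function.update_self]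
      by_cases h : s.one i a
      · rw [if_pos h, if_pos h, mul_one]
      · rw [if_neg h, if_neg h, mul_zero]
    rw [h3, μ.E_const]
  rw [← h2]
  exact h1.trans (hs.rate y hy)

end Pool.Agent.Lib.H93E
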