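import Pool.Agent.Lib.H93E.Defs

/-!
# H93E, chunk A5A: expansion of a marked functional (pure algebra)

`om x + (if x ∈ Y then 1 else u x) ≤ (1 + C) * (om x + if x ∈ Y then 1 else 0)`. So each product over
`ρ t \ B` (at most `q` factors) is at most `(1+C)^q * ∏ x ∈ ρ t \ B, (om x + 1_Y x)`. Expand this product
(`Finset.prod_add`): the sum over the `R ⊆ ρ t \ B` of `∏_(x ∈ R) 1_Y x * ∏_(ρ t \ B \ R) om x`; only
`R ⊆ Y` contribute. Exchange the sums: `∑_(R ⊆ Y \ B) ∑_(t : B ∪ R ⊆ ρ t) w t * ∏_(ρ t \ (B ∪ R)) om x`,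
i.e. at most `∑_(R ∈ (Y \ B).powerset) FF ρ w om (B ∪ R) ≤ 2^|Y| β`.
-/

set_option autoImplicit false

open Finset
open scoped Classical

namespace Pool.Agent.Lib.H93E

open Pool.Agent.Lib.Prob48 Pool.Agent.Lib.H93D

theorem ff_nonneg {X T : Type} [Fintype T] (ρ : T → Finset X) (w : T → ℝ) (hw : ∀ t, 0 ≤ w t)
    (om : X → ℝ) (hom : ∀ x, 0 ≤ om x) (B : Finset X) : 0 ≤ FF ρ w om B := by
  unfold FF
  apply Finset.sum_nonneg
  intro t _
  split_ifs
  · exact mul_nonneg (hw t) (Finset.prod_nonneg fun x _ => hom x)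
  · exact le_refl _

theorem a5a_exp {X : Type} (om : X → ℝ) (S Y : Finset X) :
    ∏ x ∈ S, ((if x ∈ Y then (1 : ℝ) else 0) + om x) =
      ∑ R ∈ Y.powerset, if R ⊆ S then ∏ x ∈ S \ R, om x else 0 := by
  rw [Finset.prod_add, ← Finset.sum_filter]
  have h1 : ∀ R ∈ S.powerset, (∏ x ∈ R, (if x ∈ Y then (1 : ℝ) else 0)) * ∏ x ∈ S \ R, om x =
      if R ⊆ Y then ∏ x ∈ S \ R, om x else 0 := by
    intro R _
    by_cases h : R ⊆ Y
    · rw [if_pos h, Finset.prod_congr rfl fun x hx => if_pos (h hx), Finset.prod_const_one, one_mul]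
    · rw [if_neg h]
      rw [Finset.not_subset] at h
      obtain ⟨x, hx, hxY⟩ := h
      rw [Finset.prod_eq_zero hx (if_neg hxY), zero_mul]
  rw [Finset.sum_congr rfl h1, ← Finset.sum_filter]
  apply Finset.sum_congr _ fun _ _ => rfl
  ext R
  simp only [Finset.mem_filter, Finset.mem_powerset]
  exact and_comm

theorem ff_expand_le {X T : Type} [Fintype T] (ρ : T → Finset X) (w : T → ℝ) (hw : ∀ t, 0 ≤ w t)
    (om u : X → ℝ) (C β : ℝ) (hC : 0 ≤ C) (hβ0 : 0 ≤ β) (hom : ∀ x, 0 ≤ om x) (hu0 : ∀ x, 0 ≤ u x)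
    (hu : ∀ x, u x ≤ C * om x) (q : ℕ) (hq : ∀ t, (ρ t).card ≤ q) (B Y : Finset X)
    (hβ : ∀ B', B ⊆ B' → FF ρ w om B' ≤ β) :
    (∑ t, if B ⊆ ρ t then w t * ∏ x ∈ ρ t \ B, (om x + if x ∈ Y then 1 else u x) else 0)
      ≤ (1 + C) ^ q * 2 ^ Y.card * β := by
  have hC1 : (1 : ℝ) ≤ 1 + C := by linarith
  have h1 : ∀ t, (if B ⊆ ρ t then w t * ∏ x ∈ ρ t \ B, (om x + if x ∈ Y then 1 else u x) else 0) ≤
      (1 + C) ^ q * ∑ R ∈ Y.powerset, if B ∪ R ⊆ ρ t then w t * ∏ x ∈ ρ t \ (B ∪ R), om x else 0 := by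
    intro t
    by_cases hB : B ⊆ ρ t
    · rw [if_pos hB]
      have h2 : ∏ x ∈ ρ t \ B, (om x + if x ∈ Y then 1 else u x) ≤
          ∏ x ∈ ρ t \ B, ((1 + C) * ((if x ∈ Y then (1 : ℝ) else 0) + om x)) := by
        apply Finset.prod_le_prod
        · intro x _
          split_ifs
          · linarith [hom x]
          · linarith [hom x, hu0 x]
        · intro x _
          split_ifs
          · nlinarith [hom x]
          · nlinarith [hom x, hu x]
      have h3 : ∏ x ∈ ρ t \ B, ((1 + C) * ((if x ∈ Y then (1 : ℝ) else 0) + om x)) ≤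
          (1 + C) ^ q * ∏ x ∈ ρ t \ B, ((if x ∈ Y then (1 : ℝ) else 0) + om x) := by
        rw [Finset.prod_mul_distrib, Finset.prod_const]
        apply mul_le_mul_of_nonneg_right
        · apply pow_le_pow_right₀ hC1
          exact (Finset.card_le_card Finset.sdiff_subset).trans (hq t)
        · apply Finset.prod_nonneg
          intro x _
          split_ifs
          · linarith [hom x]
          · linarith [hom x]
      have h4 : w t * ∑ R ∈ Y.powerset, (if R ⊆ ρ t \ B then ∏ x ∈ (ρ t \ B) \ R, om x else 0) ≤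
          ∑ R ∈ Y.powerset, if B ∪ R ⊆ ρ t then w t * ∏ x ∈ ρ t \ (B ∪ R), om x else 0 := by
        rw [Finset.mul_sum]
        apply Finset.sum_le_sum
        intro R _
        by_cases hR : R ⊆ ρ t \ B
        · have hBR : B ∪ R ⊆ ρ t := Finset.union_subset hB (hR.trans Finset.sdiff_subset)
          rw [if_pos hR, if_pos hBR, sdiff_sdiff_left]
          exact le_refl _
        · rw [if_neg hR, mul_zero]
          split_ifs
          · exact mul_nonneg (hw t) (Finset.prod_nonneg fun x _ => hom x)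
          · exact le_refl _
      calc w t * ∏ x ∈ ρ t \ B, (om x + if x ∈ Y then 1 else u x)
          ≤ w t * ((1 + C) ^ q * ∏ x ∈ ρ t \ B, ((if x ∈ Y then (1 : ℝ) else 0) + om x)) :=
            mul_le_mul_of_nonneg_left (h2.trans h3) (hw t)
        _ = (1 + C) ^ q * (w t * ∑ R ∈ Y.powerset,
              (if R ⊆ ρ t \ B then ∏ x ∈ (ρ t \ B) \ R, om x else 0)) := by
            rw [a5a_exp]
            ring
        _ ≤ _ := mul_le_mul_of_nonneg_left h4 (by positivity)
    · rw [if_neg hB]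
      apply mul_nonneg (by positivity)
      apply Finset.sum_nonneg
      intro R _
      split_ifs
      · exact mul_nonneg (hw t) (Finset.prod_nonneg fun x _ => hom x)
      · exact le_refl _
  calc _ ≤ ∑ t, (1 + C) ^ q * ∑ R ∈ Y.powerset,
        (if B ∪ R ⊆ ρ t then w t * ∏ x ∈ ρ t \ (B ∪ R), om x else 0) :=
        Finset.sum_le_sum fun t _ => h1 t
    _ = (1 + C) ^ q * ∑ R ∈ Y.powerset, FF ρ w om (B ∪ R) := by
        rw [← Finset.mul_sum, Finset.sum_comm]
        rfl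
    _ ≤ (1 + C) ^ q * ∑ _R ∈ Y.powerset, β := by
        apply mul_le_mul_of_nonneg_left _ (by positivity)
        exact Finset.sum_le_sum fun R _ => hβ _ Finset.subset_union_left
    _ = (1 + C) ^ q * 2 ^ Y.card * β := by
        rw [Finset.sum_const, Finset.card_powerset, nsmul_eq_mul]
        push_cast
        ring

end Pool.Agent.Lib.H93E
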