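import Pool.Agent.Lib.H93E.A7B
import Pool.Agent.Lib.H93E.A12
import Pool.Agent.Lib.H93E.A5A

/-!
# H93E, chunk A21: crude bound for the variation

* `w_sum_le`: every `ρ t` is a nonempty subset of `L0` with at most four elements, so it is `{a, b, c, e}` for some
  `a, b, c, e ∈ L0`, and `FF ρ w (fun _ => π) {a, b, c, e} ≥ ∑_(t : ρ t = {a, b, c, e}) w t` (the product over the empty
  set is `1`). So `∑ w t ≤ ∑_((a,b,c,e) ∈ L0^4) FF .. {a,b,c,e} ≤ |L0|^4 Q1`.
* `vv_crude`: by `Dom`, `|Z ω - Z ω_a| ≤ ∑ w t ≤ b^4 Q1` (`|L0| ≤ b`), so every coordinate contributes at most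
  `(b^4 Q1)^2` to `VV` (weights sum to `1`). If a coordinate `i` contributes then for some `a, t` and `x ∈ ρ t ⊆ L0` the
  status of `x` changes, so by `T5` (`reach_exists`) `x` reaches some `y ∈ act ω ∪ act ω' ⊆ H` in `d` steps with `near J (loc i) y`;
  `y ∈ ball d ⊆ ball (d+1)` (`ball_reach`, `ball_mono`). So `loc i = inl y` or `inr f`, `f ∈ J y`, `y ∈ ball (d+1)`: at most
  `b (1 + j0)` locations, `nc` coordinates at each.
-/

set_option autoImplicit false

open Finset
open scoped Classical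

namespace Pool.Agent.Lib.H93E

open Pool.Agent.Lib.Prob48 Pool.Agent.Lib.H93D

variable {X M T ι : Type} [Fintype T] [Fintype M] [Fintype ι] [DecidableEq ι] {α : ι → Type} [∀ i, Fintype (α i)]
  {s : LS X M ι α} {μ : Weights α} {N K Cw : ℝ} {j0 nc d : ℕ}
  {ρ : T → Finset X} {w : T → ℝ} {L0 : Finset X} {Z : (∀ i, α i) → ℝ}
  {h Q0 Q1 : ℝ}

theorem a21_enum (A : Finset X) (h1 : A.Nonempty) (h4 : A.card ≤ 4) :
    ∃ p : Fin 4 → X, (∀ i, p i ∈ A) ∧ Finset.univ.image p = A := by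
  have hc : Fintype.card A ≤ Fintype.card (Fin 4) := by
    rw [Fintype.card_coe, Fintype.card_fin]
    exact h4
  obtain ⟨g⟩ := Function.Embedding.nonempty_of_card_le hc
  have : Nonempty A := h1.to_subtype
  have hs := Function.invFun_surjective g.injective
  refine ⟨fun i => (Function.invFun g i).1, fun i => (Function.invFun g i).2, ?_⟩
  ext x
  rw [Finset.mem_image]
  constructor
  · rintro ⟨i, _, rfl⟩
    exact (Function.invFun g i).2
  · intro hx
    obtain ⟨i, hi⟩ := hs ⟨x, hx⟩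
    exact ⟨i, Finset.mem_univ i, by rw [hi]⟩

theorem w_sum_le (hw : ∀ t, 0 ≤ w t) (hρ : ∀ t, ρ t ⊆ L0) (hρ1 : ∀ t, (ρ t).Nonempty)
    (h4 : ∀ t, (ρ t).card ≤ 4) (π : ℝ) (hπ : 0 ≤ π) (hQ1 : 0 ≤ Q1)
    (hF : ∀ B : Finset X, B.Nonempty → FF ρ w (fun _ => π) B ≤ Q1) :
    ∑ t, w t ≤ (L0.card : ℝ) ^ 4 * Q1 := by
  have h1 : ∀ t, w t ≤ ∑ p ∈ Fintype.piFinset (fun _ : Fin 4 => L0),
      if Finset.univ.image p = ρ t then w t else 0 := by
    intro t
    obtain ⟨p, hp, hp2⟩ := a21_enum (ρ t) (hρ1 t) (h4 t)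
    have hpm : p ∈ Fintype.piFinset (fun _ : Fin 4 => L0) := by
      rw [Fintype.mem_piFinset]
      exact fun i => hρ t (hp i)
    calc w t = if Finset.univ.image p = ρ t then w t else 0 := by rw [if_pos hp2]
      _ ≤ _ := Finset.single_le_sum (f := fun p => if Finset.univ.image p = ρ t then w t else 0)
          (fun q _ => by split_ifs; exacts [hw t, le_rfl]) hpm
  calc ∑ t, w t ≤ ∑ t, ∑ p ∈ Fintype.piFinset (fun _ : Fin 4 => L0),
        (if Finset.univ.image p = ρ t then w t else 0) := Finset.sum_le_sum fun t _ => h1 t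
    _ = ∑ p ∈ Fintype.piFinset (fun _ : Fin 4 => L0), ∑ t,
        (if Finset.univ.image p = ρ t then w t else 0) := Finset.sum_comm
    _ ≤ ∑ _p ∈ Fintype.piFinset (fun _ : Fin 4 => L0), Q1 := by
        refine Finset.sum_le_sum fun p _ => ?_
        refine le_trans ?_ (hF (Finset.univ.image p) ⟨p 0, Finset.mem_image.2 ⟨0, Finset.mem_univ _, rfl⟩⟩)
        unfold FF
        refine Finset.sum_le_sum fun t _ => ?_
        by_cases h : Finset.univ.image p = ρ t
        · rw [if_pos h, if_pos (h ▸ Finset.Subset.refl _), h, Finset.sdiff_self, Finset.prod_empty,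
            mul_one]
        · rw [if_neg h]
          split_ifs
          · exact mul_nonneg (hw t) (Finset.prod_nonneg fun _ _ => hπ)
          · exact le_rfl
    _ = (L0.card : ℝ) ^ 4 * Q1 := by
        rw [Finset.sum_const, nsmul_eq_mul, Fintype.card_piFinset]
        simp

/-- grouping by the location -/
theorem a21_group (L : Finset (X ⊕ M)) (loc : ι → X ⊕ M) (nc : ℕ)
    (hnc : ∀ l, (Finset.univ.filter fun i => loc i = l).card ≤ nc) :
    (Finset.univ.filter fun i => loc i ∈ L).card ≤ nc * L.card := by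
  have h1 : ∀ i ∈ Finset.univ.filter (fun i => loc i ∈ L), loc i ∈ L :=
    fun i hi => (Finset.mem_filter.1 hi).2
  refine Finset.card_le_mul_card_image_of_maps_to h1 nc
    fun l _ => (Finset.card_le_card ?_).trans (hnc l)
  intro i hi
  rw [Finset.mem_filter] at hi ⊢
  exact ⟨Finset.mem_univ i, hi.2⟩

theorem vv_crude (hs : LSHyp s μ N K Cw j0 nc d) (hw : ∀ t, 0 ≤ w t)
    (hρ : ∀ t, ρ t ⊆ L0) (hρ1 : ∀ t, (ρ t).Nonempty) (hL : L0 ⊆ s.H) (hZ : s.Dom ρ w Z)
    (hQ1 : 0 ≤ Q1) (h4 : ∀ t, (ρ t).card ≤ 4)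
    (hF : ∀ B : Finset X, B.Nonempty → FF ρ w (fun _ => Cw / N) B ≤ Q1)
    (b : ℝ) (hb : ((s.ball L0 (d + 1)).card : ℝ) ≤ b) (ω : ∀ i, α i) :
    VV μ Z ω ≤ nc * (1 + j0) * b * (b ^ 4 * Q1) ^ 2 := by
  have hcn : 0 ≤ Cw / N := div_nonneg hs.Cw_nonneg hs.N_pos.le
  have hb0 : 0 ≤ b := (Nat.cast_nonneg _).trans hb
  have hLb : (L0.card : ℝ) ≤ b := by
    refine le_trans ?_ hb
    exact_mod_cast Finset.card_le_card ((ball_zero hL).trans (ball_mono (Nat.zero_le _)))
  have hW : ∑ t, w t ≤ b ^ 4 * Q1 := by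
    refine (w_sum_le hw hρ hρ1 h4 (Cw / N) hcn hQ1 hF).trans ?_
    exact mul_le_mul_of_nonneg_right (pow_le_pow_left₀ (Nat.cast_nonneg _) hLb 4) hQ1
  have hch : ∀ i a, |Z ω - Z (Function.update ω i a)| ≤ b ^ 4 * Q1 := by
    intro i a
    refine (hZ ω i a).trans (le_trans (Finset.sum_le_sum fun t _ => ?_) hW)
    split_ifs
    · exact le_rfl
    · exact hw t
  set L : Finset (X ⊕ M) := (s.ball L0 (d + 1)).image Sum.inl ∪
    (s.ball L0 (d + 1)).biUnion fun y => (s.J y).image Sum.inr with hLdef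
  have hLcard : (L.card : ℝ) ≤ (1 + j0) * b := by
    have h1 : L.card ≤ (s.ball L0 (d + 1)).card + (s.ball L0 (d + 1)).card * j0 := by
      refine (Finset.card_union_le _ _).trans (add_le_add Finset.card_image_le ?_)
      refine Finset.card_biUnion_le_card_mul _ _ _ fun y hy => ?_
      refine Finset.card_image_le.trans (hs.J_card y ?_)
      unfold LS.ball at hy
      exact (Finset.mem_filter.1 hy).1
    have h2 : (L.card : ℝ) ≤ (s.ball L0 (d + 1)).card + (s.ball L0 (d + 1)).card * j0 := by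
      exact_mod_cast h1
    have h3 : (0 : ℝ) ≤ j0 := Nat.cast_nonneg _
    nlinarith
  have hout : ∀ i, s.loc i ∉ L → ∀ a, Z (Function.update ω i a) = Z ω := by
    intro i hi a
    have h1 : ∑ t, (if (∃ x ∈ ρ t, s.Ch ω (Function.update ω i a) x) ∧
      ρ t ⊆ s.act ω ∪ s.act (Function.update ω i a) then w t else 0) = 0 := by
      refine Finset.sum_eq_zero fun t _ => ?_
      rw [if_neg]
      rintro ⟨⟨x, hx, hch⟩, _⟩
      have h2 := hs.T5 i ω (Function.update ω i a)
        (fun i' hi' => (Function.update_of_ne hi' a ω).symm) x hch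
      obtain ⟨y, hy, h3⟩ := (reach_exists d x).1 h2
      have hA : s.act ω ∪ s.act (Function.update ω i a) ⊆ s.H :=
        Finset.union_subset (act_sub_H ω) (act_sub_H _)
      have hyb : y ∈ s.ball L0 (d + 1) := ball_mono (by omega)
        (ball_reach hs.adj_symm hA (ball_zero hL (hρ t hx)) h3)
      apply hi
      rw [hLdef, Finset.mem_union]
      rcases hy with hy | ⟨f, hf, hy⟩
      · exact Or.inl (Finset.mem_image.2 ⟨y, hyb, hy.symm⟩)
      · exact Or.inr (Finset.mem_biUnion.2 ⟨y, hyb, Finset.mem_image.2 ⟨f, hf, hy.symm⟩⟩)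
    have h2 := hZ ω i a
    rw [h1] at h2
    have h3 := abs_nonpos_iff.1 h2
    linarith
  have hco : ∀ i, ∑ a, μ.w i a * (Z ω - Z (Function.update ω i a)) ^ 2 ≤
      if s.loc i ∈ L then (b ^ 4 * Q1) ^ 2 else 0 := by
    intro i
    split_ifs with hi
    · calc ∑ a, μ.w i a * (Z ω - Z (Function.update ω i a)) ^ 2
          ≤ ∑ a, μ.w i a * (b ^ 4 * Q1) ^ 2 := by
            refine Finset.sum_le_sum fun a _ => mul_le_mul_of_nonneg_left ?_ (μ.nonneg i a)
            rw [← sq_abs]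
            exact pow_le_pow_left₀ (abs_nonneg _) (hch i a) 2
        _ = (b ^ 4 * Q1) ^ 2 := by rw [← Finset.sum_mul, μ.sum_one, one_mul]
    · refine le_of_eq (Finset.sum_eq_zero fun a _ => ?_)
      rw [hout i hi a]
      simp
  unfold VV
  refine (Finset.sum_le_sum fun i _ => hco i).trans ?_
  rw [← Finset.sum_filter, Finset.sum_const, nsmul_eq_mul]
  refine mul_le_mul_of_nonneg_right ?_ (sq_nonneg _)
  have h1 := a21_group L s.loc nc hs.loc_card
  have h2 : ((Finset.univ.filter fun i => s.loc i ∈ L).card : ℝ) ≤ nc * L.card := by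
    exact_mod_cast h1
  refine h2.trans ?_
  calc (nc : ℝ) * L.card ≤ nc * ((1 + j0) * b) :=
        mul_le_mul_of_nonneg_left hLcard (Nat.cast_nonneg _)
    _ = _ := by ring

end Pool.Agent.Lib.H93E
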