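import Pool.Agent.Lib.H93E.A7A

/-!
# H93E, chunk A7B: balls

`ball L0 n` is the set of the `y ∈ H` with `Reach adj (· ∈ L0) H n y`. `ball_reach`: reverse the path
(`reach_rev` in `A`, then `Reach.mono` to `H`), so `y` reaches `x` in `n` steps and `x` reaches `L0` in `m` steps
(`reach_trans`).
-/

set_option autoImplicit false

open Finset
open scoped Classical

namespace Pool.Agent.Lib.H93E

open Pool.Agent.Lib.Prob48 Pool.Agent.Lib.H93D

variable {X M ι : Type} {α : ι → Type} {s : LS X M ι α}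

theorem ball_zero {L0 : Finset X} (hL : L0 ⊆ s.H) : L0 ⊆ s.ball L0 0 := by
  intro x hx
  unfold LS.ball
  rw [Finset.mem_filter]
  exact ⟨hL hx, hL hx, hx⟩

theorem ball_mono {L0 : Finset X} {m n : ℕ} (h : m ≤ n) : s.ball L0 m ⊆ s.ball L0 n := by
  intro x hx
  unfold LS.ball at hx ⊢
  rw [Finset.mem_filter] at hx ⊢
  exact ⟨hx.1, hx.2.mono_d h⟩

theorem ball_step (hsymm : ∀ x ∈ s.H, ∀ y ∈ s.H, s.adj x y → s.adj y x) {L0 : Finset X} {m : ℕ}
    {x y : X} (hx : x ∈ s.ball L0 m) (hy : y ∈ s.H) (hxy : s.adj x y) : y ∈ s.ball L0 (m + 1) := by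
  unfold LS.ball at hx ⊢
  rw [Finset.mem_filter] at hx ⊢
  exact ⟨hy, Reach.step hy (hsymm x hx.1 y hy hxy) hx.2⟩

theorem ball_reach (hsymm : ∀ x ∈ s.H, ∀ y ∈ s.H, s.adj x y → s.adj y x) {L0 A : Finset X}
    (hA : A ⊆ s.H) {m n : ℕ} {x y : X} (hx : x ∈ s.ball L0 m)
    (h : Reach s.adj (fun z => z = y) A n x) : y ∈ s.ball L0 (m + n) := by
  have h1 : Reach s.adj (fun z => z = x) A n y :=
    reach_rev (fun x hx y hy => hsymm x (hA hx) y (hA hy)) n x y h
  have h2 : Reach s.adj (fun z => z = x) s.H n y := h1.mono (fun _ _ h => h) (fun _ h => h) hA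
  unfold LS.ball at hx ⊢
  rw [Finset.mem_filter] at hx ⊢
  refine ⟨h2.mem, ?_⟩
  rw [add_comm]
  exact reach_trans n m y x h2 hx.2

end Pool.Agent.Lib.H93E
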