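import Pool.Agent.Lib.H93E.A22A
import Pool.Agent.Lib.H93E.A7B

/-!
# H93E, chunk A22B: the good event has large probability

The event is not good only if for some `z ∈ ball (d+1)` there are more than `y` active neighbours
(`nbr_prob`), or `y (Q0 + Q1) < FF .. ∅`, or for some `x ∈ L0`, `x' ∈ ball (d+1)`: `y Q1 < FF .. {x, x'}`
(`growth` with `q = 4`, `Cc = 1`, `om = u = Cw/N`, `AA = act`, `act_prob`; `β = Q0 + Q1` resp. `β = Q1`:
supersets of `{x, x'}` are nonempty; supersets of `∅` are `∅` or nonempty). Union bound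
(`Weights.P_exists_le`, `P_or_le`): at most `(b + 1 + b^2) C / y^R`, where `b = #ball ≥ #L0` (`L0 ⊆ ball`). Take the exponent
`R = r + 2 m`: `b ≤ cb y^m`, `1 + b + b^2 ≤ (1 + cb + cb^2) y^(2m)` for `y ≥ 1`.
-/

set_option autoImplicit false

open Finset
open scoped Classical

namespace Pool.Agent.Lib.H93E

open Pool.Agent.Lib.Prob48 Pool.Agent.Lib.H93D

theorem a22b_union {X M ι : Type} [Fintype ι] [DecidableEq ι] {α : ι → Type} [∀ i, Fintype (α i)]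
    {T : Type} [Fintype T] (s : LS X M ι α) (μ : Weights α) (ρ : T → Finset X) (w : T → ℝ)
    (L0 : Finset X) (d : ℕ) (π y Q0 Q1 η1 η2 : ℝ)
    (h1 : ∀ z ∈ s.ball L0 (d + 1),
      μ.P (fun ω => y < (((s.act ω).filter fun y' => s.adj z y').card : ℝ)) ≤ η1)
    (h2 : ∀ B : Finset X, (B = ∅ ∨ B.Nonempty) →
      μ.P (fun ω => y * (if B = ∅ then Q0 + Q1 else Q1) < FF ρ w (plus (fun _ => π) (s.act ω)) B)
        ≤ η2) :
    μ.P (fun ω => ¬ s.Good ρ w L0 d π y Q0 Q1 ω) ≤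
      ((s.ball L0 (d + 1)).card : ℝ) * η1 + (η2 + (L0.card * (s.ball L0 (d + 1)).card : ℝ) * η2) := by
  have hsub : ∀ ω, ¬ s.Good ρ w L0 d π y Q0 Q1 ω →
      (∃ z ∈ s.ball L0 (d + 1), y < (((s.act ω).filter fun y' => s.adj z y').card : ℝ)) ∨
      (y * (Q0 + Q1) < FF ρ w (plus (fun _ => π) (s.act ω)) ∅ ∨
      ∃ p ∈ L0 ×ˢ s.ball L0 (d + 1), y * Q1 < FF ρ w (plus (fun _ => π) (s.act ω)) {p.1, p.2}) := by
    intro ω hω
    by_contra hcon
    push Not at hcon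
    obtain ⟨c1, c2, c3⟩ := hcon
    exact hω ⟨c1, c2, fun x hx x' hx' => c3 (x, x') (Finset.mem_product.2 ⟨hx, hx'⟩)⟩
  refine (μ.P_mono hsub).trans ((μ.P_or_le _ _).trans (add_le_add ?_ ((μ.P_or_le _ _).trans
    (add_le_add ?_ ?_))))
  · refine (μ.P_exists_le _ _).trans ((Finset.sum_le_card_nsmul _ _ η1 fun z hz => h1 z hz).trans
      (le_of_eq ?_))
    rw [nsmul_eq_mul]
  · have := h2 ∅ (Or.inl rfl)
    rwa [if_pos rfl] at this
  · refine (μ.P_exists_le _ _).trans ((Finset.sum_le_card_nsmul _ _ η2 fun p _ => ?_).trans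
      (le_of_eq ?_))
    · have h3 : ({p.1, p.2} : Finset X).Nonempty := ⟨p.1, by simp⟩
      have := h2 {p.1, p.2} (Or.inr h3)
      rwa [if_neg h3.ne_empty] at this
    · rw [nsmul_eq_mul, Finset.card_product]
      push_cast
      ring

theorem bad_prob (m r : ℕ) (K Cw cb : ℝ) (hcb : 0 ≤ cb) : ∃ C : ℝ, 0 ≤ C ∧
    ∀ (X M T ι : Type) [Fintype T] [Fintype ι] [DecidableEq ι] (α : ι → Type) [∀ i, Fintype (α i)]
      (s : LS X M ι α) (μ : Weights α) (N : ℝ) (j0 nc d : ℕ) (ρ : T → Finset X) (w : T → ℝ)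
      (L0 : Finset X) (Q0 Q1 y : ℝ), LSHyp s μ N K Cw j0 nc d → 1 ≤ y → (∀ t, 0 ≤ w t) →
      (∀ t, ρ t ⊆ L0) → (∀ t, (ρ t).card ≤ 4) → L0 ⊆ s.H →
      ((s.ball L0 (d + 1)).card : ℝ) ≤ cb * y ^ m →
      0 ≤ Q0 → 0 < Q1 → FF ρ w (fun _ => Cw / N) ∅ ≤ Q0 →
      (∀ B : Finset X, B.Nonempty → FF ρ w (fun _ => Cw / N) B ≤ Q1) →
      μ.P (fun ω => ¬ s.Good ρ w L0 d (Cw / N) y Q0 Q1 ω) ≤ C / y ^ r := by
  obtain ⟨Cn, hCn, Hn⟩ := nbr_prob (r + 2 * m) K Cw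
  obtain ⟨Cg, hCg, Hg⟩ := growth (r + 2 * m) 4 1 zero_le_one
  refine ⟨(1 + cb + cb ^ 2) * (Cn + Cg), by positivity, ?_⟩
  intro X M T ι _ _ _ α _ s μ N j0 nc d ρ w L0 Q0 Q1 y hs hy hw hρ h4 hL hball hQ0 hQ1 hF0 hF1
  have hy0 : 0 < y := by linarith
  have hcn : 0 ≤ Cw / N := div_nonneg hs.Cw_nonneg hs.N_pos.le
  have hL0 : (L0.card : ℝ) ≤ (s.ball L0 (d + 1)).card := by
    exact_mod_cast Finset.card_le_card ((ball_zero hL).trans (ball_mono (Nat.zero_le _)))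
  have h1 : ∀ z ∈ s.ball L0 (d + 1),
      μ.P (fun ω => y < (((s.act ω).filter fun y' => s.adj z y').card : ℝ)) ≤
        Cn / y ^ (r + 2 * m) := by
    intro z hz
    refine Hn X M ι α s μ N j0 nc d hs y hy0 z ?_
    unfold LS.ball at hz
    exact (Finset.mem_filter.1 hz).1
  have h2 : ∀ B : Finset X, (B = ∅ ∨ B.Nonempty) →
      μ.P (fun ω => y * (if B = ∅ then Q0 + Q1 else Q1) <
        FF ρ w (plus (fun _ => Cw / N) (s.act ω)) B) ≤ Cg / y ^ (r + 2 * m) := by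
    intro B hB
    refine Hg X T ι α μ s.act ρ w (fun _ => Cw / N) (fun _ => Cw / N) _ y B hy0 hw ?_
      (fun _ => hcn) (fun _ => hcn) (fun _ => by rw [one_mul]) (fun Y => act_prob hs Y) h4 ?_
    · split_ifs <;> linarith
    · intro B' hBB
      by_cases hB' : B' = ∅
      · have hBe : B = ∅ := Finset.subset_empty.1 (hB' ▸ hBB)
        rw [if_pos hBe, hB']
        linarith
      · have h3 := hF1 B' (Finset.nonempty_iff_ne_empty.2 hB')
        split_ifs <;> linarith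
  refine (a22b_union s μ ρ w L0 d (Cw / N) y Q0 Q1 _ _ h1 h2).trans ?_
  set b : ℝ := ((s.ball L0 (d + 1)).card : ℝ) with hb
  have hb0 : 0 ≤ b := Nat.cast_nonneg _
  have hL00 : (0 : ℝ) ≤ L0.card := Nat.cast_nonneg _
  have hym : 1 ≤ y ^ m := one_le_pow₀ hy
  have hbb : b + 1 + b * b ≤ (1 + cb + cb ^ 2) * y ^ (2 * m) := by
    have e1 : y ^ (2 * m) = y ^ m * y ^ m := by rw [← pow_add]; congr 1; ring
    rw [e1]
    have e2 : b * b ≤ (cb * y ^ m) * (cb * y ^ m) := mul_le_mul hball hball hb0 (hb0.trans hball)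
    have e3 : y ^ m ≤ y ^ m * y ^ m := by nlinarith
    have e4 : 1 ≤ y ^ m * y ^ m := by nlinarith
    have e5 : cb * y ^ m ≤ cb * (y ^ m * y ^ m) := mul_le_mul_of_nonneg_left e3 hcb
    nlinarith
  have hden : 0 < y ^ (r + 2 * m) := by positivity
  have hLb : (L0.card : ℝ) * b ≤ b * b := mul_le_mul_of_nonneg_right hL0 hb0
  have e6 : b * (Cn / y ^ (r + 2 * m)) + (Cg / y ^ (r + 2 * m) +
      (L0.card * b : ℝ) * (Cg / y ^ (r + 2 * m))) =
      (b * Cn + Cg + (L0.card * b) * Cg) / y ^ (r + 2 * m) := by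
    field_simp
    ring
  rw [e6, div_le_div_iff₀ hden (by positivity)]
  have e7 : b * Cn + Cg + (L0.card * b) * Cg ≤ (b + 1 + b * b) * (Cn + Cg) := by
    have : (L0.card * b) * Cg ≤ (b * b) * Cg := mul_le_mul_of_nonneg_right hLb hCg
    nlinarith [mul_nonneg hb0 hCg, mul_nonneg (mul_nonneg hb0 hb0) hCn]
  have e8 : b * Cn + Cg + (L0.card * b) * Cg ≤ ((1 + cb + cb ^ 2) * y ^ (2 * m)) * (Cn + Cg) :=
    e7.trans (mul_le_mul_of_nonneg_right hbb (by linarith))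
  calc (b * Cn + Cg + (L0.card * b) * Cg) * y ^ r
      ≤ (((1 + cb + cb ^ 2) * y ^ (2 * m)) * (Cn + Cg)) * y ^ r :=
        mul_le_mul_of_nonneg_right e8 (by positivity)
    _ = (1 + cb + cb ^ 2) * (Cn + Cg) * y ^ (r + 2 * m) := by
        rw [pow_add]
        ring

end Pool.Agent.Lib.H93E
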