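import Pool.Agent.Lib.H93E.A3

/-!
# H93E, chunk A23A: from a bound for the variation to a tail bound

Let `q = 2^j`, `C` from `moment j`. `VV^q ≤ Vg^q + Vm^q * 1[bad]` pointwise, so
`E (Z - E Z)^(2q) ≤ C (Vg^q + Vm^q P(bad))`; Markov (`Weights.P_le_of_le` with
`f = (Z - E Z)^(2q) = |Z - E Z|^(2q)`, `c = t^(2q)`).
-/

set_option autoImplicit false

open Finset
open scoped Classical

namespace Pool.Agent.Lib.H93E

open Pool.Agent.Lib.Prob48 Pool.Agent.Lib.H93D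

theorem tail (j : ℕ) : ∃ C : ℝ, 0 ≤ C ∧ ∀ (ι : Type) [Fintype ι] [DecidableEq ι] (α : ι → Type)
    [∀ i, Fintype (α i)] (μ : Weights α) (Z : (∀ i, α i) → ℝ) (bad : (∀ i, α i) → Prop)
    (Vg Vm t : ℝ), 0 ≤ Vg → 0 ≤ Vm → 0 < t → (∀ ω, ¬ bad ω → VV μ Z ω ≤ Vg) →
    (∀ ω, VV μ Z ω ≤ Vm) →
    μ.P (fun ω => t < |Z ω - μ.E Z|) ≤ C * (Vg ^ 2 ^ j + Vm ^ 2 ^ j * μ.P bad) / t ^ (2 * 2 ^ j) := by
  obtain ⟨C, hC, H⟩ := moment j
  refine ⟨C, hC, ?_⟩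
  intro ι _ _ α _ μ Z bad Vg Vm t hVg hVm ht hg hm
  have hc : 0 < t ^ (2 * 2 ^ j) := by positivity
  have heven : Even (2 * 2 ^ j) := even_two_mul _
  have h1 := μ.P_le_of_le (A := fun ω => t < |Z ω - μ.E Z|)
    (f := fun ω => (Z ω - μ.E Z) ^ (2 * 2 ^ j)) (t ^ (2 * 2 ^ j)) hc
    (fun ω => heven.pow_nonneg _)
    (fun ω hω => by
      rw [← heven.pow_abs (Z ω - μ.E Z)]
      exact pow_le_pow_left₀ ht.le (le_of_lt hω) _)
  refine h1.trans ?_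
  refine div_le_div_of_nonneg_right ?_ hc.le
  refine (H ι α μ Z).trans ?_
  refine mul_le_mul_of_nonneg_left ?_ hC
  have h2 : ∀ ω, VV μ Z ω ^ 2 ^ j ≤ Vg ^ 2 ^ j + Vm ^ 2 ^ j * (if bad ω then 1 else 0) := by
    intro ω
    have h0 := vv_nonneg μ Z ω
    by_cases hb : bad ω
    · rw [if_pos hb, mul_one]
      have := pow_le_pow_left₀ h0 (hm ω) (2 ^ j)
      have h3 : 0 ≤ Vg ^ 2 ^ j := by positivity
      linarith
    · rw [if_neg hb, mul_zero, add_zero]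
      exact pow_le_pow_left₀ h0 (hg ω hb) (2 ^ j)
  refine (μ.E_mono h2).trans (le_of_eq ?_)
  rw [μ.E_add, μ.E_const, μ.E_mul_left]
  rfl

end Pool.Agent.Lib.H93E
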