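import Pool.Agent.Lib.H93E.A20
import Pool.Agent.Lib.H93E.A21
import Pool.Agent.Lib.H93E.A22B
import Pool.Agent.Lib.H93E.A23A

/-!
# H93E, chunk A23B: the concentration theorem

Choose `j` with `2 * 2^j ≥ r`, `q = 2^j`, `C1` from `tail j`, `c = nc (64 + 8 Cw K + 4 j0)`, `c' = nc (1 + j0)`,
`h = y ≥ 1`, so `h + 2 ≤ 3 y` and `Vg = c (3 y)^(2d+4) (Q1 (Q0+Q1))` (`vv_good`),
`Vm = c' (cb y^m)^9 Q1^2` (`vv_crude`, `b = cb y^m`), `P(bad) ≤ C2 / y^r'` with `r' = 9 m q + r` (`bad_prob`).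
`tail` with `t = y^(d+3) sqrt((Q0+Q1) Q1)`, `t^(2q) = y^((2d+6) q) ((Q0+Q1) Q1)^q`, `Q1^2 ≤ (Q0+Q1) Q1`:
`P ≤ C1 ((c 3^(2d+4))^q y^(-2q) + (c' cb^9)^q y^(9 m q) C2 y^(-r') y^(-(2d+6) q)) ≤ C / y^r`. (If the constants
`K`, `Cw` are such that `LSHyp` is impossible there is nothing to prove: use `|K|`, `|Cw|` in the constants or
a case distinction.)
-/

set_option autoImplicit false

open Finset
open scoped Classical

namespace Pool.Agent.Lib.H93E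

open Pool.Agent.Lib.Prob48 Pool.Agent.Lib.H93D

theorem a23b_num (Vg Vm P a b C2 S y : ℝ) (d m q r : ℕ) (hVg : 0 ≤ Vg) (hVm : 0 ≤ Vm)
    (ha : 0 ≤ a) (hb : 0 ≤ b) (hC2 : 0 ≤ C2) (hS : 0 < S) (hy : 1 ≤ y) (hr : r ≤ 2 * q)
    (h1 : Vg ≤ a * y ^ (2 * d + 4) * S) (h2 : Vm ≤ b * y ^ (9 * m) * S)
    (h3 : P ≤ C2 / y ^ (9 * m * q + r)) :
    (Vg ^ q + Vm ^ q * P) / (y ^ (d + 3) * Real.sqrt S) ^ (2 * q) ≤ (a ^ q + b ^ q * C2) / y ^ r := by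
  have hy0 : 0 < y := by linarith
  have ht : (y ^ (d + 3) * Real.sqrt S) ^ (2 * q) = y ^ ((2 * d + 6) * q) * S ^ q := by
    rw [pow_mul, mul_pow, Real.sq_sqrt hS.le, mul_pow, ← pow_mul, ← pow_mul]
    congr 2
    ring
  rw [ht]
  have hSq : 0 < S ^ q := by positivity
  have hden : 0 < y ^ ((2 * d + 6) * q) * S ^ q := by positivity
  have e1 : Vg ^ q ≤ a ^ q * y ^ ((2 * d + 4) * q) * S ^ q := by
    calc Vg ^ q ≤ (a * y ^ (2 * d + 4) * S) ^ q := pow_le_pow_left₀ hVg h1 q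
      _ = a ^ q * y ^ ((2 * d + 4) * q) * S ^ q := by
        rw [mul_pow, mul_pow, ← pow_mul]
  have e2 : Vm ^ q ≤ b ^ q * y ^ (9 * m * q) * S ^ q := by
    calc Vm ^ q ≤ (b * y ^ (9 * m) * S) ^ q := pow_le_pow_left₀ hVm h2 q
      _ = b ^ q * y ^ (9 * m * q) * S ^ q := by
        rw [mul_pow, mul_pow, ← pow_mul]
  rw [div_le_div_iff₀ hden (by positivity)]
  have e3 : Vg ^ q * y ^ r ≤ a ^ q * (y ^ ((2 * d + 6) * q) * S ^ q) := by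
    calc Vg ^ q * y ^ r ≤ (a ^ q * y ^ ((2 * d + 4) * q) * S ^ q) * y ^ (2 * q) :=
          mul_le_mul e1 (pow_le_pow_right₀ hy hr) (by positivity) (by positivity)
      _ = a ^ q * (y ^ ((2 * d + 6) * q) * S ^ q) := by
          have : (2 * d + 6) * q = (2 * d + 4) * q + 2 * q := by ring
          rw [this, pow_add]
          ring
  have e4 : Vm ^ q * P * y ^ r ≤ b ^ q * C2 * (y ^ ((2 * d + 6) * q) * S ^ q) := by
    calc Vm ^ q * P * y ^ r ≤ Vm ^ q * (C2 / y ^ (9 * m * q + r)) * y ^ r := by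
          refine mul_le_mul_of_nonneg_right (mul_le_mul_of_nonneg_left h3 (by positivity))
            (by positivity)
      _ ≤ (b ^ q * y ^ (9 * m * q) * S ^ q) * (C2 / y ^ (9 * m * q + r)) * y ^ r := by
          refine mul_le_mul_of_nonneg_right (mul_le_mul_of_nonneg_right e2 (by positivity))
            (by positivity)
      _ = b ^ q * C2 * S ^ q := by
          rw [pow_add]
          field_simp
      _ ≤ b ^ q * C2 * (y ^ ((2 * d + 6) * q) * S ^ q) := by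
          refine mul_le_mul_of_nonneg_left ?_ (by positivity)
          have : 1 ≤ y ^ ((2 * d + 6) * q) := one_le_pow₀ hy
          nlinarith
  nlinarith

theorem concentration (m r : ℕ) (K Cw cb : ℝ) (hcb : 0 ≤ cb) (j0 nc d : ℕ) : ∃ C : ℝ, 0 ≤ C ∧
    ∀ (X M T ι : Type) [Fintype M] [Fintype T] [Fintype ι] [DecidableEq ι] (α : ι → Type)
      [∀ i, Fintype (α i)] (s : LS X M ι α) (μ : Weights α) (N : ℝ) (ρ : T → Finset X) (w : T → ℝ)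
      (L0 : Finset X) (Q0 Q1 y : ℝ) (Z : (∀ i, α i) → ℝ), LSHyp s μ N K Cw j0 nc d → 1 ≤ y →
      (∀ t, 0 ≤ w t) → (∀ t, ρ t ⊆ L0) → (∀ t, (ρ t).Nonempty) → (∀ t, (ρ t).card ≤ 4) →
      L0 ⊆ s.H → ((s.ball L0 (d + 1)).card : ℝ) ≤ cb * y ^ m → 0 ≤ Q0 → 0 < Q1 →
      FF ρ w (fun _ => Cw / N) ∅ ≤ Q0 →
      (∀ B : Finset X, B.Nonempty → FF ρ w (fun _ => Cw / N) B ≤ Q1) → s.Dom ρ w Z →
      μ.P (fun ω => y ^ (d + 3) * Real.sqrt ((Q0 + Q1) * Q1) < |Z ω - μ.E Z|) ≤ C / y ^ r := by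
  obtain ⟨C1, hC1, H1⟩ := tail r
  obtain ⟨C2, hC2, H2⟩ := bad_prob m (9 * m * 2 ^ r + r) K Cw cb hcb
  set a : ℝ := nc * (64 + 8 * |Cw * K| + 4 * j0) * 3 ^ (2 * d + 4) with ha
  set b : ℝ := nc * (1 + j0) * cb ^ 9 with hb
  have ha0 : 0 ≤ a := by positivity
  have hb0 : 0 ≤ b := by positivity
  refine ⟨C1 * (a ^ 2 ^ r + b ^ 2 ^ r * C2), by positivity, ?_⟩
  intro X M T ι _ _ _ _ α _ s μ N ρ w L0 Q0 Q1 y Z hs hy hw hρ hρ1 h4 hL hball hQ0 hQ1 hF0 hF1 hZ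
  have hy0 : 0 < y := by linarith
  have hS : 0 < (Q0 + Q1) * Q1 := by positivity
  have hCK : |Cw * K| = Cw * K := abs_of_nonneg (mul_nonneg hs.Cw_nonneg hs.K_nonneg)
  have hCK0 : 0 ≤ Cw * K := mul_nonneg hs.Cw_nonneg hs.K_nonneg
  have hbad := H2 X M T ι α s μ N j0 nc d ρ w L0 Q0 Q1 y hs hy hw hρ h4 hL hball hQ0 hQ1 hF0 hF1
  have hg : ∀ ω, ¬ (¬ s.Good ρ w L0 d (Cw / N) y Q0 Q1 ω) → VV μ Z ω ≤
      nc * (64 + 8 * (Cw * K) + 4 * j0) * (y + 2) ^ (2 * d + 4) * (Q1 * (Q0 + Q1)) := by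
    intro ω hω
    exact vv_good hs hw hρ hL hZ hy0.le hQ0 hQ1.le h4 ω (not_not.1 hω)
  have hm : ∀ ω, VV μ Z ω ≤ nc * (1 + j0) * (cb * y ^ m) * ((cb * y ^ m) ^ 4 * Q1) ^ 2 := fun ω =>
    vv_crude hs hw hρ hρ1 hL hZ hQ1.le h4 hF1 _ hball ω
  have ht := H1 ι α μ Z (fun ω => ¬ s.Good ρ w L0 d (Cw / N) y Q0 Q1 ω) _ _
    (y ^ (d + 3) * Real.sqrt ((Q0 + Q1) * Q1)) (by positivity) (by positivity)
    (by positivity) hg hm
  refine ht.trans ?_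
  rw [mul_div_assoc, mul_div_assoc]
  refine mul_le_mul_of_nonneg_left ?_ hC1
  refine a23b_num _ _ _ a b C2 ((Q0 + Q1) * Q1) y d m (2 ^ r) r (by positivity) (by positivity)
    ha0 hb0 hC2 hS hy ?_ ?_ ?_ hbad
  · have : r < 2 ^ r := Nat.lt_two_pow_self
    omega
  · rw [ha, hCK]
    have h3 : (y + 2) ^ (2 * d + 4) ≤ (3 * y) ^ (2 * d + 4) :=
      pow_le_pow_left₀ (by linarith) (by linarith) _
    calc (nc : ℝ) * (64 + 8 * (Cw * K) + 4 * j0) * (y + 2) ^ (2 * d + 4) * (Q1 * (Q0 + Q1))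
        ≤ (nc : ℝ) * (64 + 8 * (Cw * K) + 4 * j0) * (3 * y) ^ (2 * d + 4) * (Q1 * (Q0 + Q1)) := by
          refine mul_le_mul_of_nonneg_right (mul_le_mul_of_nonneg_left h3 (by positivity))
            (by positivity)
      _ = _ := by
          rw [mul_pow]
          ring
  · rw [hb]
    have h5 : Q1 * Q1 ≤ (Q0 + Q1) * Q1 := mul_le_mul_of_nonneg_right (by linarith) hQ1.le
    calc (nc : ℝ) * (1 + j0) * (cb * y ^ m) * ((cb * y ^ m) ^ 4 * Q1) ^ 2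
        = (nc : ℝ) * (1 + j0) * cb ^ 9 * y ^ (9 * m) * (Q1 * Q1) := by
          have : y ^ (9 * m) = (y ^ m) ^ 9 := by rw [← pow_mul]; congr 1; ring
          rw [this]
          ring
      _ ≤ _ := mul_le_mul_of_nonneg_left h5 (by positivity)

end Pool.Agent.Lib.H93E
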