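import Pool.Agent.Lib.H93E.A5A

/-!
# H93E, chunk A5B: tuple domination

`tupdom_aux`, induction on `r` (for all `Y`). `r = 0`: `hAA`. Step: write one factor of
`F^(r+1)`, `F = FF ρ w (plus om (AA ω)) B = ∑_t [B ⊆ ρ t] w t ∏_(x ∈ ρ t \ B) (om x + 1[x ∈ AA])`, and expand
the product: `∑_(U ⊆ ρ t \ B) ∏_(x ∈ (ρ t \ B) \ U) om x * 1[U ⊆ AA]`. As
`1[Y ⊆ AA] 1[U ⊆ AA] = 1[Y ∪ U ⊆ AA]`,
`E [1_Y F^(r+1)] = ∑_t [B ⊆ ρ t] w t ∑_U ∏_(..) om x * E [1_(Y ∪ U) F^r]`. By induction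
`E [1_(Y∪U) F^r] ≤ ((1+C)^q 2^(|Y ∪ U| + q r) β)^r ∏_(Y ∪ U) u` and `|Y ∪ U| ≤ |Y| + q`,
`∏_(Y ∪ U) u = ∏_Y u * ∏_(U \ Y) u`. Finally
`∑_U ∏_(..) om x * ∏_(U \ Y) u = ∏_(x ∈ ρ t \ B) (om x + if x ∈ Y then 1 else u x)` (`Finset.prod_add`) and
`ff_expand_le`.
`tupdom`: the case `Y = ∅`.
-/

set_option autoImplicit false

open Finset
open scoped Classical

namespace Pool.Agent.Lib.H93E

open Pool.Agent.Lib.Prob48 Pool.Agent.Lib.H93D

variable {X T ι : Type} [Fintype T] [Fintype ι] [DecidableEq ι] {α : ι → Type} [∀ i, Fintype (α i)]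

theorem a5b_F (ρ : T → Finset X) (w : T → ℝ) (om : X → ℝ) (A B : Finset X) :
    FF ρ w (plus om A) B = ∑ t, if B ⊆ ρ t then w t * ∑ U ∈ (ρ t \ B).powerset,
      ((if U ⊆ A then (1 : ℝ) else 0) * ∏ x ∈ (ρ t \ B) \ U, om x) else 0 := by
  unfold FF
  refine Finset.sum_congr rfl fun t _ => ?_
  by_cases hB : B ⊆ ρ t
  · rw [if_pos hB, if_pos hB]
    congr 1
    have h1 : ∀ x, plus om A x = (if x ∈ A then (1 : ℝ) else 0) + om x := by
      intro x
      unfold plus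
      rw [add_comm]
    rw [Finset.prod_congr rfl fun x _ => h1 x, Finset.prod_add]
    refine Finset.sum_congr rfl fun U _ => ?_
    congr 1
    by_cases hU : U ⊆ A
    · rw [if_pos hU, Finset.prod_congr rfl fun x hx => if_pos (hU hx), Finset.prod_const_one]
    · rw [if_neg hU]
      rw [Finset.not_subset] at hU
      obtain ⟨x, hx, hxY⟩ := hU
      exact Finset.prod_eq_zero hx (if_neg hxY)
  · rw [if_neg hB, if_neg hB]

theorem a5b_u (om u : X → ℝ) (S Y : Finset X) :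
    ∑ U ∈ S.powerset, ((∏ x ∈ U \ Y, u x) * ∏ x ∈ S \ U, om x) =
      ∏ x ∈ S, (om x + if x ∈ Y then 1 else u x) := by
  have h1 : ∀ x, (om x + if x ∈ Y then 1 else u x) = (if x ∈ Y then 1 else u x) + om x :=
    fun x => add_comm _ _
  rw [Finset.prod_congr rfl fun x _ => h1 x, Finset.prod_add]
  refine Finset.sum_congr rfl fun U _ => ?_
  congr 1
  rw [← Finset.prod_sdiff (Finset.inter_subset_left : U ∩ Y ⊆ U)]
  have h2 : ∏ x ∈ U ∩ Y, (if x ∈ Y then (1 : ℝ) else u x) = 1 := by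
    apply Finset.prod_eq_one
    intro x hx
    exact if_pos (Finset.mem_inter.mp hx).2
  rw [h2, mul_one]
  have h3 : U \ (U ∩ Y) = U \ Y := by
    ext x
    simp only [Finset.mem_sdiff, Finset.mem_inter, not_and]
    constructor
    · rintro ⟨h4, h5⟩
      exact ⟨h4, h5 h4⟩
    · rintro ⟨h4, h5⟩
      exact ⟨h4, fun _ => h5⟩
  rw [h3]
  refine Finset.prod_congr rfl fun x hx => ?_
  exact (if_neg (Finset.mem_sdiff.mp hx).2).symm

theorem tupdom_aux (μ : Weights α) (AA : (∀ i, α i) → Finset X) (ρ : T → Finset X) (w : T → ℝ)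
    (hw : ∀ t, 0 ≤ w t) (om u : X → ℝ) (C β : ℝ) (hC : 0 ≤ C) (hβ0 : 0 ≤ β) (hom : ∀ x, 0 ≤ om x)
    (hu0 : ∀ x, 0 ≤ u x) (hu : ∀ x, u x ≤ C * om x)
    (hAA : ∀ Y : Finset X, μ.P (fun ω => Y ⊆ AA ω) ≤ ∏ x ∈ Y, u x)
    (q : ℕ) (hq : ∀ t, (ρ t).card ≤ q) (B : Finset X)
    (hβ : ∀ B', B ⊆ B' → FF ρ w om B' ≤ β) (r : ℕ) : ∀ Y : Finset X,
    μ.E (fun ω => (if Y ⊆ AA ω then 1 else 0) * FF ρ w (plus om (AA ω)) B ^ r) ≤
      ((1 + C) ^ q * 2 ^ (Y.card + q * r) * β) ^ r * ∏ x ∈ Y, u x := by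
  induction r with
  | zero =>
    intro Y
    simp only [pow_zero, mul_one, one_mul]
    have h := hAA Y
    unfold Weights.P at h
    convert h
  | succ r ih =>
    intro Y
    obtain ⟨D, hD⟩ : ∃ D, D = (1 + C) ^ q * 2 ^ (Y.card + q * (r + 1)) * β := ⟨_, rfl⟩
    have hD0 : 0 ≤ D := by
      rw [hD]
      positivity
    have hYu : 0 ≤ ∏ x ∈ Y, u x := Finset.prod_nonneg fun x _ => hu0 x
    have e1 : (fun ω => (if Y ⊆ AA ω then (1 : ℝ) else 0) *
        FF ρ w (plus om (AA ω)) B ^ (r + 1)) =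
        fun ω => ∑ t, ∑ U ∈ (ρ t \ B).powerset,
          (if B ⊆ ρ t then w t * ∏ x ∈ (ρ t \ B) \ U, om x else 0) *
          ((if Y ∪ U ⊆ AA ω then 1 else 0) * FF ρ w (plus om (AA ω)) B ^ r) := by
      funext ω
      have h1 : FF ρ w (plus om (AA ω)) B ^ (r + 1) =
          FF ρ w (plus om (AA ω)) B * FF ρ w (plus om (AA ω)) B ^ r := pow_succ' _ _
      rw [h1]
      obtain ⟨G, hG⟩ : ∃ G, G = FF ρ w (plus om (AA ω)) B ^ r := ⟨_, rfl⟩
      rw [← hG, a5b_F, Finset.sum_mul, Finset.mul_sum]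
      refine Finset.sum_congr rfl fun t _ => ?_
      by_cases hB : B ⊆ ρ t
      · rw [if_pos hB, Finset.mul_sum, Finset.sum_mul, Finset.mul_sum]
        refine Finset.sum_congr rfl fun U _ => ?_
        rw [if_pos hB]
        by_cases hY : Y ⊆ AA ω
        · by_cases hU : U ⊆ AA ω
          · rw [if_pos hY, if_pos hU, if_pos (Finset.union_subset hY hU)]
            ring
          · rw [if_neg hU, if_neg fun h => hU (Finset.subset_union_right.trans h)]
            ring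
        · rw [if_neg hY, if_neg fun h => hY (Finset.subset_union_left.trans h)]
          ring
      · rw [if_neg hB, zero_mul, mul_zero]
        symm
        apply Finset.sum_eq_zero
        intro U _
        rw [if_neg hB, zero_mul]
    rw [e1, μ.E_sum]
    have h2 : ∀ t, μ.E (fun ω => ∑ U ∈ (ρ t \ B).powerset,
          (if B ⊆ ρ t then w t * ∏ x ∈ (ρ t \ B) \ U, om x else 0) *
          ((if Y ∪ U ⊆ AA ω then 1 else 0) * FF ρ w (plus om (AA ω)) B ^ r)) ≤
        D ^ r * (∏ x ∈ Y, u x) *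
          (if B ⊆ ρ t then w t * ∏ x ∈ ρ t \ B, (om x + if x ∈ Y then 1 else u x) else 0) := by
      intro t
      rw [μ.E_sum]
      have h3 : ∀ U ∈ (ρ t \ B).powerset, μ.E (fun ω =>
          (if B ⊆ ρ t then w t * ∏ x ∈ (ρ t \ B) \ U, om x else 0) *
          ((if Y ∪ U ⊆ AA ω then 1 else 0) * FF ρ w (plus om (AA ω)) B ^ r)) ≤
          (if B ⊆ ρ t then w t * ∏ x ∈ (ρ t \ B) \ U, om x else 0) *
            (D ^ r * ((∏ x ∈ Y, u x) * ∏ x ∈ U \ Y, u x)) := by
        intro U hU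
        rw [Finset.mem_powerset] at hU
        rw [μ.E_mul_left]
        apply mul_le_mul_of_nonneg_left
        · have h4 := ih (Y ∪ U)
          have h5 : ∏ x ∈ Y ∪ U, u x = (∏ x ∈ Y, u x) * ∏ x ∈ U \ Y, u x := by
            rw [← Finset.union_sdiff_self_eq_union, Finset.prod_union Finset.disjoint_sdiff]
          rw [h5] at h4
          refine h4.trans ?_
          apply mul_le_mul_of_nonneg_right
          · apply pow_le_pow_left₀ (by positivity)
            rw [hD]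
            apply mul_le_mul_of_nonneg_right _ hβ0
            apply mul_le_mul_of_nonneg_left _ (by positivity)
            apply pow_le_pow_right₀ (by norm_num)
            have h6 : (Y ∪ U).card ≤ Y.card + U.card := Finset.card_union_le _ _
            have h7 : U.card ≤ q :=
              (Finset.card_le_card (hU.trans Finset.sdiff_subset)).trans (hq t)
            have h8 : q * (r + 1) = q * r + q := by ring
            omega
          · exact mul_nonneg hYu (Finset.prod_nonneg fun x _ => hu0 x)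
        · split_ifs
          · exact mul_nonneg (hw t) (Finset.prod_nonneg fun x _ => hom x)
          · exact le_refl _
      refine (Finset.sum_le_sum h3).trans (le_of_eq ?_)
      by_cases hB : B ⊆ ρ t
      · rw [if_pos hB, ← a5b_u, Finset.mul_sum, Finset.mul_sum]
        refine Finset.sum_congr rfl fun U _ => ?_
        rw [if_pos hB]
        ring
      · rw [if_neg hB, mul_zero]
        apply Finset.sum_eq_zero
        intro U _
        rw [if_neg hB, zero_mul]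
    have h3 := ff_expand_le ρ w hw om u C β hC hβ0 hom hu0 hu q hq B Y hβ
    have h4 : (1 + C) ^ q * 2 ^ Y.card * β ≤ D := by
      rw [hD]
      apply mul_le_mul_of_nonneg_right _ hβ0
      apply mul_le_mul_of_nonneg_left _ (by positivity)
      exact pow_le_pow_right₀ (by norm_num) (by omega)
    calc _ ≤ ∑ t, D ^ r * (∏ x ∈ Y, u x) *
          (if B ⊆ ρ t then w t * ∏ x ∈ ρ t \ B, (om x + if x ∈ Y then 1 else u x) else 0) :=
          Finset.sum_le_sum fun t _ => h2 t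
      _ = D ^ r * (∏ x ∈ Y, u x) * ∑ t,
          (if B ⊆ ρ t then w t * ∏ x ∈ ρ t \ B, (om x + if x ∈ Y then 1 else u x) else 0) := by
          rw [Finset.mul_sum]
      _ ≤ D ^ r * (∏ x ∈ Y, u x) * D :=
          mul_le_mul_of_nonneg_left (h3.trans h4) (by positivity)
      _ = _ := by
          rw [← hD]
          ring

theorem tupdom (μ : Weights α) (AA : (∀ i, α i) → Finset X) (ρ : T → Finset X) (w : T → ℝ)
    (hw : ∀ t, 0 ≤ w t) (om u : X → ℝ) (C β : ℝ) (hC : 0 ≤ C) (hβ0 : 0 ≤ β) (hom : ∀ x, 0 ≤ om x)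
    (hu0 : ∀ x, 0 ≤ u x) (hu : ∀ x, u x ≤ C * om x)
    (hAA : ∀ Y : Finset X, μ.P (fun ω => Y ⊆ AA ω) ≤ ∏ x ∈ Y, u x)
    (q : ℕ) (hq : ∀ t, (ρ t).card ≤ q) (B : Finset X)
    (hβ : ∀ B', B ⊆ B' → FF ρ w om B' ≤ β) (r : ℕ) :
    μ.E (fun ω => FF ρ w (plus om (AA ω)) B ^ r) ≤ ((1 + C) ^ q * 2 ^ (q * r) * β) ^ r := by
  have h := tupdom_aux μ AA ρ w hw om u C β hC hβ0 hom hu0 hu hAA q hq B hβ r ∅
  simp only [Finset.empty_subset, if_true, one_mul, Finset.card_empty, zero_add,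
    Finset.prod_empty, mul_one] at h
  exact h

end Pool.Agent.Lib.H93E
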