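import Pool.Agent.Lib.H93E.A30
import Pool.Agent.Lib.H93E.A5B
import Pool.Agent.Lib.H93E.A23B

/-!
# H93E, A31: the output of module A: `conc` (Proposition 5.4) and `dom` (Lemma 5.3)
-/

set_option autoImplicit false

open Finset
open scoped Classical

namespace Pool.Agent.Lib.H93E

open Pool.Agent.Lib.Prob48 Pool.Agent.Lib.H93D Pool.Agent.Lib.H93B

/-- Lemma 5.3 -/
theorem dom (q r : ℕ) (C : ℝ) (hC : 1 ≤ C) : ∃ C' : ℝ, 1 ≤ C' ∧ DomFor q r C C' := by
  refine ⟨(1 + C) ^ q * 2 ^ (q * r), ?_, ?_⟩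
  · exact one_le_mul_of_one_le_of_one_le (one_le_pow₀ (by linarith)) (one_le_pow₀ (by norm_num))
  · intro X ι Val _ _ _ _ μ act om om0 T _ w ρ h0 h1 hP hw hq B β hβ
    have hom : ∀ z, 0 ≤ om z := fun z => (h0 z).trans (h1 z)
    have hβ0 : 0 ≤ β := (ff_nonneg ρ w hw om hom B).trans (hβ B (Finset.Subset.refl B))
    exact tupdom μ act ρ w hw om (fun z => C * om0 z) C β (by linarith) hβ0 hom
      (fun z => mul_nonneg (by linarith) (h0 z))
      (fun z => mul_le_mul_of_nonneg_left (h1 z) (by linarith)) hP q hq B hβ r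

/-- Proposition 5.4 -/
theorem conc (K Cw : ℝ) (j0 nc d : ℕ) (hK : 1 ≤ K) (hCw : 0 ≤ Cw) :
    ∃ c0 : ℕ, ConcFor K Cw j0 nc d c0 := by
  refine ⟨2 * d + 6, fun m r => ?_⟩
  obtain ⟨C1, hC1, H⟩ := concentration m r (1 + K + j0 * K ^ 2) Cw (2 ^ m) (by positivity) j0 nc d
  refine ⟨C1 * 2 ^ r + 2 ^ r, by positivity, ?_⟩
  intro Q R M _ _ _ D s N _ hD hs T _ w ρ Z L hw h4 hsup hZ Y Q0 Q1 τ hY hL hQ0 hQ1 hτ hF0 hF1 hτ2
  have hY0 : 0 < Y := by linarith
  by_cases hY2 : Y < 2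
  · refine (s.μ.P_le_one _).trans ?_
    rw [le_div_iff₀ (by positivity), one_mul]
    have h1 : Y ^ r ≤ 2 ^ r := pow_le_pow_left₀ hY0.le hY2.le r
    have h2 : 0 ≤ C1 * 2 ^ r := by positivity
    linarith
  · push Not at hY2
    have hom : ∀ x : Q × R, (0 : ℝ) ≤ (fun _ => Cw / N) x := fun x =>
      div_nonneg hCw (zero_le_one.trans hD.hN)
    set L0 : Finset (Q × R) := Finset.univ.biUnion (fun t : Ts w ρ => ρ t.1) with hL0
    have hball : (((toLS D s).ball L0 (d + 1)).card : ℝ) ≤ 2 ^ m * (Y / 2) ^ m := by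
      have h1 : (toLS D s).ball L0 (d + 1) ⊆ L := by
        intro y hy
        obtain ⟨x, hx, hxy⟩ := within_ball hCw hD hs (d + 1) y hy
        rw [hL0, Finset.mem_biUnion] at hx
        obtain ⟨t, _, hxt⟩ := hx
        exact (hsup t.1 t.2.1 x hxt).2 y hxy
      have h2 : (((toLS D s).ball L0 (d + 1)).card : ℝ) ≤ L.card := by
        exact_mod_cast Finset.card_le_card h1
      refine h2.trans (hL.trans (le_of_eq ?_))
      rw [← mul_pow]
      congr 1
      ring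
    have hL0H : L0 ⊆ (toLS D s).H := by
      intro x hx
      rw [hL0, Finset.mem_biUnion] at hx
      obtain ⟨t, _, hxt⟩ := hx
      exact (hsup t.1 t.2.1 x hxt).1
    have hmain := H (Q × R) M (Ts w ρ) s.ι (fun _ => s.Val) (toLS D s) s.μ N
      (fun t => ρ t.1) (fun t => w t.1) L0 Q0 Q1 (Y / 2) (fun v => Z (s.S v))
      (toLS_hyp hCw hD hs) (by linarith) (fun t => hw t.1)
      (fun t => Finset.subset_biUnion_of_mem (fun t : Ts w ρ => ρ t.1) (Finset.mem_univ t))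
      (fun t => t.2.2) (fun t => h4 t.1) hL0H hball hQ0 hQ1
      ((ts_le w ρ hw _ hom ∅).trans hF0) (fun B hB => (ts_le w ρ hw _ hom B).trans (hF1 B hB))
      (ts_dom hs w ρ hw Z hZ)
    have hQ : 0 < (Q0 + Q1) * Q1 := by positivity
    have hlt : (Y / 2) ^ (d + 3) * Real.sqrt ((Q0 + Q1) * Q1) < τ := by
      refine lt_of_pow_lt_pow_left₀ 2 hτ.le ?_
      rw [mul_pow, Real.sq_sqrt hQ.le, ← pow_mul]
      have e1 : (d + 3) * 2 = 2 * d + 6 := by ring
      rw [e1]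
      have e2 : (Y / 2) ^ (2 * d + 6) < Y ^ (2 * d + 6) :=
        pow_lt_pow_left₀ (by linarith) (by positivity) (by omega)
      calc (Y / 2) ^ (2 * d + 6) * ((Q0 + Q1) * Q1) < Y ^ (2 * d + 6) * ((Q0 + Q1) * Q1) :=
            mul_lt_mul_of_pos_right e2 hQ
        _ ≤ τ ^ 2 := hτ2
    refine (s.μ.P_mono fun v hv => lt_of_lt_of_le hlt hv).trans (hmain.trans ?_)
    rw [div_pow, div_div_eq_mul_div]
    have : 0 < Y ^ r := by positivity
    gcongr
    have : (0 : ℝ) ≤ 2 ^ r := by positivity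
    linarith

end Pool.Agent.Lib.H93E
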