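import Pool.Agent.Lib.H93E.A7B

/-!
# H93E, chunk A10: inactive elements reached from a given element

Induction on `n` (for all `x, m`). `n = 0`: empty, because `x ∈ A` and `y ∉ A`. Step: `x ≠ y`, so `x` is adjacent to
some `x' ∈ insert y A` which reaches `y` in `n` steps inside `insert y A`. Either `x' = y`: then `y` is one of the at most
`KN` elements of `H` adjacent to `x`; or `x' ∈ A` and, `x' ∈ ball (m+1)` (`ball_step`), for each of the at most
`h` such `x'` (`g1` for `z = x`) there are at most `KN (h+2)^n` such `y`. Total: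
`KN + h KN (h+2)^n ≤ KN (h+2)^(n+1)`.
-/

set_option autoImplicit false

open Finset
open scoped Classical

namespace Pool.Agent.Lib.H93E

open Pool.Agent.Lib.Prob48 Pool.Agent.Lib.H93D

variable {X M ι : Type} {α : ι → Type} {s : LS X M ι α}

theorem a10_biUnion {β γ : Type} (s : Finset β) (t : β → Finset γ) (c b : ℝ) (hb : 0 ≤ b)
    (hs : (s.card : ℝ) ≤ c) (ht : ∀ a ∈ s, ((t a).card : ℝ) ≤ b) :
    ((s.biUnion t).card : ℝ) ≤ c * b := by
  have h1 : ((s.biUnion t).card : ℝ) ≤ ∑ a ∈ s, ((t a).card : ℝ) := by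
    exact_mod_cast Finset.card_biUnion_le
  have h2 : ∑ a ∈ s, ((t a).card : ℝ) ≤ ∑ _a ∈ s, b := Finset.sum_le_sum ht
  rw [Finset.sum_const, nsmul_eq_mul] at h2
  exact (h1.trans h2).trans (mul_le_mul_of_nonneg_right hs hb)

theorem count_new
    (hsymm : ∀ x ∈ s.H, ∀ y ∈ s.H, s.adj x y → s.adj y x) (L0 A : Finset X) (hA : A ⊆ s.H)
    (h : ℝ) (h0 : 0 ≤ h) (d : ℕ)
    (g1 : ∀ z ∈ s.ball L0 (d + 1), ((A.filter fun y => s.adj z y).card : ℝ) ≤ h)
    (KN : ℝ) (hKN : 0 ≤ KN) (hadj : ∀ x ∈ s.H, ((s.H.filter fun y => s.adj x y).card : ℝ) ≤ KN)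
    (n : ℕ) : ∀ m x, n + m ≤ d + 1 → x ∈ s.ball L0 m → x ∈ A →
    (((s.H \ A).filter fun y => Reach s.adj (fun z => z = y) (insert y A) n x).card : ℝ)
      ≤ KN * (h + 2) ^ n := by
  induction n with
  | zero =>
    intro m x _ _ hxA
    have h1 : ((s.H \ A).filter fun y => Reach s.adj (fun z => z = y) (insert y A) 0 x) = ∅ := by
      rw [Finset.filter_eq_empty_iff]
      intro y hy h2
      have h3 : x = y := h2.2
      rw [Finset.mem_sdiff] at hy
      exact hy.2 (h3 ▸ hxA)
    rw [h1, Finset.card_empty, Nat.cast_zero]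
    positivity
  | succ n ih =>
    intro m x hm hx hxA
    have h1 : ((s.H \ A).filter fun y =>
        Reach s.adj (fun z => z = y) (insert y A) (n + 1) x) ⊆
        (s.H.filter fun y => s.adj x y) ∪ ((A.filter fun v => s.adj x v)).biUnion
          (fun v => if v ∈ s.ball L0 (m + 1) ∧ v ∈ A then
            (s.H \ A).filter fun y => Reach s.adj (fun z => z = y) (insert y A) n v else ∅) := by
      intro y hy
      rw [Finset.mem_filter] at hy
      obtain ⟨hy1, hy2, hy3⟩ := hy
      have hyH := (Finset.mem_sdiff.mp hy1).1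
      have hyA := (Finset.mem_sdiff.mp hy1).2
      rw [Finset.mem_union, Finset.mem_filter, Finset.mem_biUnion]
      rcases hy3 with hy3 | ⟨v, hxv, hy3⟩
      · have h3 : x = y := hy3
        exact absurd (h3 ▸ hxA) hyA
      · rcases Finset.mem_insert.mp hy3.mem with hv | hv
        · left
          rw [hv] at hxv
          exact ⟨hyH, hxv⟩
        · right
          refine ⟨v, Finset.mem_filter.mpr ⟨hv, hxv⟩, ?_⟩
          rw [if_pos ⟨ball_step hsymm hx (hA hv) hxv, hv⟩, Finset.mem_filter]
          exact ⟨hy1, hy3⟩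
    have h2 := Finset.card_le_card h1
    have h3 := h2.trans (Finset.card_union_le _ _)
    have h4 : (((s.H \ A).filter fun y =>
        Reach s.adj (fun z => z = y) (insert y A) (n + 1) x).card : ℝ) ≤
        ((s.H.filter fun y => s.adj x y).card : ℝ) +
        ((((A.filter fun v => s.adj x v)).biUnion
          (fun v => if v ∈ s.ball L0 (m + 1) ∧ v ∈ A then
            (s.H \ A).filter fun y =>
              Reach s.adj (fun z => z = y) (insert y A) n v else ∅)).card : ℝ) := by
      exact_mod_cast h3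
    have h6 : (1 : ℝ) ≤ (h + 2) ^ n := one_le_pow₀ (by linarith)
    have h7 : 0 ≤ KN * (h + 2) ^ n := by positivity
    have h5 := a10_biUnion (A.filter fun v => s.adj x v)
          (fun v => if v ∈ s.ball L0 (m + 1) ∧ v ∈ A then
            (s.H \ A).filter fun y =>
              Reach s.adj (fun z => z = y) (insert y A) n v else ∅) h (KN * (h + 2) ^ n)
          h7 (g1 x (ball_mono (by omega) hx)) (by
            intro v _
            split_ifs with hv
            · exact ih (m + 1) v (by omega) hv.1 hv.2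
            · rw [Finset.card_empty, Nat.cast_zero]
              exact h7)
    have h8 := hadj x (hA hxA)
    have h9 : KN ≤ KN * (h + 2) ^ n := le_mul_of_one_le_right hKN h6
    calc _ ≤ KN + h * (KN * (h + 2) ^ n) := by linarith
      _ ≤ KN * (h + 2) ^ (n + 1) := by
        rw [pow_succ]
        nlinarith

end Pool.Agent.Lib.H93E
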