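import Pool.Agent.Lib.H93E.A7B

/-!
# H93E, chunk A9: elements reached from a given element

Induction on `n` (for all `x, m`). If `x ∉ A` the set is empty. `n = 0`: only `y = x`. Step: `y = x`, or `x` is adjacent
to some `x' ∈ A` which reaches `y` in `n` steps inside `A`; `x' ∈ ball (m+1)` (`ball_step`) and by `g1` for
`z = x` there are at most `h` such `x'`. Total: `1 + h (h+2)^n ≤ (h+2)^(n+1)`.
-/

set_option autoImplicit false

open Finset
open scoped Classical

namespace Pool.Agent.Lib.H93E

open Pool.Agent.Lib.Prob48 Pool.Agent.Lib.H93D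

variable {X M ι : Type} {α : ι → Type} {s : LS X M ι α}

theorem a9_biUnion {β γ : Type} (s : Finset β) (t : β → Finset γ) (c b : ℝ) (hb : 0 ≤ b)
    (hs : (s.card : ℝ) ≤ c) (ht : ∀ a ∈ s, ((t a).card : ℝ) ≤ b) :
    ((s.biUnion t).card : ℝ) ≤ c * b := by
  have h1 : ((s.biUnion t).card : ℝ) ≤ ∑ a ∈ s, ((t a).card : ℝ) := by
    exact_mod_cast Finset.card_biUnion_le
  have h2 : ∑ a ∈ s, ((t a).card : ℝ) ≤ ∑ _a ∈ s, b := Finset.sum_le_sum ht
  rw [Finset.sum_const, nsmul_eq_mul] at h2
  exact (h1.trans h2).trans (mul_le_mul_of_nonneg_right hs hb)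

theorem count_out
    (hsymm : ∀ x ∈ s.H, ∀ y ∈ s.H, s.adj x y → s.adj y x) (L0 A : Finset X) (hA : A ⊆ s.H)
    (h : ℝ) (h0 : 0 ≤ h) (d : ℕ)
    (g1 : ∀ z ∈ s.ball L0 (d + 1), ((A.filter fun y => s.adj z y).card : ℝ) ≤ h)
    (n : ℕ) : ∀ m x, n + m ≤ d + 1 → x ∈ s.ball L0 m →
    ((A.filter fun y => Reach s.adj (fun z => z = y) A n x).card : ℝ) ≤ (h + 2) ^ n := by
  induction n with
  | zero =>
    intro m x _ _
    have h1 : (A.filter fun y => Reach s.adj (fun z => z = y) A 0 x) ⊆ {x} := by
      intro y hy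
      rw [Finset.mem_filter] at hy
      rw [Finset.mem_singleton]
      exact hy.2.2.symm
    have h2 := Finset.card_le_card h1
    rw [Finset.card_singleton] at h2
    rw [pow_zero]
    exact_mod_cast h2
  | succ n ih =>
    intro m x hm hx
    have h1 : (A.filter fun y => Reach s.adj (fun z => z = y) A (n + 1) x) ⊆ {x} ∪
        ((A.filter fun v => s.adj x v)).biUnion
          (fun v => if v ∈ s.ball L0 (m + 1) then
            A.filter fun y => Reach s.adj (fun z => z = y) A n v else ∅) := by
      intro y hy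
      rw [Finset.mem_filter] at hy
      obtain ⟨hy1, hy2, hy3⟩ := hy
      rw [Finset.mem_union, Finset.mem_singleton, Finset.mem_biUnion]
      rcases hy3 with hy3 | ⟨v, hxv, hy3⟩
      · exact Or.inl hy3.symm
      · right
        have hv : v ∈ A := hy3.mem
        refine ⟨v, Finset.mem_filter.mpr ⟨hv, hxv⟩, ?_⟩
        rw [if_pos (ball_step hsymm hx (hA hv) hxv), Finset.mem_filter]
        exact ⟨hy1, hy3⟩
    have h2 := Finset.card_le_card h1
    have h3 := h2.trans (Finset.card_union_le _ _)
    rw [Finset.card_singleton] at h3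
    have h4 : ((A.filter fun y => Reach s.adj (fun z => z = y) A (n + 1) x).card : ℝ) ≤ 1 +
        ((((A.filter fun v => s.adj x v)).biUnion
          (fun v => if v ∈ s.ball L0 (m + 1) then
            A.filter fun y => Reach s.adj (fun z => z = y) A n v else ∅)).card : ℝ) := by
      exact_mod_cast h3
    have h6 : (1 : ℝ) ≤ (h + 2) ^ n := one_le_pow₀ (by linarith)
    have h5 := a9_biUnion (A.filter fun v => s.adj x v)
          (fun v => if v ∈ s.ball L0 (m + 1) then
            A.filter fun y => Reach s.adj (fun z => z = y) A n v else ∅) h ((h + 2) ^ n)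
          (by linarith) (g1 x (ball_mono (by omega) hx)) (by
            intro v _
            split_ifs with hv
            · exact ih (m + 1) v (by omega) hv
            · rw [Finset.card_empty, Nat.cast_zero]
              linarith)
    calc _ ≤ 1 + h * (h + 2) ^ n := by linarith
      _ ≤ (h + 2) ^ (n + 1) := by
        rw [pow_succ]
        nlinarith

end Pool.Agent.Lib.H93E
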