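import Pool.Agent.Lib.H93E.A8
import Pool.Agent.Lib.H93E.A9

/-!
# H93E, chunk A11: counting for labels

* `card_ClL`: by `reach_exists` every `x ∈ ClL L0 A d f` reaches some `y` with `f ∈ J y` inside `A`;
  `y ∈ A` (`reach_target`) and `y ∈ ball d` (`ball_reach`). Any two such `y` are adjacent (`hJ`), so if `y0` is one of
  them, all of them are in `A.filter (adj y0)`: at most `h` (`g1`). For each `y` at most `(h+2)^d` elements `x`
  (`count_in`, `m = 0`, `Reach.mono` from `A` to `insert y A`). Total `h (h+2)^d ≤ (h+2)^(d+1)`.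
* `card_labels`: for `x ∈ L0` every such `f` lies in `J y` for some `y ∈ A` reached from `x`
  inside `A`: at most `j0` labels for each of the at most `(h+2)^d` elements `y` (`count_out`).
-/

set_option autoImplicit false

open Finset
open scoped Classical

namespace Pool.Agent.Lib.H93E

open Pool.Agent.Lib.Prob48 Pool.Agent.Lib.H93D

variable {X M ι : Type} {α : ι → Type} [Fintype M] {s : LS X M ι α}

theorem card_ClL
    (hsymm : ∀ x ∈ s.H, ∀ y ∈ s.H, s.adj x y → s.adj y x) (L0 A : Finset X) (hA : A ⊆ s.H)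
    (h : ℝ) (h0 : 0 ≤ h) (d : ℕ)
    (g1 : ∀ z ∈ s.ball L0 (d + 1), ((A.filter fun y => s.adj z y).card : ℝ) ≤ h)
    (hL : L0 ⊆ s.H) (hJ : ∀ x ∈ s.H, ∀ y ∈ s.H, ∀ f ∈ s.J x, f ∈ s.J y → s.adj x y) (f : M) :
    ((s.ClL L0 A d f).card : ℝ) ≤ (h + 2) ^ (d + 1) := by
  have h1 : s.ClL L0 A d f ⊆ (A.filter fun y => f ∈ s.J y ∧ y ∈ s.ball L0 d).biUnion
      (fun y => (s.ball L0 0).filter fun x =>
        Reach s.adj (fun z => z = y) (insert y A) d x) := by
    intro x hx
    unfold LS.ClL at hx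
    rw [Finset.mem_filter] at hx
    obtain ⟨hx1, hx2⟩ := hx
    obtain ⟨y, hy1, hy2⟩ := (reach_exists d x).mp hx2
    have hyA := reach_target d x y hy2
    have hx0 := ball_zero hL hx1
    have hyb := ball_reach hsymm hA hx0 hy2
    rw [zero_add] at hyb
    rw [Finset.mem_biUnion]
    refine ⟨y, Finset.mem_filter.mpr ⟨hyA, hy1, hyb⟩, Finset.mem_filter.mpr ⟨hx0, ?_⟩⟩
    exact hy2.mono (fun _ _ h => h) (fun _ h => h) (Finset.subset_insert _ _)
  have h2 : (((A.filter fun y => f ∈ s.J y ∧ y ∈ s.ball L0 d)).card : ℝ) ≤ h := by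
    rcases (A.filter fun y => f ∈ s.J y ∧ y ∈ s.ball L0 d).eq_empty_or_nonempty with h3 | h3
    · rw [h3, Finset.card_empty, Nat.cast_zero]
      exact h0
    · obtain ⟨y0, hy0⟩ := h3
      rw [Finset.mem_filter] at hy0
      have h4 : (A.filter fun y => f ∈ s.J y ∧ y ∈ s.ball L0 d) ⊆
          A.filter fun y => s.adj y0 y := by
        intro y hy
        rw [Finset.mem_filter] at hy ⊢
        exact ⟨hy.1, hJ y0 (hA hy0.1) y (hA hy.1) f hy0.2.1 hy.2.1⟩
      have h5 : (((A.filter fun y => f ∈ s.J y ∧ y ∈ s.ball L0 d)).card : ℝ) ≤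
          ((A.filter fun y => s.adj y0 y).card : ℝ) := by
        exact_mod_cast Finset.card_le_card h4
      exact h5.trans (g1 y0 (ball_mono (by omega) hy0.2.2))
  have h3 := a8_biUnion _ (fun y => (s.ball L0 0).filter fun x =>
        Reach s.adj (fun z => z = y) (insert y A) d x) h ((h + 2) ^ d) (by positivity) h2 (by
      intro y hy
      rw [Finset.mem_filter] at hy
      exact count_in hsymm L0 A hA h h0 d g1 y (hA hy.1) d 0 (by omega))
  have h4 : ((s.ClL L0 A d f).card : ℝ) ≤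
      (((A.filter fun y => f ∈ s.J y ∧ y ∈ s.ball L0 d).biUnion
      (fun y => (s.ball L0 0).filter fun x =>
        Reach s.adj (fun z => z = y) (insert y A) d x)).card : ℝ) := by
    exact_mod_cast Finset.card_le_card h1
  have h6 : (0 : ℝ) ≤ (h + 2) ^ d := by positivity
  calc _ ≤ h * (h + 2) ^ d := h4.trans h3
    _ ≤ (h + 2) ^ (d + 1) := by
      rw [pow_succ]
      nlinarith

theorem card_labels
    (hsymm : ∀ x ∈ s.H, ∀ y ∈ s.H, s.adj x y → s.adj y x) (L0 A : Finset X) (hA : A ⊆ s.H)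
    (h : ℝ) (h0 : 0 ≤ h) (d : ℕ)
    (g1 : ∀ z ∈ s.ball L0 (d + 1), ((A.filter fun y => s.adj z y).card : ℝ) ≤ h)
    (hL : L0 ⊆ s.H) (j0 : ℕ) (hj : ∀ x ∈ s.H, (s.J x).card ≤ j0) (x : X) (hx : x ∈ L0) :
    ((Finset.univ.filter fun f : M => Reach s.adj (fun z => f ∈ s.J z) A d x).card : ℝ)
      ≤ j0 * (h + 2) ^ d := by
  have h1 : (Finset.univ.filter fun f : M => Reach s.adj (fun z => f ∈ s.J z) A d x) ⊆
      (A.filter fun y => Reach s.adj (fun z => z = y) A d x).biUnion s.J := by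
    intro f hf
    rw [Finset.mem_filter] at hf
    obtain ⟨y, hy1, hy2⟩ := (reach_exists d x).mp hf.2
    rw [Finset.mem_biUnion]
    exact ⟨y, Finset.mem_filter.mpr ⟨reach_target d x y hy2, hy2⟩, hy1⟩
  have h2 := count_out hsymm L0 A hA h h0 d g1 d 0 x (by omega) (ball_zero hL hx)
  have h3 := a8_biUnion (A.filter fun y => Reach s.adj (fun z => z = y) A d x) s.J
    ((h + 2) ^ d) j0 (Nat.cast_nonneg _) h2 (by
      intro y hy
      rw [Finset.mem_filter] at hy
      exact_mod_cast hj y (hA hy.1))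
  have h4 : ((Finset.univ.filter fun f : M =>
      Reach s.adj (fun z => f ∈ s.J z) A d x).card : ℝ) ≤
      (((A.filter fun y => Reach s.adj (fun z => z = y) A d x).biUnion s.J).card : ℝ) := by
    exact_mod_cast Finset.card_le_card h1
  calc _ ≤ (h + 2) ^ d * j0 := h4.trans h3
    _ = j0 * (h + 2) ^ d := mul_comm _ _

end Pool.Agent.Lib.H93E
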