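import Pool.Agent.Lib.H93E.A7A
import Pool.Agent.Lib.H93E.A12
import Pool.Agent.Lib.H93E.A5A

/-!
# H93E, chunk A13: change of `Z` if a coordinate located at an element is resampled

* `change_inl`: let `A = act ω`, `ω' = update ω i a`. By `act_upd_inl`, `act ω ∪ act ω' ⊆ insert y A`. By `hZ` it is
  enough that every token `t` which occurs on the right of `Dom` has `w t ≤` its contribution to the sum. Take
  `x ∈ ρ t` with `Ch ω ω' x`. By `T5` `x` reaches an element near `inl y`, i.e. `y` itself, inside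
  `act ω ∪ act ω'`, hence inside `insert y A` (`Reach.mono`), so `x ∈ Cl L0 A d y`. If `ρ t \ {x} ⊆ A`, all factors
  of the product over `ρ t \ {x}` are `≥ 1` and `w t` is at most its contribution to `FF .. {x}`. Otherwise
  `y ∈ ρ t`, `{x, y} ⊆ ρ t` and `ρ t \ {x, y} ⊆ A`: `w t` is at most its contribution to `FF .. {x, y}`.
* `change_zero`: `act ω' = act ω` (`act_upd_zero`) does not contain `y`; by `T5` no `x` changes its status (the path
  would end in `y`, `reach_target`), so the right side of `Dom` is `0`.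
-/

set_option autoImplicit false

open Finset
open scoped Classical

namespace Pool.Agent.Lib.H93E

open Pool.Agent.Lib.Prob48 Pool.Agent.Lib.H93D

variable {X M T ι : Type} [Fintype T] [Fintype ι] [DecidableEq ι] {α : ι → Type} [∀ i, Fintype (α i)]
  {s : LS X M ι α} {μ : Weights α} {N K Cw : ℝ} {j0 nc d : ℕ}
  {ρ : T → Finset X} {w : T → ℝ} {L0 : Finset X} {Z : (∀ i, α i) → ℝ}

omit [Fintype T] in
theorem a13_fac (hw : ∀ t, 0 ≤ w t) (π : ℝ) (hπ : 0 ≤ π) (A S : Finset X) (t : T)
    (hS : S ⊆ ρ t) (h : ρ t \ S ⊆ A) :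
    w t ≤ if S ⊆ ρ t then w t * ∏ z ∈ ρ t \ S, plus (fun _ => π) A z else 0 := by
  rw [if_pos hS]
  apply le_mul_of_one_le_right (hw t)
  have h1 : ∏ _z ∈ ρ t \ S, (1 : ℝ) ≤ ∏ z ∈ ρ t \ S, plus (fun _ => π) A z := by
    apply Finset.prod_le_prod
    · intro z _
      exact zero_le_one
    · intro z hz
      unfold plus
      rw [if_pos (h hz)]
      linarith
  rw [Finset.prod_const_one] at h1
  exact h1

omit [Fintype T] in
theorem a13_nonneg (hw : ∀ t, 0 ≤ w t) (π : ℝ) (hπ : 0 ≤ π) (A S : Finset X) (t : T) :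
    0 ≤ if S ⊆ ρ t then w t * ∏ z ∈ ρ t \ S, plus (fun _ => π) A z else 0 := by
  split_ifs
  · apply mul_nonneg (hw t)
    apply Finset.prod_nonneg
    intro z _
    unfold plus
    split_ifs
    · linarith
    · linarith
  · exact le_refl _

omit [Fintype T] in
theorem a13_reach (hs : LSHyp s μ N K Cw j0 nc d) (i : ι) (y : X)
    (hi : s.loc i = Sum.inl y) (ω : ∀ i, α i) (a : α i) (x : X)
    (hx : s.Ch ω (Function.update ω i a) x) :
    Reach s.adj (fun z => z = y) (s.act ω ∪ s.act (Function.update ω i a)) d x := by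
  have h1 := hs.T5 i ω (Function.update ω i a)
    (fun i' hi' => (Function.update_of_ne hi' _ _).symm) x hx
  refine h1.mono (fun _ _ h => h) (fun z hz => ?_) (Finset.Subset.refl _)
  rw [hi] at hz
  rcases hz with hz | ⟨f, _, hz⟩
  · exact (Sum.inl.inj hz).symm
  · exact absurd hz (by simp)

theorem change_inl (hs : LSHyp s μ N K Cw j0 nc d) (hw : ∀ t, 0 ≤ w t) (hρ : ∀ t, ρ t ⊆ L0)
    (hZ : s.Dom ρ w Z) (π : ℝ) (hπ : 0 ≤ π) (i : ι) (y : X) (hi : s.loc i = Sum.inl y)
    (ω : ∀ i, α i) (a : α i) :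
    |Z ω - Z (Function.update ω i a)| ≤ ∑ x ∈ s.Cl L0 (s.act ω) d y,
      (FF ρ w (plus (fun _ => π) (s.act ω)) {x} + FF ρ w (plus (fun _ => π) (s.act ω)) {x, y}) := by
  have hsub : s.act ω ∪ s.act (Function.update ω i a) ⊆ insert y (s.act ω) :=
    Finset.union_subset (Finset.subset_insert _ _) (act_upd_inl i y hi ω a)
  refine (hZ ω i a).trans ?_
  unfold FF
  simp only [← Finset.sum_add_distrib]
  rw [Finset.sum_comm]
  apply Finset.sum_le_sum
  intro t _
  by_cases hc : (∃ x ∈ ρ t, s.Ch ω (Function.update ω i a) x) ∧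
      ρ t ⊆ s.act ω ∪ s.act (Function.update ω i a)
  · rw [if_pos hc]
    obtain ⟨⟨x, hx, hCh⟩, hsubt⟩ := hc
    have h1 := a13_reach hs i y hi ω a x hCh
    have h2 : x ∈ s.Cl L0 (s.act ω) d y := by
      unfold LS.Cl
      rw [Finset.mem_filter]
      exact ⟨hρ t hx, h1.mono (fun _ _ h => h) (fun _ h => h) hsub⟩
    have h3 : w t ≤ (if {x} ⊆ ρ t then w t * ∏ z ∈ ρ t \ {x}, plus (fun _ => π) (s.act ω) z else 0) +
        (if {x, y} ⊆ ρ t then w t * ∏ z ∈ ρ t \ {x, y}, plus (fun _ => π) (s.act ω) z else 0) := by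
      by_cases h4 : ρ t \ {x} ⊆ s.act ω
      · have h5 := a13_fac hw π hπ (s.act ω) {x} t (Finset.singleton_subset_iff.mpr hx) h4
        have h6 := a13_nonneg (ρ := ρ) hw π hπ (s.act ω) {x, y} t
        linarith
      · rw [Finset.not_subset] at h4
        obtain ⟨z, hz1, hz2⟩ := h4
        have hz3 := (Finset.mem_sdiff.mp hz1).1
        have hzy : z = y := (Finset.mem_insert.mp (hsub (hsubt hz3))).resolve_right hz2
        have h5 : {x, y} ⊆ ρ t := by
          intro v hv
          rw [Finset.mem_insert, Finset.mem_singleton] at hv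
          rcases hv with hv | hv
          · rw [hv]
            exact hx
          · rw [hv, ← hzy]
            exact hz3
        have h6 : ρ t \ {x, y} ⊆ s.act ω := by
          intro v hv
          rw [Finset.mem_sdiff, Finset.mem_insert, Finset.mem_singleton, not_or] at hv
          exact (Finset.mem_insert.mp (hsub (hsubt hv.1))).resolve_left hv.2.2
        have h7 := a13_fac hw π hπ (s.act ω) {x, y} t h5 h6
        have h8 := a13_nonneg (ρ := ρ) hw π hπ (s.act ω) {x} t
        linarith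
    refine h3.trans ?_
    refine Finset.single_le_sum (f := fun x =>
      (if {x} ⊆ ρ t then w t * ∏ z ∈ ρ t \ {x}, plus (fun _ => π) (s.act ω) z else 0) +
        (if {x, y} ⊆ ρ t then w t * ∏ z ∈ ρ t \ {x, y}, plus (fun _ => π) (s.act ω) z else 0))
      (fun x _ => ?_) h2
    exact add_nonneg (a13_nonneg hw π hπ _ _ t) (a13_nonneg hw π hπ _ _ t)
  · rw [if_neg hc]
    apply Finset.sum_nonneg
    intro x _
    exact add_nonneg (a13_nonneg hw π hπ _ _ t) (a13_nonneg hw π hπ _ _ t)

theorem change_zero (hs : LSHyp s μ N K Cw j0 nc d) (hZ : s.Dom ρ w Z) (i : ι) (y : X)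
    (hi : s.loc i = Sum.inl y) (ω : ∀ i, α i) (a : α i) (hy : y ∉ s.act ω)
    (ha : ¬ s.one i a ∨ y ∉ s.H) : Z (Function.update ω i a) = Z ω := by
  have hact := act_upd_zero i y hi ω a hy ha
  have h1 := hZ ω i a
  have h2 : (∑ t, if (∃ x ∈ ρ t, s.Ch ω (Function.update ω i a) x) ∧
      ρ t ⊆ s.act ω ∪ s.act (Function.update ω i a) then w t else 0) = 0 := by
    apply Finset.sum_eq_zero
    intro t _
    apply if_neg
    rintro ⟨⟨x, _, hCh⟩, _⟩
    have h3 := reach_target d x y (a13_reach hs i y hi ω a x hCh)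
    rw [hact, Finset.union_self] at h3
    exact hy h3
  rw [h2] at h1
  have h3 := abs_nonpos_iff.mp h1
  linarith

end Pool.Agent.Lib.H93E
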