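import Pool.Agent.Lib.H93E.A7A
import Pool.Agent.Lib.H93E.A12
import Pool.Agent.Lib.H93E.A5A

/-!
# H93E, chunk A14: change of `Z` if a coordinate located at a label is resampled

As `change_inl` (A13), but simpler: `act (update ω i a) = act ω =: A` (`act_upd_inr`). A token which occurs on the
right of `Dom` has a changing `x ∈ ρ t`, which by `T5` reaches inside `A` an element near `inr f`, i.e. some `z` with
`f ∈ J z`: `x ∈ ClL L0 A d f`; and `ρ t ⊆ A`, so `w t` is at most its contribution to `FF .. {x}`.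
-/

set_option autoImplicit false

open Finset
open scoped Classical

namespace Pool.Agent.Lib.H93E

open Pool.Agent.Lib.Prob48 Pool.Agent.Lib.H93D

variable {X M T ι : Type} [Fintype T] [Fintype ι] [DecidableEq ι] {α : ι → Type} [∀ i, Fintype (α i)]
  {s : LS X M ι α} {μ : Weights α} {N K Cw : ℝ} {j0 nc d : ℕ}
  {ρ : T → Finset X} {w : T → ℝ} {L0 : Finset X} {Z : (∀ i, α i) → ℝ}

theorem change_inr (hs : LSHyp s μ N K Cw j0 nc d) (hw : ∀ t, 0 ≤ w t) (hρ : ∀ t, ρ t ⊆ L0)
    (hZ : s.Dom ρ w Z) (π : ℝ) (hπ : 0 ≤ π) (i : ι) (f : M) (hi : s.loc i = Sum.inr f)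
    (ω : ∀ i, α i) (a : α i) :
    |Z ω - Z (Function.update ω i a)| ≤ ∑ x ∈ s.ClL L0 (s.act ω) d f,
      FF ρ w (plus (fun _ => π) (s.act ω)) {x} := by
  have hact := act_upd_inr i f hi ω a
  have hpos : ∀ (x : X) (t : T), 0 ≤ if {x} ⊆ ρ t then
      w t * ∏ z ∈ ρ t \ {x}, plus (fun _ => π) (s.act ω) z else 0 := by
    intro x t
    split_ifs
    · apply mul_nonneg (hw t)
      apply Finset.prod_nonneg
      intro z _
      unfold plus
      split_ifs
      · linarith
      · linarith
    · exact le_refl _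
  refine (hZ ω i a).trans ?_
  unfold FF
  rw [Finset.sum_comm]
  apply Finset.sum_le_sum
  intro t _
  by_cases hc : (∃ x ∈ ρ t, s.Ch ω (Function.update ω i a) x) ∧
      ρ t ⊆ s.act ω ∪ s.act (Function.update ω i a)
  · rw [if_pos hc]
    obtain ⟨⟨x, hx, hCh⟩, hsubt⟩ := hc
    rw [hact, Finset.union_self] at hsubt
    have h1 := hs.T5 i ω (Function.update ω i a)
      (fun i' hi' => (Function.update_of_ne hi' _ _).symm) x hCh
    rw [hact, Finset.union_self] at h1
    have h2 : x ∈ s.ClL L0 (s.act ω) d f := by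
      unfold LS.ClL
      rw [Finset.mem_filter]
      refine ⟨hρ t hx, h1.mono (fun _ _ h => h) (fun z hz => ?_) (Finset.Subset.refl _)⟩
      rw [hi] at hz
      rcases hz with hz | ⟨g, hg, hz⟩
      · exact absurd hz (by simp)
      · rw [Sum.inr.inj hz]
        exact hg
    have h3 : w t ≤ if {x} ⊆ ρ t then
        w t * ∏ z ∈ ρ t \ {x}, plus (fun _ => π) (s.act ω) z else 0 := by
      rw [if_pos (Finset.singleton_subset_iff.mpr hx)]
      apply le_mul_of_one_le_right (hw t)
      have h1 : ∏ _z ∈ ρ t \ {x}, (1 : ℝ) ≤ ∏ z ∈ ρ t \ {x}, plus (fun _ => π) (s.act ω) z := by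
        apply Finset.prod_le_prod
        · intro z _
          exact zero_le_one
        · intro z hz
          unfold plus
          rw [if_pos (hsubt (Finset.mem_sdiff.mp hz).1)]
          linarith
      rw [Finset.prod_const_one] at h1
      exact h1
    refine h3.trans ?_
    exact Finset.single_le_sum (f := fun x => if {x} ⊆ ρ t then
      w t * ∏ z ∈ ρ t \ {x}, plus (fun _ => π) (s.act ω) z else 0)
      (fun x _ => hpos x t) h2
  · rw [if_neg hc]
    exact Finset.sum_nonneg fun x _ => hpos x t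

end Pool.Agent.Lib.H93E
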