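import Pool.Agent.Lib.H93E.A5A

/-!
# H93E, chunk A15: sums of functionals (pure algebra)

* `ff_sum_one`: `u x * FF ρ w u {x} = ∑_(t : x ∈ ρ t) w t ∏_(ρ t) u` (`Finset.mul_prod_erase`,
  `ρ t \ {x} = (ρ t).erase x`); exchange the sums: at most `∑_t |ρ t| w t ∏_(ρ t) u ≤ 4 FF ρ w u ∅`.
* `ff_sum_two`: the same with ordered pairs `x ≠ y` of `ρ t`: at most `16` pairs.
* `ff_act_le`: only the tokens with `{x, y} ⊆ ρ t` count; if `x = y` equality; otherwise the product over
  `ρ t \ {x}` has the additional factor `π + 1 ≥ 1` at `y`.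
-/

set_option autoImplicit false

open Finset
open scoped Classical

namespace Pool.Agent.Lib.H93E

open Pool.Agent.Lib.Prob48 Pool.Agent.Lib.H93D

variable {X T : Type} [Fintype T] {ρ : T → Finset X} {w : T → ℝ}

theorem a15_empty (u : X → ℝ) : FF ρ w u ∅ = ∑ t, w t * ∏ x ∈ ρ t, u x := by
  unfold FF
  refine Finset.sum_congr rfl fun t _ => ?_
  rw [if_pos (Finset.empty_subset _), Finset.sdiff_empty]

theorem a15_one (u : X → ℝ) (x : X) :
    u x * FF ρ w u {x} = ∑ t, if x ∈ ρ t then w t * ∏ x ∈ ρ t, u x else 0 := by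
  unfold FF
  rw [Finset.mul_sum]
  refine Finset.sum_congr rfl fun t _ => ?_
  by_cases h : x ∈ ρ t
  · rw [if_pos (Finset.singleton_subset_iff.2 h), if_pos h,
      ← Finset.prod_sdiff (Finset.singleton_subset_iff.2 h), Finset.prod_singleton]
    ring
  · rw [if_neg (fun h' => h (Finset.singleton_subset_iff.1 h')), if_neg h, mul_zero]

theorem a15_two (u : X → ℝ) (x y : X) (hxy : x ≠ y) :
    u x * u y * FF ρ w u {x, y} =
      ∑ t, if x ∈ ρ t then (if y ∈ ρ t then w t * ∏ x ∈ ρ t, u x else 0) else 0 := by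
  unfold FF
  rw [Finset.mul_sum]
  refine Finset.sum_congr rfl fun t _ => ?_
  by_cases h : x ∈ ρ t
  · by_cases h' : y ∈ ρ t
    · have h2 : ({x, y} : Finset X) ⊆ ρ t := by
        intro z hz
        rw [Finset.mem_insert, Finset.mem_singleton] at hz
        rcases hz with rfl | rfl <;> assumption
      rw [if_pos h2, if_pos h, if_pos h', ← Finset.prod_sdiff h2, Finset.prod_pair hxy]
      ring
    · rw [if_neg, if_pos h, if_neg h', mul_zero]
      intro h2
      exact h' (h2 (by simp))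
  · rw [if_neg, if_neg h, mul_zero]
    intro h2
    exact h (h2 (by simp))

theorem ff_sum_one (hw : ∀ t, 0 ≤ w t) (h4 : ∀ t, (ρ t).card ≤ 4) (u : X → ℝ) (hu : ∀ x, 0 ≤ u x)
    (S : Finset X) : ∑ x ∈ S, u x * FF ρ w u {x} ≤ 4 * FF ρ w u ∅ := by
  rw [a15_empty, Finset.sum_congr rfl fun x _ => a15_one u x, Finset.sum_comm, Finset.mul_sum]
  refine Finset.sum_le_sum fun t _ => ?_
  rw [← Finset.sum_filter, Finset.sum_const, nsmul_eq_mul]
  refine mul_le_mul_of_nonneg_right ?_ (mul_nonneg (hw t) (Finset.prod_nonneg fun x _ => hu x))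
  have h1 : (S.filter fun x => x ∈ ρ t).card ≤ 4 := by
    refine (Finset.card_le_card ?_).trans (h4 t)
    intro x hx
    exact (Finset.mem_filter.1 hx).2
  exact_mod_cast h1

theorem ff_sum_two (hw : ∀ t, 0 ≤ w t) (h4 : ∀ t, (ρ t).card ≤ 4) (u : X → ℝ) (hu : ∀ x, 0 ≤ u x)
    (S S' : Finset X) :
    ∑ x ∈ S, ∑ y ∈ S', (if x = y then 0 else u x * u y * FF ρ w u {x, y}) ≤ 16 * FF ρ w u ∅ := by
  have h1 : ∑ x ∈ S, ∑ y ∈ S', (if x = y then 0 else u x * u y * FF ρ w u {x, y}) ≤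
      ∑ x ∈ S, ∑ y ∈ S', ∑ t, if x ∈ ρ t then (if y ∈ ρ t then w t * ∏ x ∈ ρ t, u x else 0)
        else 0 := by
    refine Finset.sum_le_sum fun x _ => Finset.sum_le_sum fun y _ => ?_
    split_ifs with h
    · refine Finset.sum_nonneg fun t _ => ?_
      have := mul_nonneg (hw t) (Finset.prod_nonneg fun x (_ : x ∈ ρ t) => hu x)
      split_ifs
      · exact this
      · exact le_rfl
      · exact le_rfl
    · rw [a15_two u x y h]
  refine h1.trans ?_
  rw [a15_empty, Finset.mul_sum]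
  have h2 : ∑ x ∈ S, ∑ y ∈ S', ∑ t, (if x ∈ ρ t then (if y ∈ ρ t then w t * ∏ x ∈ ρ t, u x else 0)
        else 0) = ∑ t, ∑ x ∈ S, ∑ y ∈ S',
        (if x ∈ ρ t then (if y ∈ ρ t then w t * ∏ x ∈ ρ t, u x else 0) else 0) := by
    rw [Finset.sum_congr rfl fun x _ => Finset.sum_comm, Finset.sum_comm]
  rw [h2]
  refine Finset.sum_le_sum fun t _ => ?_
  have h0 : 0 ≤ w t * ∏ x ∈ ρ t, u x := mul_nonneg (hw t) (Finset.prod_nonneg fun x _ => hu x)
  have h5 : ∀ U : Finset X, ((U.filter fun x => x ∈ ρ t).card : ℝ) ≤ 4 := by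
    intro U
    have h1 : (U.filter fun x => x ∈ ρ t).card ≤ 4 := by
      refine (Finset.card_le_card ?_).trans (h4 t)
      intro x hx
      exact (Finset.mem_filter.1 hx).2
    exact_mod_cast h1
  have h3 : ∀ x ∈ S, ∑ y ∈ S', (if x ∈ ρ t then (if y ∈ ρ t then w t * ∏ x ∈ ρ t, u x else 0)
      else 0) = if x ∈ ρ t then ((S'.filter fun x => x ∈ ρ t).card : ℝ) * (w t * ∏ x ∈ ρ t, u x)
      else 0 := by
    intro x _
    split_ifs
    · rw [← Finset.sum_filter, Finset.sum_const, nsmul_eq_mul]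
    · rw [Finset.sum_const_zero]
  rw [Finset.sum_congr rfl h3, ← Finset.sum_filter, Finset.sum_const, nsmul_eq_mul, ← mul_assoc]
  refine mul_le_mul_of_nonneg_right ?_ h0
  have h6 := h5 S
  have h7 := h5 S'
  have h8 : (0 : ℝ) ≤ ((S'.filter fun x => x ∈ ρ t).card : ℝ) := Nat.cast_nonneg _
  have h9 : (0 : ℝ) ≤ ((S.filter fun x => x ∈ ρ t).card : ℝ) := Nat.cast_nonneg _
  nlinarith

theorem ff_act_le (hw : ∀ t, 0 ≤ w t) (π : ℝ) (hπ : 0 ≤ π) (A : Finset X) (x y : X) (hy : y ∈ A) :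
    FF ρ w (plus (fun _ => π) A) {x, y} ≤ FF ρ w (plus (fun _ => π) A) {x} := by
  have hu : ∀ z, 0 ≤ plus (fun _ => π) A z := by
    intro z
    unfold plus
    split_ifs <;> linarith
  by_cases hxy : x = y
  · subst hxy
    rw [Finset.pair_eq_singleton]
  unfold FF
  refine Finset.sum_le_sum fun t _ => ?_
  by_cases h : ({x, y} : Finset X) ⊆ ρ t
  · have hx : x ∈ ρ t := h (by simp)
    have hy' : y ∈ ρ t := h (by simp)
    rw [if_pos h, if_pos (Finset.singleton_subset_iff.2 hx)]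
    refine mul_le_mul_of_nonneg_left ?_ (hw t)
    have h1 : ρ t \ {x, y} = (ρ t \ {x}).erase y := by
      ext z
      simp only [Finset.mem_sdiff, Finset.mem_insert, Finset.mem_singleton, Finset.mem_erase]
      tauto
    have h2 : y ∈ ρ t \ {x} := by
      rw [Finset.mem_sdiff, Finset.mem_singleton]
      exact ⟨hy', fun h => hxy h.symm⟩
    rw [h1, ← Finset.mul_prod_erase (ρ t \ {x}) _ h2]
    have h3 : 1 ≤ plus (fun _ => π) A y := by
      unfold plus
      rw [if_pos hy]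
      linarith
    exact le_mul_of_one_le_left (Finset.prod_nonneg fun z _ => hu z) h3
  · rw [if_neg h]
    split_ifs
    · exact mul_nonneg (hw t) (Finset.prod_nonneg fun z _ => hu z)
    · exact le_rfl

end Pool.Agent.Lib.H93E
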