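import Pool.Agent.Lib.H93E.A9
import Pool.Agent.Lib.H93E.A15

/-!
# H93E, chunk A16: sum over the active elements

For `y ∈ A`: `insert y A = A` and `FF {x, y} ≤ FF {x}` (`ff_act_le`). So the left side is at most
`2 ∑_(x ∈ L0 ∩ A) FF {x} * #{y ∈ A : x reaches y inside A}` (an `x` which reaches something inside `A` is in `A`) and
the number is at most `(h+2)^d` (`count_out`, `m = 0`, `ball_zero`); `∑_(x ∈ L0 ∩ A) FF {x} ≤
∑ u x * FF {x} ≤ 4 FF ∅` (`1 ≤ u x` on `A`, `ff_sum_one`).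
-/

set_option autoImplicit false

open Finset
open scoped Classical

namespace Pool.Agent.Lib.H93E

open Pool.Agent.Lib.Prob48 Pool.Agent.Lib.H93D

variable {X M T ι : Type} [Fintype T] {α : ι → Type} {s : LS X M ι α}
  {ρ : T → Finset X} {w : T → ℝ}

theorem sum_act (hw : ∀ t, 0 ≤ w t) (h4 : ∀ t, (ρ t).card ≤ 4) (π : ℝ) (hπ : 0 ≤ π)
    (hsymm : ∀ x ∈ s.H, ∀ y ∈ s.H, s.adj x y → s.adj y x) (L0 A : Finset X) (hA : A ⊆ s.H)
    (h : ℝ) (h0 : 0 ≤ h) (d : ℕ)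
    (g1 : ∀ z ∈ s.ball L0 (d + 1), ((A.filter fun y => s.adj z y).card : ℝ) ≤ h)
    (hL : L0 ⊆ s.H) :
    ∑ y ∈ A, ∑ x ∈ s.Cl L0 A d y, (FF ρ w (plus (fun _ => π) A) {x}
      + FF ρ w (plus (fun _ => π) A) {x, y})
      ≤ 8 * (h + 2) ^ d * FF ρ w (plus (fun _ => π) A) ∅ := by
  set u : X → ℝ := plus (fun _ => π) A with hu
  have hu0 : ∀ x, 0 ≤ u x := by
    intro x
    simp only [hu]
    unfold plus
    split_ifs <;> linarith
  have hu1 : ∀ x ∈ A, 1 ≤ u x := by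
    intro x hx
    simp only [hu]
    unfold plus
    rw [if_pos hx]
    linarith
  have hnn : ∀ B, 0 ≤ FF ρ w u B := fun B => ff_nonneg ρ w hw u hu0 B
  have h1 : ∑ y ∈ A, ∑ x ∈ s.Cl L0 A d y, (FF ρ w u {x} + FF ρ w u {x, y}) ≤
      ∑ y ∈ A, ∑ x ∈ L0 ∩ A, if Reach s.adj (fun z => z = y) A d x then
        2 * FF ρ w u {x} else 0 := by
    refine Finset.sum_le_sum fun y hy => ?_
    rw [← Finset.sum_filter]
    have h2 : s.Cl L0 A d y = (L0 ∩ A).filter fun x => Reach s.adj (fun z => z = y) A d x := by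
      unfold LS.Cl
      rw [Finset.insert_eq_of_mem hy]
      ext x
      simp only [Finset.mem_filter, Finset.mem_inter]
      constructor
      · rintro ⟨h3, h4⟩
        exact ⟨⟨h3, h4.mem⟩, h4⟩
      · rintro ⟨⟨h3, _⟩, h4⟩
        exact ⟨h3, h4⟩
    rw [h2]
    refine Finset.sum_le_sum fun x _ => ?_
    have := ff_act_le (ρ := ρ) (w := w) hw π hπ A x y hy
    linarith
  refine h1.trans ?_
  rw [Finset.sum_comm]
  have h3 : ∀ x ∈ L0 ∩ A, ∑ y ∈ A, (if Reach s.adj (fun z => z = y) A d x then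
        2 * FF ρ w u {x} else 0) ≤ (2 * (h + 2) ^ d) * (u x * FF ρ w u {x}) := by
    intro x hx
    rw [Finset.mem_inter] at hx
    rw [← Finset.sum_filter, Finset.sum_const, nsmul_eq_mul]
    have h4 := count_out hsymm L0 A hA h h0 d g1 d 0 x (by omega) (ball_zero hL hx.1)
    have h5 : FF ρ w u {x} ≤ u x * FF ρ w u {x} := le_mul_of_one_le_left (hnn _) (hu1 x hx.2)
    calc _ ≤ (h + 2) ^ d * (2 * FF ρ w u {x}) :=
          mul_le_mul_of_nonneg_right h4 (by have := hnn {x}; linarith)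
      _ = (2 * (h + 2) ^ d) * FF ρ w u {x} := by ring
      _ ≤ _ := mul_le_mul_of_nonneg_left h5 (by positivity)
  refine (Finset.sum_le_sum h3).trans ?_
  rw [← Finset.mul_sum]
  have h6 := ff_sum_one (ρ := ρ) (w := w) hw h4 u hu0 (L0 ∩ A)
  have h7 : 0 ≤ 2 * (h + 2) ^ d := by positivity
  calc _ ≤ (2 * (h + 2) ^ d) * (4 * FF ρ w u ∅) := mul_le_mul_of_nonneg_left h6 h7
    _ = _ := by ring

end Pool.Agent.Lib.H93E
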