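import Pool.Agent.Lib.H93E.A10
import Pool.Agent.Lib.H93E.A15

/-!
# H93E, chunk A17: sum over the inactive elements

Let `u = plus (fun _ => π) A`, so `π ≤ u x` for all `x` and `1 ≤ u x` for `x ∈ A`. Let `y ∈ H \ A` and
`x ∈ Cl L0 A d y`; `x ∈ insert y A`. If `x = y` the term is `π * 2 FF {y} ≤ 2 u y FF {y}`: sum at most
`8 FF ∅` (`ff_sum_one`). If `x ≠ y` then `x ∈ A ∩ L0`; `π FF {x, y} ≤ u x u y FF {x, y}`: sum at most
`16 FF ∅` (`ff_sum_two`); and `π ∑_x FF {x} #{y ∈ H \ A : x reaches y inside insert y A} ≤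
π KN (h+2)^d ∑_(x ∈ A) u x FF {x}` (`count_new`, `m = 0`, `ball_zero`) `≤ 4 π KN (h+2)^d FF ∅`.
-/

set_option autoImplicit false

open Finset
open scoped Classical

namespace Pool.Agent.Lib.H93E

open Pool.Agent.Lib.Prob48 Pool.Agent.Lib.H93D

variable {X M T ι : Type} [Fintype T] {α : ι → Type} {s : LS X M ι α}
  {ρ : T → Finset X} {w : T → ℝ}

theorem a17_pl (π : ℝ) (hπ : 0 ≤ π) (A : Finset X) (x : X) : π ≤ plus (fun _ => π) A x := by
  unfold plus
  split_ifs <;> linarith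

theorem a17_pl1 (π : ℝ) (hπ : 0 ≤ π) (A : Finset X) (x : X) (hx : x ∈ A) :
    1 ≤ plus (fun _ => π) A x := by
  unfold plus
  rw [if_pos hx]
  linarith

theorem sum_new (hw : ∀ t, 0 ≤ w t) (h4 : ∀ t, (ρ t).card ≤ 4) (π : ℝ) (hπ : 0 ≤ π)
    (hsymm : ∀ x ∈ s.H, ∀ y ∈ s.H, s.adj x y → s.adj y x) (L0 A : Finset X) (hA : A ⊆ s.H)
    (h : ℝ) (h0 : 0 ≤ h) (d : ℕ)
    (g1 : ∀ z ∈ s.ball L0 (d + 1), ((A.filter fun y => s.adj z y).card : ℝ) ≤ h)
    (hL : L0 ⊆ s.H)
    (KN : ℝ) (hKN : 0 ≤ KN) (hadj : ∀ x ∈ s.H, ((s.H.filter fun y => s.adj x y).card : ℝ) ≤ KN) :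
    ∑ y ∈ s.H \ A, π * ∑ x ∈ s.Cl L0 A d y, (FF ρ w (plus (fun _ => π) A) {x}
      + FF ρ w (plus (fun _ => π) A) {x, y})
      ≤ (24 + 4 * (π * KN) * (h + 2) ^ d) * FF ρ w (plus (fun _ => π) A) ∅ := by
  set u : X → ℝ := plus (fun _ => π) A with hu
  have hu0 : ∀ x, 0 ≤ u x := fun x => hπ.trans (a17_pl π hπ A x)
  have hnn : ∀ B, 0 ≤ FF ρ w u B := fun B => ff_nonneg ρ w hw u hu0 B
  -- pointwise bound
  have hpt : ∀ y ∈ s.H \ A, ∀ x ∈ s.Cl L0 A d y, π * (FF ρ w u {x} + FF ρ w u {x, y}) ≤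
      (if x = y then 2 * (u y * FF ρ w u {y}) else 0) +
      ((if x ∈ L0 ∩ A then u x * (π * FF ρ w u {x}) else 0) +
        (if x = y then 0 else u x * u y * FF ρ w u {x, y})) := by
    intro y hy x hx
    unfold LS.Cl at hx
    rw [Finset.mem_filter] at hx
    by_cases hxy : x = y
    · subst hxy
      rw [if_pos rfl, if_pos rfl, Finset.pair_eq_singleton, if_neg]
      · have h1 : π * FF ρ w u {x} ≤ u x * FF ρ w u {x} :=
          mul_le_mul_of_nonneg_right (a17_pl π hπ A x) (hnn _)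
        linarith
      · intro h2
        exact (Finset.mem_sdiff.1 hy).2 (Finset.mem_inter.1 h2).2
    · have hxA : x ∈ A := by
        have h1 := hx.2.mem
        rw [Finset.mem_insert] at h1
        exact h1.resolve_left hxy
      rw [if_neg hxy, if_neg hxy, if_pos (Finset.mem_inter.2 ⟨hx.1, hxA⟩), zero_add]
      have h1 : 1 ≤ u x := a17_pl1 π hπ A x hxA
      have h2 : π * FF ρ w u {x} ≤ u x * (π * FF ρ w u {x}) := by
        have : 0 ≤ π * FF ρ w u {x} := mul_nonneg hπ (hnn _)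
        nlinarith
      have h3 : π * FF ρ w u {x, y} ≤ u x * u y * FF ρ w u {x, y} := by
        refine mul_le_mul_of_nonneg_right ?_ (hnn _)
        have h4 : π ≤ u y := a17_pl π hπ A y
        nlinarith [hu0 y]
      linarith
  have hcl : ∀ y, s.Cl L0 A d y ⊆ L0 := fun y => Finset.filter_subset _ _
  -- first part
  have e1 : ∑ y ∈ s.H \ A, ∑ x ∈ s.Cl L0 A d y, (if x = y then 2 * (u y * FF ρ w u {y}) else 0)
      ≤ 8 * FF ρ w u ∅ := by
    have h1 : ∀ y ∈ s.H \ A, ∑ x ∈ s.Cl L0 A d y, (if x = y then 2 * (u y * FF ρ w u {y}) else 0)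
        ≤ 2 * (u y * FF ρ w u {y}) := by
      intro y _
      rw [Finset.sum_ite_eq']
      have : 0 ≤ 2 * (u y * FF ρ w u {y}) := by have := mul_nonneg (hu0 y) (hnn {y}); linarith
      split_ifs
      · exact le_rfl
      · exact this
    refine (Finset.sum_le_sum h1).trans ?_
    rw [← Finset.mul_sum]
    have := ff_sum_one (ρ := ρ) (w := w) hw h4 u hu0 (s.H \ A)
    linarith
  -- third part
  have e3 : ∑ y ∈ s.H \ A, ∑ x ∈ s.Cl L0 A d y,
      (if x = y then 0 else u x * u y * FF ρ w u {x, y}) ≤ 16 * FF ρ w u ∅ := by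
    have h1 : ∑ y ∈ s.H \ A, ∑ x ∈ s.Cl L0 A d y,
        (if x = y then 0 else u x * u y * FF ρ w u {x, y}) ≤
        ∑ y ∈ s.H \ A, ∑ x ∈ L0, (if x = y then 0 else u x * u y * FF ρ w u {x, y}) := by
      refine Finset.sum_le_sum fun y _ => Finset.sum_le_sum_of_subset_of_nonneg (hcl y) ?_
      intro x _ _
      split_ifs
      · exact le_rfl
      · exact mul_nonneg (mul_nonneg (hu0 x) (hu0 y)) (hnn _)
    refine h1.trans ?_
    rw [Finset.sum_comm]
    exact ff_sum_two (ρ := ρ) (w := w) hw h4 u hu0 L0 (s.H \ A)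
  -- second part
  have e2 : ∑ y ∈ s.H \ A, ∑ x ∈ s.Cl L0 A d y,
      (if x ∈ L0 ∩ A then u x * (π * FF ρ w u {x}) else 0) ≤
      4 * (π * KN) * (h + 2) ^ d * FF ρ w u ∅ := by
    have h1 : ∑ y ∈ s.H \ A, ∑ x ∈ s.Cl L0 A d y,
        (if x ∈ L0 ∩ A then u x * (π * FF ρ w u {x}) else 0) =
        ∑ x ∈ L0 ∩ A, (((s.H \ A).filter fun y => Reach s.adj (fun z => z = y) (insert y A) d x).card
          : ℝ) * (u x * (π * FF ρ w u {x})) := by
      have h2 : ∀ y ∈ s.H \ A, ∑ x ∈ s.Cl L0 A d y,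
          (if x ∈ L0 ∩ A then u x * (π * FF ρ w u {x}) else 0) =
          ∑ x ∈ L0 ∩ A, if Reach s.adj (fun z => z = y) (insert y A) d x then
            u x * (π * FF ρ w u {x}) else 0 := by
        intro y _
        unfold LS.Cl
        rw [← Finset.sum_filter, ← Finset.sum_filter]
        refine Finset.sum_congr ?_ fun _ _ => rfl
        ext x
        simp only [Finset.mem_filter, Finset.mem_inter]
        tauto
      rw [Finset.sum_congr rfl h2, Finset.sum_comm]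
      refine Finset.sum_congr rfl fun x _ => ?_
      rw [← Finset.sum_filter, Finset.sum_const, nsmul_eq_mul]
    rw [h1]
    have h3 : ∀ x ∈ L0 ∩ A, (((s.H \ A).filter fun y => Reach s.adj (fun z => z = y)
        (insert y A) d x).card : ℝ) * (u x * (π * FF ρ w u {x})) ≤
        (KN * (h + 2) ^ d * π) * (u x * FF ρ w u {x}) := by
      intro x hx
      rw [Finset.mem_inter] at hx
      have h4 := count_new hsymm L0 A hA h h0 d g1 KN hKN hadj d 0 x (by omega)
        (ball_zero hL hx.1) hx.2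
      have h5 : 0 ≤ u x * (π * FF ρ w u {x}) := mul_nonneg (hu0 x) (mul_nonneg hπ (hnn _))
      calc _ ≤ (KN * (h + 2) ^ d) * (u x * (π * FF ρ w u {x})) :=
            mul_le_mul_of_nonneg_right h4 h5
        _ = _ := by ring
    refine (Finset.sum_le_sum h3).trans ?_
    rw [← Finset.mul_sum]
    have h6 := ff_sum_one (ρ := ρ) (w := w) hw h4 u hu0 (L0 ∩ A)
    have h7 : 0 ≤ KN * (h + 2) ^ d * π := by positivity
    calc _ ≤ (KN * (h + 2) ^ d * π) * (4 * FF ρ w u ∅) := mul_le_mul_of_nonneg_left h6 h7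
      _ = _ := by ring
  calc ∑ y ∈ s.H \ A, π * ∑ x ∈ s.Cl L0 A d y, (FF ρ w u {x} + FF ρ w u {x, y})
      ≤ ∑ y ∈ s.H \ A, ∑ x ∈ s.Cl L0 A d y, ((if x = y then 2 * (u y * FF ρ w u {y}) else 0) +
      ((if x ∈ L0 ∩ A then u x * (π * FF ρ w u {x}) else 0) +
        (if x = y then 0 else u x * u y * FF ρ w u {x, y}))) := by
        refine Finset.sum_le_sum fun y hy => ?_
        rw [Finset.mul_sum]
        exact Finset.sum_le_sum fun x hx => hpt y hy x hx
    _ = _ := by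
        simp only [Finset.sum_add_distrib]
    _ ≤ 8 * FF ρ w u ∅ + (4 * (π * KN) * (h + 2) ^ d * FF ρ w u ∅ + 16 * FF ρ w u ∅) :=
        add_le_add e1 (add_le_add e2 e3)
    _ = _ := by ring

end Pool.Agent.Lib.H93E
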