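import Pool.Agent.Lib.H93E.A11
import Pool.Agent.Lib.H93E.A15

/-!
# H93E, chunk A18: sum over the labels

Exchange the sums: `∑_(x ∈ L0) FF {x} * #{f : x reaches an element with label f inside A}`; only
`x ∈ L0 ∩ A` count (`Reach.mem`); the number is at most `j0 (h+2)^d` (`card_labels`); `1 ≤ u x` on `A` and
`ff_sum_one`.
-/

set_option autoImplicit false

open Finset
open scoped Classical

namespace Pool.Agent.Lib.H93E

open Pool.Agent.Lib.Prob48 Pool.Agent.Lib.H93D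

variable {X M T ι : Type} [Fintype T] [Fintype M] {α : ι → Type} {s : LS X M ι α}
  {ρ : T → Finset X} {w : T → ℝ}

theorem sum_lab (hw : ∀ t, 0 ≤ w t) (h4 : ∀ t, (ρ t).card ≤ 4) (π : ℝ) (hπ : 0 ≤ π)
    (hsymm : ∀ x ∈ s.H, ∀ y ∈ s.H, s.adj x y → s.adj y x) (L0 A : Finset X) (hA : A ⊆ s.H)
    (h : ℝ) (h0 : 0 ≤ h) (d : ℕ)
    (g1 : ∀ z ∈ s.ball L0 (d + 1), ((A.filter fun y => s.adj z y).card : ℝ) ≤ h)
    (hL : L0 ⊆ s.H) (j0 : ℕ) (hj : ∀ x ∈ s.H, (s.J x).card ≤ j0) :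
    ∑ f : M, ∑ x ∈ s.ClL L0 A d f, FF ρ w (plus (fun _ => π) A) {x}
      ≤ 4 * (j0 * (h + 2) ^ d) * FF ρ w (plus (fun _ => π) A) ∅ := by
  set u : X → ℝ := plus (fun _ => π) A with hu
  have hu0 : ∀ x, 0 ≤ u x := by
    intro x
    simp only [hu]
    unfold plus
    split_ifs <;> linarith
  have hu1 : ∀ x ∈ A, 1 ≤ u x := by
    intro x hx
    simp only [hu]
    unfold plus
    rw [if_pos hx]
    linarith
  have hnn : ∀ B, 0 ≤ FF ρ w u B := fun B => ff_nonneg ρ w hw u hu0 B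
  have h1 : ∀ f : M, ∑ x ∈ s.ClL L0 A d f, FF ρ w u {x} =
      ∑ x ∈ L0 ∩ A, if Reach s.adj (fun z => f ∈ s.J z) A d x then FF ρ w u {x} else 0 := by
    intro f
    rw [← Finset.sum_filter]
    refine Finset.sum_congr ?_ fun _ _ => rfl
    unfold LS.ClL
    ext x
    simp only [Finset.mem_filter, Finset.mem_inter]
    constructor
    · rintro ⟨h3, h4⟩
      exact ⟨⟨h3, h4.mem⟩, h4⟩
    · rintro ⟨⟨h3, _⟩, h4⟩
      exact ⟨h3, h4⟩
  rw [Finset.sum_congr rfl fun f _ => h1 f, Finset.sum_comm]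
  have h3 : ∀ x ∈ L0 ∩ A, ∑ f : M, (if Reach s.adj (fun z => f ∈ s.J z) A d x then
        FF ρ w u {x} else 0) ≤ (j0 * (h + 2) ^ d) * (u x * FF ρ w u {x}) := by
    intro x hx
    rw [Finset.mem_inter] at hx
    rw [← Finset.sum_filter, Finset.sum_const, nsmul_eq_mul]
    have h4 := card_labels hsymm L0 A hA h h0 d g1 hL j0 hj x hx.1
    have h5 : FF ρ w u {x} ≤ u x * FF ρ w u {x} := le_mul_of_one_le_left (hnn _) (hu1 x hx.2)
    calc _ ≤ (j0 * (h + 2) ^ d) * FF ρ w u {x} := mul_le_mul_of_nonneg_right h4 (hnn _)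
      _ ≤ _ := mul_le_mul_of_nonneg_left h5 (by positivity)
  refine (Finset.sum_le_sum h3).trans ?_
  rw [← Finset.mul_sum]
  have h6 := ff_sum_one (ρ := ρ) (w := w) hw h4 u hu0 (L0 ∩ A)
  have h7 : 0 ≤ j0 * (h + 2) ^ d := by positivity
  calc _ ≤ (j0 * (h + 2) ^ d) * (4 * FF ρ w u ∅) := mul_le_mul_of_nonneg_left h6 h7
    _ = _ := by ring

end Pool.Agent.Lib.H93E
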