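import Pool.Agent.Lib.H93E.A8
import Pool.Agent.Lib.H93E.A11
import Pool.Agent.Lib.H93E.A13
import Pool.Agent.Lib.H93E.A14

/-!
# H93E, chunk A19: one coordinate

* `coord_inl`: let `S = ∑_(x ∈ Cl) (FF {x} + FF {x, y})`. By `change_inl` every term has
  `(Z ω - Z ω_a)^2 ≤ S^2`, and it is `0` if `y ∉ act ω` and not `one i a` (`change_zero`). The sum of the weights is
  `1`, resp. at most `Cw/N` (`rate_one`). `S ≤ |Cl| * 2 h Q1 ≤ (h+2)^d * 2 h Q1` (`card_Cl`, `g3`: if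
  `x ∈ Cl` then `x ∈ L0 ⊆ ball 0`, `y ∈ ball d` by `ball_reach` in `insert y (act ω) ⊆ H`; `FF {x} = FF {x, x}`), so
  `S^2 ≤ (2 h Q1 (h+2)^d) S` (`S ≥ 0`).
* `coord_inr`: the same with `change_inr`, `card_ClL` and `FF {x} = FF {x, x} ≤ h Q1`.
* `coord_out`: `change_zero` (an element outside `H` is never active).
-/

set_option autoImplicit false

open Finset
open scoped Classical

namespace Pool.Agent.Lib.H93E

open Pool.Agent.Lib.Prob48 Pool.Agent.Lib.H93D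

variable {X M T ι : Type} [Fintype T] [Fintype M] [Fintype ι] [DecidableEq ι] {α : ι → Type} [∀ i, Fintype (α i)]
  {s : LS X M ι α} {μ : Weights α} {N K Cw : ℝ} {j0 nc d : ℕ}
  {ρ : T → Finset X} {w : T → ℝ} {L0 : Finset X} {Z : (∀ i, α i) → ℝ}
  {h Q0 Q1 : ℝ}

theorem a19_sq {S z c B : ℝ} (hS : 0 ≤ S) (hz : |z| ≤ S) (hB : S ≤ B) (hc : 0 ≤ c) :
    c * z ^ 2 ≤ c * (B * S) := by
  refine mul_le_mul_of_nonneg_left ?_ hc
  rw [← sq_abs]
  calc |z| ^ 2 ≤ S ^ 2 := pow_le_pow_left₀ (abs_nonneg z) hz 2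
    _ = S * S := sq S
    _ ≤ B * S := mul_le_mul_of_nonneg_right hB hS

theorem a19_cn (hs : LSHyp s μ N K Cw j0 nc d) : 0 ≤ Cw / N := div_nonneg hs.Cw_nonneg hs.N_pos.le

theorem a19_pl (hs : LSHyp s μ N K Cw j0 nc d) (A : Finset X) (x : X) :
    0 ≤ plus (fun _ => Cw / N) A x := by
  unfold plus
  have := a19_cn hs
  split_ifs <;> linarith

theorem coord_inl (hs : LSHyp s μ N K Cw j0 nc d) (hw : ∀ t, 0 ≤ w t)
    (hρ : ∀ t, ρ t ⊆ L0) (hL : L0 ⊆ s.H) (hZ : s.Dom ρ w Z) (h0 : 0 ≤ h) (hQ0 : 0 ≤ Q0)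
    (hQ1 : 0 ≤ Q1) (ω : ∀ i, α i)
    (hG : s.Good ρ w L0 d (Cw / N) h Q0 Q1 ω) (i : ι) (y : X) (hi : s.loc i = Sum.inl y)
    (hy : y ∈ s.H) :
    ∑ a, μ.w i a * (Z ω - Z (Function.update ω i a)) ^ 2 ≤
      (if y ∈ s.act ω then 1 else Cw / N) * (2 * h * Q1 * (h + 2) ^ d) *
        ∑ x ∈ s.Cl L0 (s.act ω) d y, (FF ρ w (plus (fun _ => Cw / N) (s.act ω)) {x}
          + FF ρ w (plus (fun _ => Cw / N) (s.act ω)) {x, y}) := by
  have hA : s.act ω ⊆ s.H := act_sub_H ω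
  have hA' : insert y (s.act ω) ⊆ s.H := Finset.insert_subset hy hA
  set S : ℝ := ∑ x ∈ s.Cl L0 (s.act ω) d y, (FF ρ w (plus (fun _ => Cw / N) (s.act ω)) {x}
          + FF ρ w (plus (fun _ => Cw / N) (s.act ω)) {x, y}) with hSdef
  have hnn : ∀ B, 0 ≤ FF ρ w (plus (fun _ => Cw / N) (s.act ω)) B := fun B =>
    ff_nonneg ρ w hw _ (a19_pl hs _) B
  have hS0 : 0 ≤ S := Finset.sum_nonneg fun x _ => add_nonneg (hnn _) (hnn _)
  have hSB : S ≤ 2 * h * Q1 * (h + 2) ^ d := by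
    have h1 : ∀ x ∈ s.Cl L0 (s.act ω) d y, (FF ρ w (plus (fun _ => Cw / N) (s.act ω)) {x}
          + FF ρ w (plus (fun _ => Cw / N) (s.act ω)) {x, y}) ≤ 2 * h * Q1 := by
      intro x hx
      unfold LS.Cl at hx
      rw [Finset.mem_filter] at hx
      have hx0 : x ∈ s.ball L0 0 := ball_zero hL hx.1
      have hx1 : x ∈ s.ball L0 (d + 1) := ball_mono (Nat.zero_le _) hx0
      have hy1 : y ∈ s.ball L0 (d + 1) :=
        ball_mono (by omega) (ball_reach hs.adj_symm hA' hx0 hx.2)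
      have h2 := hG.g3 x hx.1 y hy1
      have h3 := hG.g3 x hx.1 x hx1
      rw [Finset.pair_eq_singleton] at h3
      linarith
    have h2 := Finset.sum_le_card_nsmul _ _ _ h1
    rw [nsmul_eq_mul] at h2
    have h3 : ((s.Cl L0 (s.act ω) d y).card : ℝ) ≤ (h + 2) ^ d :=
      card_Cl hs.adj_symm L0 (s.act ω) hA h h0 d hG.g1 hL y hy
    calc S ≤ ((s.Cl L0 (s.act ω) d y).card : ℝ) * (2 * h * Q1) := h2
      _ ≤ (h + 2) ^ d * (2 * h * Q1) := mul_le_mul_of_nonneg_right h3 (by positivity)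
      _ = 2 * h * Q1 * (h + 2) ^ d := by ring
  have hch : ∀ a, |Z ω - Z (Function.update ω i a)| ≤ S := fun a =>
    change_inl hs hw hρ hZ (Cw / N) (a19_cn hs) i y hi ω a
  by_cases hyA : y ∈ s.act ω
  · rw [if_pos hyA, one_mul]
    calc ∑ a, μ.w i a * (Z ω - Z (Function.update ω i a)) ^ 2
        ≤ ∑ a, μ.w i a * (2 * h * Q1 * (h + 2) ^ d * S) :=
          Finset.sum_le_sum fun a _ => a19_sq hS0 (hch a) hSB (μ.nonneg i a)
      _ = 2 * h * Q1 * (h + 2) ^ d * S := by rw [← Finset.sum_mul, μ.sum_one, one_mul]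
  · rw [if_neg hyA]
    calc ∑ a, μ.w i a * (Z ω - Z (Function.update ω i a)) ^ 2
        ≤ ∑ a, (if s.one i a then μ.w i a else 0) * (2 * h * Q1 * (h + 2) ^ d * S) := by
          refine Finset.sum_le_sum fun a _ => ?_
          by_cases ha : s.one i a
          · rw [if_pos ha]
            exact a19_sq hS0 (hch a) hSB (μ.nonneg i a)
          · rw [if_neg ha, zero_mul, change_zero hs hZ i y hi ω a hyA (Or.inl ha)]
            simp
      _ = (∑ a, if s.one i a then μ.w i a else 0) * (2 * h * Q1 * (h + 2) ^ d * S) := by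
          rw [Finset.sum_mul]
      _ ≤ Cw / N * (2 * h * Q1 * (h + 2) ^ d * S) :=
          mul_le_mul_of_nonneg_right (rate_one hs i y hi hy) (by positivity)
      _ = Cw / N * (2 * h * Q1 * (h + 2) ^ d) * S := by ring

theorem coord_out (hs : LSHyp s μ N K Cw j0 nc d) (hZ : s.Dom ρ w Z) (ω : ∀ i, α i) (i : ι) (y : X)
    (hi : s.loc i = Sum.inl y) (hy : y ∉ s.H) :
    ∑ a, μ.w i a * (Z ω - Z (Function.update ω i a)) ^ 2 = 0 := by
  have hyA : y ∉ s.act ω := fun h => hy (act_sub_H ω h)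
  refine Finset.sum_eq_zero fun a _ => ?_
  rw [change_zero hs hZ i y hi ω a hyA (Or.inr hy)]
  simp

theorem coord_inr (hs : LSHyp s μ N K Cw j0 nc d) (hw : ∀ t, 0 ≤ w t)
    (hρ : ∀ t, ρ t ⊆ L0) (hL : L0 ⊆ s.H) (hZ : s.Dom ρ w Z) (h0 : 0 ≤ h) (hQ0 : 0 ≤ Q0)
    (hQ1 : 0 ≤ Q1) (ω : ∀ i, α i)
    (hG : s.Good ρ w L0 d (Cw / N) h Q0 Q1 ω) (i : ι) (f : M) (hi : s.loc i = Sum.inr f) :
    ∑ a, μ.w i a * (Z ω - Z (Function.update ω i a)) ^ 2 ≤
      (h * Q1 * (h + 2) ^ (d + 1)) *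
        ∑ x ∈ s.ClL L0 (s.act ω) d f, FF ρ w (plus (fun _ => Cw / N) (s.act ω)) {x} := by
  have hA : s.act ω ⊆ s.H := act_sub_H ω
  set S : ℝ := ∑ x ∈ s.ClL L0 (s.act ω) d f, FF ρ w (plus (fun _ => Cw / N) (s.act ω)) {x}
    with hSdef
  have hnn : ∀ B, 0 ≤ FF ρ w (plus (fun _ => Cw / N) (s.act ω)) B := fun B =>
    ff_nonneg ρ w hw _ (a19_pl hs _) B
  have hS0 : 0 ≤ S := Finset.sum_nonneg fun x _ => hnn _
  have hSB : S ≤ h * Q1 * (h + 2) ^ (d + 1) := by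
    have h1 : ∀ x ∈ s.ClL L0 (s.act ω) d f,
        FF ρ w (plus (fun _ => Cw / N) (s.act ω)) {x} ≤ h * Q1 := by
      intro x hx
      unfold LS.ClL at hx
      rw [Finset.mem_filter] at hx
      have hx1 : x ∈ s.ball L0 (d + 1) := ball_mono (Nat.zero_le _) (ball_zero hL hx.1)
      have h3 := hG.g3 x hx.1 x hx1
      rwa [Finset.pair_eq_singleton] at h3
    have h2 := Finset.sum_le_card_nsmul _ _ _ h1
    rw [nsmul_eq_mul] at h2
    have h3 : ((s.ClL L0 (s.act ω) d f).card : ℝ) ≤ (h + 2) ^ (d + 1) :=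
      card_ClL hs.adj_symm L0 (s.act ω) hA h h0 d hG.g1 hL hs.adj_J f
    calc S ≤ ((s.ClL L0 (s.act ω) d f).card : ℝ) * (h * Q1) := h2
      _ ≤ (h + 2) ^ (d + 1) * (h * Q1) := mul_le_mul_of_nonneg_right h3 (by positivity)
      _ = h * Q1 * (h + 2) ^ (d + 1) := by ring
  have hch : ∀ a, |Z ω - Z (Function.update ω i a)| ≤ S := fun a =>
    change_inr hs hw hρ hZ (Cw / N) (a19_cn hs) i f hi ω a
  calc ∑ a, μ.w i a * (Z ω - Z (Function.update ω i a)) ^ 2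
      ≤ ∑ a, μ.w i a * (h * Q1 * (h + 2) ^ (d + 1) * S) :=
        Finset.sum_le_sum fun a _ => a19_sq hS0 (hch a) hSB (μ.nonneg i a)
    _ = h * Q1 * (h + 2) ^ (d + 1) * S := by rw [← Finset.sum_mul, μ.sum_one, one_mul]

end Pool.Agent.Lib.H93E
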