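import Pool.Agent.Lib.H93E.Defs

/-!
# H93E, chunk A1A: resampling one coordinate

* `es_sym`: `μ.E f = ∑ ω, μ.pw ω * f ω`. Both sides are sums over the pairs `(ω, a)` of
  `pw ω * w i a * g ..`; the map `(ω, a) ↦ (update ω i a, ω i)` is an involution of the pairs and
  `pw ω * w i a = pw (update ω i a) * w i (ω i)` (`Weights.pw_update`), and
  `update (update ω i a) i (ω i) = ω`. (`Finset.sum_sigma'` or `Fintype.sum_prod_type'`, `Finset.sum_nbij'`.)
* `es_one`: expand the squares. `E [∑_a w_a (F ω - F ω_a)^2] = E F^2 - 2 E [F * avg F] + E [avg (F^2)]`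
  and `E [avg (F^2)] = E F^2` (`Weights.E_avg`). `E [(F - avg F)^2] = E F^2 - 2 E [F avg F] + E [(avg F)^2]`
  and `E [(avg F)^2] = E [avg (F * avg F)] = E [F * avg F]` by `Weights.avg_mul_of_dependsOn`
  (`avg i F` does not depend on the coordinate `i`: `Weights.avg_dependsOn` or directly
  `Function.update_idem`).
-/

set_option autoImplicit false

open Finset
open scoped Classical

namespace Pool.Agent.Lib.H93E

open Pool.Agent.Lib.Prob48 Pool.Agent.Lib.H93D

variable {ι : Type} [Fintype ι] [DecidableEq ι] {α : ι → Type} [∀ i, Fintype (α i)]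

theorem es_sym (μ : Weights α) (i : ι) (g : (∀ i, α i) → (∀ i, α i) → ℝ) :
    μ.E (fun ω => ∑ a, μ.w i a * g ω (Function.update ω i a)) =
      μ.E (fun ω => ∑ a, μ.w i a * g (Function.update ω i a) ω) := by
  have hinv : Function.Involutive
      (fun p : (∀ v, α v) × α i => (Function.update p.1 i p.2, p.1 i)) := by
    rintro ⟨ω, a⟩
    simp
  unfold Weights.E
  simp_rw [mul_sum]
  symm
  calc ∑ ω, ∑ a, μ.pw ω * (μ.w i a * g (Function.update ω i a) ω)
      = ∑ p : (∀ v, α v) × α i, μ.pw (Function.update p.1 i p.2) * μ.w i (p.1 i)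
          * g (Function.update p.1 i p.2)
            (Function.update (Function.update p.1 i p.2) i (p.1 i)) := by
        rw [← univ_product_univ, sum_product]
        refine sum_congr rfl fun ω _ => sum_congr rfl fun a _ => ?_
        rw [← μ.pw_update i ω a]
        simp only [Function.update_idem, Function.update_eq_self]
        ring
    _ = ∑ p : (∀ v, α v) × α i, μ.pw p.1 * μ.w i p.2 * g p.1 (Function.update p.1 i p.2) :=
        Equiv.sum_comp hinv.toPerm (fun p : (∀ v, α v) × α i =>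
          μ.pw p.1 * μ.w i p.2 * g p.1 (Function.update p.1 i p.2))
    _ = ∑ ω, ∑ a, μ.pw ω * (μ.w i a * g ω (Function.update ω i a)) := by
        rw [← univ_product_univ, sum_product]
        refine sum_congr rfl fun ω _ => sum_congr rfl fun a _ => ?_
        ring

theorem es_one (μ : Weights α) (i : ι) (F : (∀ i, α i) → ℝ) :
    μ.E (fun ω => (F ω - μ.avg i F ω) ^ 2) =
      (1 / 2) * μ.E (fun ω => ∑ a, μ.w i a * (F ω - F (Function.update ω i a)) ^ 2) := by
  have hA : ∀ ω a, μ.avg i F (Function.update ω i a) = μ.avg i F ω := by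
    intro ω a
    unfold Weights.avg
    simp only [Function.update_idem]
  have h1 : μ.E (fun ω => F ω * μ.avg i F ω) = μ.E (fun ω => μ.avg i F ω ^ 2) := by
    rw [← μ.E_avg i (fun ω => F ω * μ.avg i F ω)]
    congr 1
    funext ω
    have : μ.avg i (fun ω => F ω * μ.avg i F ω) ω = μ.avg i F ω * μ.avg i F ω := by
      calc μ.avg i (fun ω => F ω * μ.avg i F ω) ω
          = ∑ a, μ.w i a * (F (Function.update ω i a) * μ.avg i F (Function.update ω i a)) := rfl
        _ = ∑ a, (μ.w i a * F (Function.update ω i a)) * μ.avg i F ω :=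
            sum_congr rfl fun a _ => by rw [hA ω a]; ring
        _ = μ.avg i F ω * μ.avg i F ω := by rw [← sum_mul]; rfl
    rw [this, sq]
  have h2 : ∀ ω, ∑ a, μ.w i a * (F ω - F (Function.update ω i a)) ^ 2 =
      F ω ^ 2 - 2 * (F ω * μ.avg i F ω) + μ.avg i (fun ω => F ω ^ 2) ω := by
    intro ω
    have e1 : F ω ^ 2 = ∑ a, μ.w i a * F ω ^ 2 := by rw [← sum_mul, μ.sum_one, one_mul]
    have e2 : F ω * μ.avg i F ω = ∑ a, μ.w i a * (F ω * F (Function.update ω i a)) := by
      unfold Weights.avg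
      rw [mul_sum]
      exact sum_congr rfl fun a _ => by ring
    rw [e2]
    conv_rhs => rw [e1]
    unfold Weights.avg
    rw [mul_sum, ← sum_sub_distrib, ← sum_add_distrib]
    exact sum_congr rfl fun a _ => by ring
  have h3 : μ.E (fun ω => ∑ a, μ.w i a * (F ω - F (Function.update ω i a)) ^ 2) =
      2 * μ.E (fun ω => F ω ^ 2) - 2 * μ.E (fun ω => F ω * μ.avg i F ω) := by
    have e1 : (fun ω => ∑ a, μ.w i a * (F ω - F (Function.update ω i a)) ^ 2) =
        fun ω => (F ω ^ 2 - 2 * (F ω * μ.avg i F ω)) + μ.avg i (fun ω => F ω ^ 2) ω := funext h2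
    rw [e1, μ.E_add, μ.E_sub, μ.E_mul_left]
    have e2 := μ.E_avg i (fun ω => F ω ^ 2)
    have e3 : μ.E (fun ω => μ.avg i (fun ω => F ω ^ 2) ω) = μ.E (fun ω => F ω ^ 2) := e2
    rw [e3]
    ring
  have h4 : μ.E (fun ω => (F ω - μ.avg i F ω) ^ 2) =
      μ.E (fun ω => F ω ^ 2) - 2 * μ.E (fun ω => F ω * μ.avg i F ω) +
        μ.E (fun ω => μ.avg i F ω ^ 2) := by
    have e1 : (fun ω => (F ω - μ.avg i F ω) ^ 2) =
        fun ω => (F ω ^ 2 - 2 * (F ω * μ.avg i F ω)) + μ.avg i F ω ^ 2 := by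
      funext ω
      ring
    rw [e1, μ.E_add, μ.E_sub, μ.E_mul_left]
  rw [h3, h4, h1]
  ring

end Pool.Agent.Lib.H93E
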