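import Pool.Agent.Lib.H93E.A1A

/-!
# H93E, chunk A1B: the Efron-Stein inequality

By induction on the finite set `A` of coordinates: there is `G` with `DependsOn G (Aᶜ : Set ι)`,
`μ.E G = μ.E F` and `μ.E (fun ω => (F ω - G ω)^2) ≤ ∑ i ∈ A, μ.E (fun ω => (F ω - μ.avg i F ω)^2)`.
`A = ∅`: `G = F`. Step `insert j A`: `G' = μ.avg j G`. Write
`F - G' = (F - avg j F) + avg j (F - G)`; the two summands are orthogonal
(`E [(F - avg j F) * avg j H] = 0`, by `E_avg` and `avg_mul_of_dependsOn`), and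
`E (avg j H)^2 ≤ E H^2` (Jensen / Cauchy-Schwarz for the weights `μ.w j`, `E_avg`). `G'` does not depend on
`j` and on `A`. For `A = univ` the function `G` is constant, equal to its mean. Conclude with `es_one`
and `E_sum`.
-/

set_option autoImplicit false

open Finset
open scoped Classical

namespace Pool.Agent.Lib.H93E

open Pool.Agent.Lib.Prob48 Pool.Agent.Lib.H93D

variable {ι : Type} [Fintype ι] [DecidableEq ι] {α : ι → Type} [∀ i, Fintype (α i)]

theorem a1b_jensen (μ : Weights α) (j : ι) (H : (∀ i, α i) → ℝ) (ω : ∀ i, α i) :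
    μ.avg j H ω ^ 2 ≤ μ.avg j (fun ω => H ω ^ 2) ω := by
  set m := μ.avg j H ω with hm
  have h0 : 0 ≤ ∑ a, μ.w j a * (H (Function.update ω j a) - m) ^ 2 :=
    sum_nonneg fun a _ => mul_nonneg (μ.nonneg j a) (sq_nonneg _)
  have h1 : ∑ a, μ.w j a * (H (Function.update ω j a) - m) ^ 2 =
      μ.avg j (fun ω => H ω ^ 2) ω - 2 * m * m + m ^ 2 := by
    have e1 : m ^ 2 = ∑ a, μ.w j a * m ^ 2 := by rw [← sum_mul, μ.sum_one, one_mul]
    have e2 : 2 * m * m = ∑ a, μ.w j a * (2 * m * H (Function.update ω j a)) := by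
      calc 2 * m * m = 2 * m * ∑ a, μ.w j a * H (Function.update ω j a) := rfl
        _ = ∑ a, μ.w j a * (2 * m * H (Function.update ω j a)) := by
          rw [mul_sum]
          exact sum_congr rfl fun a _ => by ring
    rw [e2]
    conv_rhs => rw [e1]
    unfold Weights.avg
    rw [← sum_sub_distrib, ← sum_add_distrib]
    exact sum_congr rfl fun a _ => by ring
  rw [h1] at h0
  nlinarith [h0]

theorem a1b_sub (μ : Weights α) (j : ι) (F G : (∀ i, α i) → ℝ) (ω : ∀ i, α i) :
    μ.avg j (fun ω => F ω - G ω) ω = μ.avg j F ω - μ.avg j G ω := by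
  unfold Weights.avg
  rw [← sum_sub_distrib]
  exact sum_congr rfl fun a _ => by ring

theorem a1b_avg_avg (μ : Weights α) (j : ι) (F : (∀ i, α i) → ℝ) (ω : ∀ i, α i) :
    μ.avg j (μ.avg j F) ω = μ.avg j F ω := by
  have h : ∀ a, μ.avg j F (Function.update ω j a) = μ.avg j F ω := by
    intro a
    unfold Weights.avg
    simp only [Function.update_idem]
  calc μ.avg j (μ.avg j F) ω = ∑ a, μ.w j a * μ.avg j F (Function.update ω j a) := rfl
    _ = ∑ a, μ.w j a * μ.avg j F ω := sum_congr rfl fun a _ => by rw [h a]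
    _ = μ.avg j F ω := by rw [← sum_mul, μ.sum_one, one_mul]

theorem a1b_orth (μ : Weights α) (j : ι) (F H : (∀ i, α i) → ℝ) :
    μ.E (fun ω => (F ω - μ.avg j F ω) * μ.avg j H ω) = 0 := by
  have hdep : DependsOn (μ.avg j H) ({j}ᶜ : Set ι) := by
    refine μ.avg_dependsOn ?_
    intro x y hxy
    have : x = y := by
      funext i
      refine hxy i ?_
      by_cases hi : i = j
      · exact Set.mem_insert_iff.2 (Or.inl hi)
      · exact Set.mem_insert_iff.2 (Or.inr (by simpa using hi))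
    rw [this]
  rw [← μ.E_avg j (fun ω => (F ω - μ.avg j F ω) * μ.avg j H ω)]
  have h1 : (μ.avg j fun ω => (F ω - μ.avg j F ω) * μ.avg j H ω) = fun _ => 0 := by
    funext ω
    rw [μ.avg_mul_of_dependsOn j hdep (by simp), a1b_sub, a1b_avg_avg, sub_self, zero_mul]
  rw [h1, μ.E_const]

theorem a1b_main (μ : Weights α) (F : (∀ i, α i) → ℝ) (A : Finset ι) :
    ∃ G : (∀ i, α i) → ℝ, DependsOn G ((A : Set ι)ᶜ) ∧ μ.E G = μ.E F ∧
      μ.E (fun ω => (F ω - G ω) ^ 2) ≤ ∑ i ∈ A, μ.E (fun ω => (F ω - μ.avg i F ω) ^ 2) := by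
  induction A using Finset.induction_on with
  | empty =>
    refine ⟨F, ?_, rfl, ?_⟩
    · intro x y hxy
      have : x = y := by
        funext i
        exact hxy i (by simp)
      rw [this]
    · simp only [sub_self, sum_empty]
      have := μ.E_const 0
      simp only [ne_eq, OfNat.ofNat_ne_zero, not_false_eq_true, zero_pow]
      rw [this]
  | insert j A hj ih =>
    obtain ⟨G, h1, h2, h3⟩ := ih
    refine ⟨μ.avg j G, ?_, ?_, ?_⟩
    · refine μ.avg_dependsOn ?_
      intro x y hxy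
      refine h1 fun i hi => hxy i ?_
      rw [Set.mem_insert_iff]
      by_cases hij : i = j
      · exact Or.inl hij
      · refine Or.inr ?_
        simp only [coe_insert, Set.mem_compl_iff, Set.mem_insert_iff, not_or]
        exact ⟨hij, hi⟩
    · rw [μ.E_avg, h2]
    · rw [sum_insert hj]
      have e1 : (fun ω => (F ω - μ.avg j G ω) ^ 2) = fun ω =>
          ((F ω - μ.avg j F ω) ^ 2 + (μ.avg j (fun ω => F ω - G ω) ω) ^ 2) +
            2 * ((F ω - μ.avg j F ω) * μ.avg j (fun ω => F ω - G ω) ω) := by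
        funext ω
        rw [a1b_sub]
        ring
      have e2 : μ.E (fun ω => (μ.avg j (fun ω => F ω - G ω) ω) ^ 2) ≤
          μ.E (fun ω => (F ω - G ω) ^ 2) := by
        have e3 := μ.E_mono (fun ω => a1b_jensen μ j (fun ω => F ω - G ω) ω)
        have e4 := μ.E_avg j (fun ω => (F ω - G ω) ^ 2)
        have e5 : μ.E (fun ω => μ.avg j (fun ω => (F ω - G ω) ^ 2) ω) =
          μ.E (fun ω => (F ω - G ω) ^ 2) := e4
        rw [← e5]
        exact e3
      rw [e1, μ.E_add, μ.E_add, μ.E_mul_left, a1b_orth]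
      linarith

/-- the Efron-Stein inequality -/
theorem es (μ : Weights α) (F : (∀ i, α i) → ℝ) :
    μ.E (fun ω => (F ω - μ.E F) ^ 2) ≤ (1 / 2) * μ.E (VV μ F) := by
  obtain ⟨G, h1, h2, h3⟩ := a1b_main μ F univ
  have hG : ∀ ω, G ω = μ.E F := by
    intro ω
    have h4 : G = fun _ => G ω := by
      funext ω'
      exact h1 fun i hi => by simp at hi
    rw [← h2]
    conv_rhs => rw [h4]
    rw [μ.E_const]
  simp only [hG] at h3
  refine h3.trans ?_
  have h5 : μ.E (VV μ F) =
      ∑ i, μ.E (fun ω => ∑ a, μ.w i a * (F ω - F (Function.update ω i a)) ^ 2) := by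
    rw [← μ.E_sum]
    rfl
  rw [h5, mul_sum]
  exact sum_le_sum fun i _ => (es_one μ i F).le

end Pool.Agent.Lib.H93E
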