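import Pool.Agent.Lib.H93E.A1B

/-!
# H93E, chunk A2: the variation of a power

Pointwise, for real `x, y` and `q ≥ 1`: `(x^q - y^q)^2 ≤ q^2 (x-y)^2 (x^(2q-2) + y^(2q-2))`
(`|x^q - y^q| ≤ q |x-y| max(|x|,|y|)^(q-1)`: `x^q - y^q = (x-y) ∑ x^i y^(q-1-i)`,
`Commute.mul_geom_sum₂` / `mul_geom_sum₂`). Sum over `i, a` with the weights; the part with `y^(2q-2)`
(`y = W (update ω i a)`) has the same expectation as the part with `x^(2q-2)` by `es_sym` applied to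
`g ω ω' = (W ω - W ω')^2 * W ω' ^ (2q-2)`. Use `E_sum` to interchange `E` and the sum over `i`.
-/

set_option autoImplicit false

open Finset
open scoped Classical

namespace Pool.Agent.Lib.H93E

open Pool.Agent.Lib.Prob48 Pool.Agent.Lib.H93D

variable {ι : Type} [Fintype ι] [DecidableEq ι] {α : ι → Type} [∀ i, Fintype (α i)]

theorem a2_pow (x y : ℝ) (q : ℕ) (hq : 1 ≤ q) :
    (x ^ q - y ^ q) ^ 2 ≤ (q : ℝ) ^ 2 * ((x - y) ^ 2 * x ^ (2 * q - 2) + (x - y) ^ 2 * y ^ (2 * q - 2)) := by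
  have h1 : x ^ q - y ^ q = (x - y) * ∑ i ∈ range q, x ^ i * y ^ (q - 1 - i) :=
    ((Commute.all x y).mul_geom_sum₂ q).symm
  have h2 : (∑ i ∈ range q, x ^ i * y ^ (q - 1 - i)) ^ 2 ≤
      (q : ℝ) ^ 2 * (x ^ (2 * q - 2) + y ^ (2 * q - 2)) := by
    have e1 := sq_sum_le_card_mul_sum_sq (s := range q) (f := fun i => x ^ i * y ^ (q - 1 - i))
    rw [card_range] at e1
    refine e1.trans ?_
    have e2 : ∀ i ∈ range q, (x ^ i * y ^ (q - 1 - i)) ^ 2 ≤ x ^ (2 * q - 2) + y ^ (2 * q - 2) := by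
      intro i hi
      rw [mem_range] at hi
      have e3 : (x ^ i * y ^ (q - 1 - i)) ^ 2 = (x ^ 2) ^ i * (y ^ 2) ^ (q - 1 - i) := by
        rw [mul_pow, ← pow_mul, ← pow_mul, ← pow_mul, ← pow_mul, mul_comm i 2,
          mul_comm (q - 1 - i) 2]
      have e4 : x ^ (2 * q - 2) = (x ^ 2) ^ (q - 1) := by
        rw [← pow_mul]
        congr 1
        omega
      have e5 : y ^ (2 * q - 2) = (y ^ 2) ^ (q - 1) := by
        rw [← pow_mul]
        congr 1
        omega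
      have e6 : q - 1 = i + (q - 1 - i) := by omega
      have hx := sq_nonneg x
      have hy := sq_nonneg y
      rw [e3, e4, e5]
      rcases le_total (x ^ 2) (y ^ 2) with h | h
      · have e7 : (x ^ 2) ^ i * (y ^ 2) ^ (q - 1 - i) ≤ (y ^ 2) ^ i * (y ^ 2) ^ (q - 1 - i) :=
          mul_le_mul_of_nonneg_right (pow_le_pow_left₀ hx h i) (pow_nonneg hy _)
        rw [← pow_add, ← e6] at e7
        have e8 := pow_nonneg hx (q - 1)
        linarith
      · have e7 : (x ^ 2) ^ i * (y ^ 2) ^ (q - 1 - i) ≤ (x ^ 2) ^ i * (x ^ 2) ^ (q - 1 - i) :=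
          mul_le_mul_of_nonneg_left (pow_le_pow_left₀ hy h _) (pow_nonneg hx _)
        rw [← pow_add, ← e6] at e7
        have e8 := pow_nonneg hy (q - 1)
        linarith
    have e3 := sum_le_sum e2
    rw [sum_const, card_range, nsmul_eq_mul] at e3
    have e4 : (0 : ℝ) ≤ q := Nat.cast_nonneg q
    calc (q : ℝ) * ∑ i ∈ range q, (x ^ i * y ^ (q - 1 - i)) ^ 2
        ≤ q * (q * (x ^ (2 * q - 2) + y ^ (2 * q - 2))) := mul_le_mul_of_nonneg_left e3 e4
      _ = (q : ℝ) ^ 2 * (x ^ (2 * q - 2) + y ^ (2 * q - 2)) := by ring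
  rw [h1, mul_pow]
  calc (x - y) ^ 2 * (∑ i ∈ range q, x ^ i * y ^ (q - 1 - i)) ^ 2
      ≤ (x - y) ^ 2 * ((q : ℝ) ^ 2 * (x ^ (2 * q - 2) + y ^ (2 * q - 2))) :=
        mul_le_mul_of_nonneg_left h2 (sq_nonneg _)
    _ = _ := by ring

theorem vv_nonneg (μ : Weights α) (F : (∀ i, α i) → ℝ) (ω : ∀ i, α i) : 0 ≤ VV μ F ω := by
  unfold VV
  exact sum_nonneg fun i _ => sum_nonneg fun a _ => mul_nonneg (μ.nonneg i a) (sq_nonneg _)

theorem vv_pow_le (μ : Weights α) (W : (∀ i, α i) → ℝ) (q : ℕ) (hq : 1 ≤ q) :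
    μ.E (VV μ (fun ω => W ω ^ q)) ≤ 2 * (q : ℝ) ^ 2 * μ.E (fun ω => W ω ^ (2 * q - 2) * VV μ W ω) := by
  have h1 : μ.E (VV μ (fun ω => W ω ^ q)) =
      ∑ i, μ.E (fun ω => ∑ a, μ.w i a * (W ω ^ q - W (Function.update ω i a) ^ q) ^ 2) := by
    rw [← μ.E_sum]
    rfl
  have h2 : μ.E (fun ω => W ω ^ (2 * q - 2) * VV μ W ω) =
      ∑ i, μ.E (fun ω => ∑ a, μ.w i a * ((W ω - W (Function.update ω i a)) ^ 2 * W ω ^ (2 * q - 2))) := by
    rw [← μ.E_sum]
    congr 1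
    funext ω
    unfold VV
    rw [mul_sum]
    refine sum_congr rfl fun i _ => ?_
    rw [mul_sum]
    exact sum_congr rfl fun a _ => by ring
  rw [h1, h2, mul_sum]
  refine sum_le_sum fun i _ => ?_
  have h3 := es_sym μ i (fun ω ω' => (W ω - W ω') ^ 2 * W ω' ^ (2 * q - 2))
  have h4 : μ.E (fun ω => ∑ a, μ.w i a * ((W (Function.update ω i a) - W ω) ^ 2 * W ω ^ (2 * q - 2))) =
      μ.E (fun ω => ∑ a, μ.w i a * ((W ω - W (Function.update ω i a)) ^ 2 * W ω ^ (2 * q - 2))) := by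
    congr 1
    funext ω
    exact sum_congr rfl fun a _ => by ring
  have h5 : μ.E (fun ω => ∑ a, μ.w i a * (W ω ^ q - W (Function.update ω i a) ^ q) ^ 2) ≤
      μ.E (fun ω => (q : ℝ) ^ 2 *
        ((∑ a, μ.w i a * ((W ω - W (Function.update ω i a)) ^ 2 * W ω ^ (2 * q - 2))) +
        ∑ a, μ.w i a * ((W ω - W (Function.update ω i a)) ^ 2 *
          W (Function.update ω i a) ^ (2 * q - 2)))) := by
    refine μ.E_mono fun ω => ?_
    rw [← sum_add_distrib, mul_sum]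
    refine sum_le_sum fun a _ => ?_
    have := mul_le_mul_of_nonneg_left (a2_pow (W ω) (W (Function.update ω i a)) q hq) (μ.nonneg i a)
    refine this.trans (le_of_eq ?_)
    ring
  rw [μ.E_mul_left, μ.E_add, h3, h4] at h5
  refine h5.trans (le_of_eq ?_)
  ring

end Pool.Agent.Lib.H93E
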