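import Pool.Agent.Lib.H93E.A16
import Pool.Agent.Lib.H93E.A17
import Pool.Agent.Lib.H93E.A18
import Pool.Agent.Lib.H93E.A19

/-!
# H93E, chunk A20: the variation on the good event

Split the sum over `i` in `VV` according to `loc i`: `inl y` with `y ∈ H` (if `y ∉ H`: `coord_out`) or `inr f`; group by the location
(at most `nc` coordinates at each location, `loc_card`; the bounds of A19 depend only on the location and
are nonnegative). So `VV ≤ nc * (2 h Q1 (h+2)^d) * [∑_(y ∈ act ω) S_y + ∑_(y ∈ H \ act ω) (Cw/N) S_y] +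
nc * h Q1 (h+2)^(d+1) * ∑_f S_f ≤ nc * 2 h Q1 (h+2)^d (8 (h+2)^d + 24 + 4 Cw K (h+2)^d) F + nc h Q1
(h+2)^(d+1) 4 j0 (h+2)^d F` with `F = FF .. ∅` (A16, A17 with `KN = K * N`, A18), and
`F ≤ h (Q0 + Q1)` (`g2`). Everything is at most the right side because `h ≤ h+2`, `1 ≤ h+2`.
-/

set_option autoImplicit false

open Finset
open scoped Classical

namespace Pool.Agent.Lib.H93E

open Pool.Agent.Lib.Prob48 Pool.Agent.Lib.H93D

variable {X M T ι : Type} [Fintype T] [Fintype M] [Fintype ι] [DecidableEq ι] {α : ι → Type} [∀ i, Fintype (α i)]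
  {s : LS X M ι α} {μ : Weights α} {N K Cw : ℝ} {j0 nc d : ℕ}
  {ρ : T → Finset X} {w : T → ℝ} {L0 : Finset X} {Z : (∀ i, α i) → ℝ}
  {h Q0 Q1 : ℝ}

/-- grouping by the location -/
theorem a20_group (L : Finset (X ⊕ M)) (loc : ι → X ⊕ M) (nc : ℕ)
    (hnc : ∀ l, (Finset.univ.filter fun i => loc i = l).card ≤ nc) (c : ι → ℝ) (g : X ⊕ M → ℝ)
    (hg : ∀ l ∈ L, 0 ≤ g l) (hc : ∀ i, loc i ∈ L → c i ≤ g (loc i)) (hc0 : ∀ i, loc i ∉ L → c i = 0) :
    ∑ i, c i ≤ nc * ∑ l ∈ L, g l := by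
  have h1 : ∑ i, c i = ∑ i ∈ Finset.univ.filter (fun i => loc i ∈ L), c i := by
    symm
    refine Finset.sum_subset (Finset.filter_subset _ _) fun i _ hi => hc0 i fun h => hi ?_
    rw [Finset.mem_filter]
    exact ⟨Finset.mem_univ i, h⟩
  rw [h1]
  calc ∑ i ∈ Finset.univ.filter (fun i => loc i ∈ L), c i
      ≤ ∑ i ∈ Finset.univ.filter (fun i => loc i ∈ L), g (loc i) :=
        Finset.sum_le_sum fun i hi => hc i (Finset.mem_filter.1 hi).2
    _ = ∑ l ∈ L, ∑ i ∈ (Finset.univ.filter (fun i => loc i ∈ L)).filter (fun i => loc i = l),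
          g (loc i) := by
        rw [Finset.sum_fiberwise_of_maps_to]
        intro i hi
        exact (Finset.mem_filter.1 hi).2
    _ ≤ ∑ l ∈ L, nc * g l := by
        refine Finset.sum_le_sum fun l hl => ?_
        have h2 : ∑ i ∈ (Finset.univ.filter (fun i => loc i ∈ L)).filter (fun i => loc i = l),
            g (loc i) = ∑ _i ∈ (Finset.univ.filter (fun i => loc i ∈ L)).filter
              (fun i => loc i = l), g l :=
          Finset.sum_congr rfl fun i hi => by rw [(Finset.mem_filter.1 hi).2]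
        rw [h2, Finset.sum_const, nsmul_eq_mul]
        refine mul_le_mul_of_nonneg_right ?_ (hg l hl)
        have h3 := (Finset.card_le_card (Finset.filter_subset_filter (fun i => loc i = l)
          (Finset.filter_subset (fun i => loc i ∈ L) Finset.univ))).trans (hnc l)
        exact_mod_cast h3
    _ = nc * ∑ l ∈ L, g l := by rw [Finset.mul_sum]

theorem a20_num (F Q0 Q1 h x P J S1 S2 S3 : ℝ) (d nc : ℕ) (hF : 0 ≤ F) (hQ0 : 0 ≤ Q0)
    (hQ1 : 0 ≤ Q1) (h0 : 0 ≤ h) (hP : 0 ≤ P) (hJ : 0 ≤ J) (hx : x = h + 2)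
    (hFh : F ≤ h * (Q0 + Q1)) (h1 : S1 ≤ 8 * x ^ d * F) (h2 : S2 ≤ (24 + 4 * P * x ^ d) * F)
    (h3 : S3 ≤ 4 * (J * x ^ d) * F) :
    (nc : ℝ) * ((2 * h * Q1 * x ^ d) * S1 + (2 * h * Q1 * x ^ d) * S2 + (h * Q1 * x ^ (d + 1)) * S3)
      ≤ nc * (64 + 8 * P + 4 * J) * x ^ (2 * d + 4) * (Q1 * (Q0 + Q1)) := by
  have hx1 : 1 ≤ x := by rw [hx]; linarith
  have hx0 : 0 ≤ x := by linarith
  have hhx : h ≤ x := by rw [hx]; linarith
  have hxd : 1 ≤ x ^ d := one_le_pow₀ hx1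
  have hxd0 : 0 ≤ x ^ d := by positivity
  have e1 : (2 * h * Q1 * x ^ d) * S1 ≤ (2 * h * Q1 * x ^ d) * (8 * x ^ d * F) :=
    mul_le_mul_of_nonneg_left h1 (by positivity)
  have e2 : (2 * h * Q1 * x ^ d) * S2 ≤ (2 * h * Q1 * x ^ d) * ((24 + 4 * P * x ^ d) * F) :=
    mul_le_mul_of_nonneg_left h2 (by positivity)
  have e3 : (h * Q1 * x ^ (d + 1)) * S3 ≤ (h * Q1 * x ^ (d + 1)) * (4 * (J * x ^ d) * F) :=
    mul_le_mul_of_nonneg_left h3 (by positivity)
  have e4 : (2 * h * Q1 * x ^ d) * ((24 + 4 * P * x ^ d) * F) ≤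
      (2 * h * Q1 * x ^ d) * ((24 * x ^ d + 4 * P * x ^ d) * F) := by
    refine mul_le_mul_of_nonneg_left ?_ (by positivity)
    refine mul_le_mul_of_nonneg_right ?_ hF
    linarith
  have e5 : (2 * h * Q1 * x ^ d) * (8 * x ^ d * F) +
      (2 * h * Q1 * x ^ d) * ((24 * x ^ d + 4 * P * x ^ d) * F) +
      (h * Q1 * x ^ (d + 1)) * (4 * (J * x ^ d) * F)
      = (h * F * Q1) * (x ^ (2 * d) * (64 + 8 * P + 4 * J * x)) := by ring
  have e6 : h * F * Q1 ≤ x ^ 2 * (Q1 * (Q0 + Q1)) := by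
    calc h * F * Q1 ≤ h * (h * (Q0 + Q1)) * Q1 := by
          refine mul_le_mul_of_nonneg_right (mul_le_mul_of_nonneg_left hFh h0) hQ1
      _ = (h * h) * (Q1 * (Q0 + Q1)) := by ring
      _ ≤ (x * x) * (Q1 * (Q0 + Q1)) := by
          refine mul_le_mul_of_nonneg_right (mul_le_mul hhx hhx h0 hx0) (by positivity)
      _ = x ^ 2 * (Q1 * (Q0 + Q1)) := by ring
  have e7 : x ^ (2 * d) * (64 + 8 * P + 4 * J * x) ≤ x ^ (2 * d) * ((64 + 8 * P + 4 * J) * x ^ 2) := by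
    refine mul_le_mul_of_nonneg_left ?_ (by positivity)
    have hx2 : x ≤ x ^ 2 := by nlinarith
    have hx3 : 1 ≤ x ^ 2 := by nlinarith
    have q1 : 64 + 8 * P ≤ (64 + 8 * P) * x ^ 2 := by nlinarith
    have q2 : 4 * J * x ≤ 4 * J * x ^ 2 := mul_le_mul_of_nonneg_left hx2 (by positivity)
    nlinarith
  have e8 : (h * F * Q1) * (x ^ (2 * d) * (64 + 8 * P + 4 * J * x)) ≤
      (x ^ 2 * (Q1 * (Q0 + Q1))) * (x ^ (2 * d) * ((64 + 8 * P + 4 * J) * x ^ 2)) :=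
    mul_le_mul e6 e7 (by positivity) (by positivity)
  have e9 : (x ^ 2 * (Q1 * (Q0 + Q1))) * (x ^ (2 * d) * ((64 + 8 * P + 4 * J) * x ^ 2)) =
      (64 + 8 * P + 4 * J) * x ^ (2 * d + 4) * (Q1 * (Q0 + Q1)) := by ring
  have e10 : (2 * h * Q1 * x ^ d) * S1 + (2 * h * Q1 * x ^ d) * S2 + (h * Q1 * x ^ (d + 1)) * S3
      ≤ (64 + 8 * P + 4 * J) * x ^ (2 * d + 4) * (Q1 * (Q0 + Q1)) := by linarith
  calc _ ≤ (nc : ℝ) * ((64 + 8 * P + 4 * J) * x ^ (2 * d + 4) * (Q1 * (Q0 + Q1))) :=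
        mul_le_mul_of_nonneg_left e10 (Nat.cast_nonneg _)
    _ = _ := by ring

theorem vv_good (hs : LSHyp s μ N K Cw j0 nc d) (hw : ∀ t, 0 ≤ w t)
    (hρ : ∀ t, ρ t ⊆ L0) (hL : L0 ⊆ s.H) (hZ : s.Dom ρ w Z) (h0 : 0 ≤ h) (hQ0 : 0 ≤ Q0)
    (hQ1 : 0 ≤ Q1) (h4 : ∀ t, (ρ t).card ≤ 4) (ω : ∀ i, α i)
    (hG : s.Good ρ w L0 d (Cw / N) h Q0 Q1 ω) :
    VV μ Z ω ≤ nc * (64 + 8 * (Cw * K) + 4 * j0) * (h + 2) ^ (2 * d + 4) * (Q1 * (Q0 + Q1)) := by
  have hA : s.act ω ⊆ s.H := act_sub_H ω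
  have hcn : 0 ≤ Cw / N := a19_cn hs
  have hnn : ∀ B, 0 ≤ FF ρ w (plus (fun _ => Cw / N) (s.act ω)) B := fun B =>
    ff_nonneg ρ w hw _ (a19_pl hs _) B
  set g : X ⊕ M → ℝ := Sum.elim
    (fun y => (if y ∈ s.act ω then 1 else Cw / N) * (2 * h * Q1 * (h + 2) ^ d) *
        ∑ x ∈ s.Cl L0 (s.act ω) d y, (FF ρ w (plus (fun _ => Cw / N) (s.act ω)) {x}
          + FF ρ w (plus (fun _ => Cw / N) (s.act ω)) {x, y}))
    (fun f => (h * Q1 * (h + 2) ^ (d + 1)) *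
        ∑ x ∈ s.ClL L0 (s.act ω) d f, FF ρ w (plus (fun _ => Cw / N) (s.act ω)) {x}) with hgdef
  have hg1 : ∀ l ∈ s.H.disjSum (Finset.univ : Finset M), 0 ≤ g l := by
    intro l _
    rcases l with y | f
    · simp only [hgdef, Sum.elim_inl]
      refine mul_nonneg (mul_nonneg ?_ (by positivity)) (Finset.sum_nonneg fun x _ =>
        add_nonneg (hnn _) (hnn _))
      split_ifs
      · exact zero_le_one
      · exact hcn
    · simp only [hgdef, Sum.elim_inr]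
      exact mul_nonneg (by positivity) (Finset.sum_nonneg fun x _ => hnn _)
  have hV := a20_group (s.H.disjSum (Finset.univ : Finset M)) s.loc nc hs.loc_card
    (fun i => ∑ a, μ.w i a * (Z ω - Z (Function.update ω i a)) ^ 2) g hg1 ?_ ?_
  · have hsplit : ∑ l ∈ s.H.disjSum (Finset.univ : Finset M), g l =
        (2 * h * Q1 * (h + 2) ^ d) * (∑ y ∈ s.act ω, ∑ x ∈ s.Cl L0 (s.act ω) d y,
          (FF ρ w (plus (fun _ => Cw / N) (s.act ω)) {x}
          + FF ρ w (plus (fun _ => Cw / N) (s.act ω)) {x, y})) +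
        (2 * h * Q1 * (h + 2) ^ d) * (∑ y ∈ s.H \ s.act ω, Cw / N * ∑ x ∈ s.Cl L0 (s.act ω) d y,
          (FF ρ w (plus (fun _ => Cw / N) (s.act ω)) {x}
          + FF ρ w (plus (fun _ => Cw / N) (s.act ω)) {x, y})) +
        (h * Q1 * (h + 2) ^ (d + 1)) * (∑ f : M, ∑ x ∈ s.ClL L0 (s.act ω) d f,
          FF ρ w (plus (fun _ => Cw / N) (s.act ω)) {x}) := by
      rw [Finset.sum_disjSum]
      congr 1
      · rw [← Finset.sum_sdiff hA, add_comm]
        congr 1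
        · rw [Finset.mul_sum]
          refine Finset.sum_congr rfl fun y hy => ?_
          simp only [hgdef, Sum.elim_inl]
          rw [if_pos hy, one_mul]
        · rw [Finset.mul_sum]
          refine Finset.sum_congr rfl fun y hy => ?_
          simp only [hgdef, Sum.elim_inl]
          rw [if_neg (Finset.mem_sdiff.1 hy).2]
          ring
      · rw [Finset.mul_sum]
        rfl
    have hVV : VV μ Z ω ≤ nc * ∑ l ∈ s.H.disjSum (Finset.univ : Finset M), g l := hV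
    rw [hsplit] at hVV
    refine hVV.trans ?_
    have hKN : 0 ≤ K * N := mul_nonneg hs.K_nonneg hs.N_pos.le
    have b1 := sum_act hw h4 (Cw / N) hcn hs.adj_symm L0 (s.act ω) hA h h0 d hG.g1 hL
    have b2 := sum_new hw h4 (Cw / N) hcn hs.adj_symm L0 (s.act ω) hA h h0 d hG.g1 hL (K * N) hKN
      hs.adj_card
    have b3 := sum_lab hw h4 (Cw / N) hcn hs.adj_symm L0 (s.act ω) hA h h0 d hG.g1 hL j0 hs.J_card
    have hck : Cw / N * (K * N) = Cw * K := by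
      have := hs.N_pos
      field_simp
    rw [hck] at b2
    exact a20_num (FF ρ w (plus (fun _ => Cw / N) (s.act ω)) ∅) Q0 Q1 h (h + 2) (Cw * K) j0 _ _ _
      d nc (hnn ∅) hQ0 hQ1 h0 (mul_nonneg hs.Cw_nonneg hs.K_nonneg) (Nat.cast_nonneg _) rfl hG.g2
      b1 b2 b3
  · intro i hi
    rcases hl : s.loc i with y | f
    · rw [hl, Finset.inl_mem_disjSum] at hi
      simp only [hgdef, Sum.elim_inl]
      exact coord_inl hs hw hρ hL hZ h0 hQ0 hQ1 ω hG i y hl hi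
    · simp only [hgdef, Sum.elim_inr]
      exact coord_inr hs hw hρ hL hZ h0 hQ0 hQ1 ω hG i f hl
  · intro i hi
    rcases hl : s.loc i with y | f
    · rw [hl, Finset.inl_mem_disjSum] at hi
      exact coord_out hs hZ ω i y hl hi
    · rw [hl, Finset.inr_mem_disjSum] at hi
      exact absurd (Finset.mem_univ f) hi

end Pool.Agent.Lib.H93E
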