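import Pool.Agent.Lib.H93E.A5B

/-!
# H93E, chunk A6: functionals grow slowly

`C = ((1+Cc)^q * 2^(q r))^r`. Markov for the `r`-th power (`Weights.P_le_of_le` with
`f = F^r`, `c = (y β)^r`; `F ≥ 0` by `ff_nonneg`) and `tupdom`: `P(y β < F) ≤ (C' β)^r / (y β)^r = C'^r / y^r`.
-/

set_option autoImplicit false

open Finset
open scoped Classical

namespace Pool.Agent.Lib.H93E

open Pool.Agent.Lib.Prob48 Pool.Agent.Lib.H93D

theorem growth (r q : ℕ) (Cc : ℝ) (hC : 0 ≤ Cc) : ∃ C : ℝ, 0 ≤ C ∧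
    ∀ (X T ι : Type) [Fintype T] [Fintype ι] [DecidableEq ι] (α : ι → Type) [∀ i, Fintype (α i)]
      (μ : Weights α) (AA : (∀ i, α i) → Finset X) (ρ : T → Finset X) (w : T → ℝ) (om u : X → ℝ)
      (β y : ℝ) (B : Finset X), 0 < y →
      (∀ t, 0 ≤ w t) → 0 < β → (∀ x, 0 ≤ om x) → (∀ x, 0 ≤ u x) → (∀ x, u x ≤ Cc * om x) →
      (∀ Y : Finset X, μ.P (fun ω => Y ⊆ AA ω) ≤ ∏ x ∈ Y, u x) → (∀ t, (ρ t).card ≤ q) →
      (∀ B', B ⊆ B' → FF ρ w om B' ≤ β) →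
      μ.P (fun ω => y * β < FF ρ w (plus om (AA ω)) B) ≤ C / y ^ r := by
  refine ⟨((1 + Cc) ^ q * 2 ^ (q * r)) ^ r, by positivity, ?_⟩
  intro X T ι _ _ _ α _ μ AA ρ w om u β y B hy hw hβ hom hu0 hu hAA hq hF
  have h1 := tupdom μ AA ρ w hw om u Cc β hC hβ.le hom hu0 hu hAA q hq B hF r
  have hpl : ∀ ω, ∀ x, 0 ≤ plus om (AA ω) x := by
    intro ω x
    unfold plus
    have := hom x
    split_ifs <;> linarith
  have hF0 : ∀ ω, 0 ≤ FF ρ w (plus om (AA ω)) B := fun ω => ff_nonneg ρ w hw _ (hpl ω) B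
  have hc : 0 < (y * β) ^ r := by positivity
  have h2 := μ.P_le_of_le (A := fun ω => y * β < FF ρ w (plus om (AA ω)) B)
    (f := fun ω => FF ρ w (plus om (AA ω)) B ^ r) ((y * β) ^ r) hc
    (fun ω => pow_nonneg (hF0 ω) r)
    (fun ω hω => pow_le_pow_left₀ (by positivity) (le_of_lt hω) r)
  refine h2.trans ?_
  rw [div_le_div_iff₀ hc (by positivity)]
  calc μ.E (fun ω => FF ρ w (plus om (AA ω)) B ^ r) * y ^ r
      ≤ ((1 + Cc) ^ q * 2 ^ (q * r) * β) ^ r * y ^ r := mul_le_mul_of_nonneg_right h1 (by positivity)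
    _ = ((1 + Cc) ^ q * 2 ^ (q * r)) ^ r * (y * β) ^ r := by
        rw [mul_pow _ β, mul_pow y β]
        ring

end Pool.Agent.Lib.H93E
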