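import Pool.Agent.Lib.H93E.A4
import Pool.Agent.Lib.H93E.A6

/-!
# H93E, chunk A22A: few active neighbours

Let `β = 1 + |K Cw|` and apply `growth` with `q = 1`, `Cc = 1`, `AA = act` (`act_prob`), `om = u = Cw/N` (constant),
the tokens `T' = {y' // y' ∈ H.filter (adj z)}`, `ρ y' = {y'}`, `w = 1`, `B = ∅`, and `y / β` in place of `y`:
`FF .. ∅ = #T' * Cw/N ≤ K Cw` (`adj_card`), `FF .. {y'} ≤ 1`, `FF .. B = 0` if `B` is contained in no token. And
`#(act.filter (adj z)) ≤ FF .. (plus .. (act ω)) ∅` (every active `y'` adjacent to `z` contributes at least `1`).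
So `P ≤ C / (y/β)^r = C β^r / y^r`.
-/

set_option autoImplicit false

open Finset
open scoped Classical

namespace Pool.Agent.Lib.H93E

open Pool.Agent.Lib.Prob48 Pool.Agent.Lib.H93D

theorem a22a_single {X T : Type} [Fintype T] (ρ : T → X) (hρ : Function.Injective ρ) (c : ℝ)
    (hc : 0 ≤ c) (B : Finset X) (hB : B.Nonempty) :
    FF (fun t => {ρ t}) (fun _ : T => (1 : ℝ)) (fun _ => c) B ≤ 1 := by
  unfold FF
  obtain ⟨b, hb⟩ := hB
  by_cases h : ∃ t, B ⊆ {ρ t}
  · obtain ⟨t0, ht0⟩ := h
    have hb0 : b = ρ t0 := Finset.mem_singleton.1 (ht0 hb)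
    have hBe : B = {ρ t0} := by
      refine Finset.Subset.antisymm ht0 ?_
      rw [Finset.singleton_subset_iff, ← hb0]
      exact hb
    rw [Finset.sum_eq_single t0]
    · rw [if_pos ht0, hBe, Finset.sdiff_self, Finset.prod_empty, mul_one]
    · intro t _ ht
      rw [if_neg]
      intro h2
      apply ht
      apply hρ
      have := Finset.mem_singleton.1 (h2 hb)
      rw [← this, hb0]
    · intro h2
      exact absurd (Finset.mem_univ t0) h2
  · push Not at h
    rw [Finset.sum_eq_zero fun t _ => if_neg (h t)]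
    exact zero_le_one

theorem nbr_prob (r : ℕ) (K Cw : ℝ) : ∃ C : ℝ, 0 ≤ C ∧
    ∀ (X M ι : Type) [Fintype ι] [DecidableEq ι] (α : ι → Type) [∀ i, Fintype (α i)]
      (s : LS X M ι α) (μ : Weights α) (N : ℝ) (j0 nc d : ℕ), LSHyp s μ N K Cw j0 nc d →
      ∀ y : ℝ, 0 < y → ∀ z ∈ s.H,
      μ.P (fun ω => y < (((s.act ω).filter fun y' => s.adj z y').card : ℝ)) ≤ C / y ^ r := by
  obtain ⟨C, hC, H⟩ := growth r 1 1 zero_le_one
  set β : ℝ := 1 + |K * Cw| with hβ
  have hβ0 : 0 < β := by positivity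
  refine ⟨C * β ^ r, by positivity, ?_⟩
  intro X M ι _ _ α _ s μ N j0 nc d hs y hy z hz
  have hcn : 0 ≤ Cw / N := div_nonneg hs.Cw_nonneg hs.N_pos.le
  set S := s.H.filter fun y' => s.adj z y' with hS
  have h1 := H X {y' // y' ∈ S} ι α μ s.act (fun t => {t.1}) (fun _ => 1) (fun _ => Cw / N)
    (fun _ => Cw / N) β (y / β) ∅ (by positivity) (fun _ => zero_le_one) hβ0 (fun _ => hcn)
    (fun _ => hcn) (fun _ => by rw [one_mul]) (fun Y => act_prob hs Y)
    (fun t => le_of_eq (Finset.card_singleton _)) ?_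
  · have h2 : C / (y / β) ^ r = C * β ^ r / y ^ r := by
      rw [div_pow, div_div_eq_mul_div]
    rw [← h2]
    refine le_trans (μ.P_mono fun ω hω => ?_) h1
    rw [div_mul_cancel₀ _ hβ0.ne']
    refine lt_of_lt_of_le hω ?_
    unfold FF
    have h3 : ((s.act ω).filter fun y' => s.adj z y').card ≤
        ((Finset.univ : Finset {y' // y' ∈ S}).filter fun t => t.1 ∈ s.act ω).card := by
      refine Finset.card_le_card_of_injOn (fun x => if h : x ∈ S then (⟨x, h⟩ : {y' // y' ∈ S}) else
        ⟨z, ?_⟩) ?_ ?_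
      · rw [hS, Finset.mem_filter]
        exact ⟨hz, hs.adj_refl z hz⟩
      · intro x hx
        have hx' := Finset.mem_filter.1 hx
        have hxS : x ∈ S := Finset.mem_filter.2 ⟨((a4_mem ω x).1 hx'.1).1, hx'.2⟩
        simp only [hxS, dif_pos]
        exact Finset.mem_coe.2 (Finset.mem_filter.2 ⟨Finset.mem_univ _, hx'.1⟩)
      · intro x hx x' hx' hxx
        have hx1 := Finset.mem_filter.1 hx
        have hx2 := Finset.mem_filter.1 hx'
        have hxS : x ∈ S := Finset.mem_filter.2 ⟨((a4_mem ω x).1 hx1.1).1, hx1.2⟩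
        have hxS' : x' ∈ S := Finset.mem_filter.2 ⟨((a4_mem ω x').1 hx2.1).1, hx2.2⟩
        simp only [hxS, hxS', dif_pos] at hxx
        exact congrArg Subtype.val hxx
    have h4 : (((s.act ω).filter fun y' => s.adj z y').card : ℝ) ≤
        (((Finset.univ : Finset {y' // y' ∈ S}).filter fun t => t.1 ∈ s.act ω).card : ℝ) := by
      exact_mod_cast h3
    refine h4.trans ?_
    rw [Finset.card_eq_sum_ones, Nat.cast_sum, Finset.sum_filter]
    refine Finset.sum_le_sum fun t _ => ?_
    rw [if_pos (Finset.empty_subset _), Finset.sdiff_empty, Finset.prod_singleton, one_mul]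
    unfold plus
    split_ifs
    · push_cast
      linarith
    · linarith
  · intro B' _
    by_cases hB : B'.Nonempty
    · refine (a22a_single (fun t : {y' // y' ∈ S} => t.1) Subtype.val_injective (Cw / N) hcn B'
        hB).trans ?_
      rw [hβ]
      have := abs_nonneg (K * Cw)
      linarith
    · rw [Finset.not_nonempty_iff_eq_empty] at hB
      rw [hB]
      unfold FF
      have h5 : ∀ t : {y' // y' ∈ S}, (if (∅ : Finset X) ⊆ {t.1} then
          (1 : ℝ) * ∏ x ∈ ({t.1} : Finset X) \ ∅, Cw / N else 0) = Cw / N := by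
        intro t
        rw [if_pos (Finset.empty_subset _), Finset.sdiff_empty, Finset.prod_singleton, one_mul]
      rw [Finset.sum_congr rfl fun t _ => h5 t, Finset.sum_const, nsmul_eq_mul, Finset.card_univ,
        Fintype.card_coe]
      have h6 : (S.card : ℝ) ≤ K * N := hs.adj_card z hz
      calc (S.card : ℝ) * (Cw / N) ≤ (K * N) * (Cw / N) := mul_le_mul_of_nonneg_right h6 hcn
        _ = K * Cw := by
            have := hs.N_pos
            field_simp
        _ ≤ |K * Cw| := le_abs_self _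
        _ ≤ β := by rw [hβ]; linarith

end Pool.Agent.Lib.H93E
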