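import Pool.Agent.Lib.H93E.Defs

/-!
# H93E, chunk A7A: paths

All by induction on the length, from the definition of `Reach`
(`Reach 0 x ↔ x ∈ A ∧ near x`, `Reach (d+1) x ↔ x ∈ A ∧ (near x ∨ ∃ y, adj x y ∧ Reach d y)`).
For `reach_rev`: first show that a path can be prolonged at its end: if `Reach adj (· = y) A d x`,
`z ∈ A`, `adj y z` then `Reach adj (· = z) A (d+1) x`.
-/

set_option autoImplicit false

open Finset
open scoped Classical

namespace Pool.Agent.Lib.H93E

open Pool.Agent.Lib.Prob48 Pool.Agent.Lib.H93D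

variable {X : Type} {adj : X → X → Prop} {nr : X → Prop} {A : Finset X}

theorem reach_exists (d : ℕ) (x : X) :
    Reach adj nr A d x ↔ ∃ y, nr y ∧ Reach adj (fun z => z = y) A d x := by
  induction d generalizing x with
  | zero =>
    constructor
    · rintro ⟨h1, h2⟩
      exact ⟨x, h2, h1, rfl⟩
    · rintro ⟨y, h1, h2, h3⟩
      have h3' : x = y := h3
      exact ⟨h2, by rw [h3']; exact h1⟩
  | succ d ih =>
    constructor
    · rintro ⟨h1, h2 | ⟨y, hxy, h2⟩⟩
      · exact ⟨x, h2, h1, Or.inl rfl⟩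
      · obtain ⟨z, hz, h3⟩ := (ih y).mp h2
        exact ⟨z, hz, h1, Or.inr ⟨y, hxy, h3⟩⟩
    · rintro ⟨y, h1, h2, h3 | ⟨z, hxz, h3⟩⟩
      · have h3' : x = y := h3
        exact ⟨h2, Or.inl (by rw [h3']; exact h1)⟩
      · exact ⟨h2, Or.inr ⟨z, hxz, (ih z).mpr ⟨y, h1, h3⟩⟩⟩

theorem reach_target (d : ℕ) (x y : X) (h : Reach adj (fun z => z = y) A d x) : y ∈ A := by
  induction d generalizing x with
  | zero =>
    have h3 : x = y := h.2
    rw [← h3]
    exact h.1
  | succ d ih =>
    rcases h.2 with h3 | ⟨z, _, h3⟩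
    · have h3' : x = y := h3
      rw [← h3']
      exact h.1
    · exact ih z h3

theorem a7a_app (d : ℕ) (x y z : X) (h : Reach adj (fun z => z = y) A d x) (hz : z ∈ A)
    (hyz : adj y z) : Reach adj (fun u => u = z) A (d + 1) x := by
  induction d generalizing x with
  | zero =>
    have h3 : x = y := h.2
    exact Reach.step h.1 (by rw [h3]; exact hyz) (Reach.of_near hz rfl)
  | succ d ih =>
    rcases h.2 with h3 | ⟨v, hxv, h3⟩
    · have h3' : x = y := h3
      exact Reach.step h.1 (by rw [h3']; exact hyz) (Reach.of_near hz rfl)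
    · exact Reach.step h.1 hxv (ih v h3)

theorem reach_rev (hsymm : ∀ x ∈ A, ∀ y ∈ A, adj x y → adj y x) (d : ℕ) (x y : X)
    (h : Reach adj (fun z => z = y) A d x) : Reach adj (fun z => z = x) A d y := by
  induction d generalizing x with
  | zero =>
    have h3 : x = y := h.2
    subst h3
    exact ⟨h.1, rfl⟩
  | succ d ih =>
    rcases h.2 with h3 | ⟨v, hxv, h3⟩
    · have h3' : x = y := h3
      subst h3'
      exact Reach.of_near h.1 rfl
    · exact a7a_app d y v x (ih v h3) h.1 (hsymm x h.1 v h3.mem hxv)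

theorem reach_trans (d d' : ℕ) (x y : X) (h : Reach adj (fun z => z = y) A d x)
    (h' : Reach adj nr A d' y) : Reach adj nr A (d + d') x := by
  induction d generalizing x with
  | zero =>
    have h3 : x = y := h.2
    rw [h3]
    exact h'.mono_d (by omega)
  | succ d ih =>
    rcases h.2 with h3 | ⟨v, hxv, h3⟩
    · have h3' : x = y := h3
      rw [h3']
      exact h'.mono_d (by omega)
    · rw [show d + 1 + d' = d + d' + 1 by omega]
      exact Reach.step h.1 hxv (ih v h3)

end Pool.Agent.Lib.H93E
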