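import Pool.Agent.Lib.H93B.Defs
import Pool.Agent.Lib.H93E.A7A

/-!
# H93E, chunk A29: the located selection of `H93B/Defs.lean`

Everything except `rate` and `adj_card` is a field of `SelHyp` or `SelBase`, or clear from the definition of
`SelData.Adj`. `rate`: union bound over the coordinates located at `x`.
`adj_card`: the elements `y ∈ H` adjacent to `x` are `x` itself, at most `K N` in conflict with `x`, and for every
`f ∈ J x` (at most `j0`) the elements of `A f ×ˢ B f`: at most `(K √N)^2 = K^2 N`.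
Total `≤ 1 + K N + j0 K^2 N ≤ (1 + K + j0 K^2) N` (`1 ≤ N`).
-/

set_option autoImplicit false

open Finset
open scoped Classical

namespace Pool.Agent.Lib.H93E

open Pool.Agent.Lib.Prob48 Pool.Agent.Lib.H93D Pool.Agent.Lib.H93B

theorem a29_mem {X M ι : Type} {α : ι → Type} (s : LS X M ι α) (ω : ∀ i, α i) (x : X) :
    x ∈ s.act ω ↔ x ∈ s.H ∧ ∃ i, s.loc i = Sum.inl x ∧ s.one i (ω i) := by
  unfold LS.act
  exact Finset.mem_filter

variable {Q R M : Type} [Fintype Q] [Fintype R] [Fintype M] {D : SelData Q R M} {s : Sel Q R M}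
  {N K Cw : ℝ} {j0 nc d : ℕ}

/-- the located selection given by `D` and `s` -/
noncomputable def toLS (D : SelData Q R M) (s : Sel Q R M) : LS (Q × R) M s.ι (fun _ => s.Val) where
  H := D.H
  adj := D.Adj
  J := D.J
  loc := s.loc
  one := fun _ => s.one
  S := s.S

theorem toLS_act (hs : SelBase D s N Cw nc d) (v : s.ι → s.Val) :
    (toLS D s).act v = s.act v := by
  ext x
  rw [a29_mem]
  unfold Sel.act
  rw [Finset.mem_filter]
  constructor
  · rintro ⟨_, h⟩
    exact ⟨Finset.mem_univ _, h⟩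
  · rintro ⟨_, i, hi, h⟩
    exact ⟨hs.locH i x hi, i, hi, h⟩

/-- marginal of one coordinate -/
theorem a29_marg {ι : Type} [Fintype ι] [DecidableEq ι] {α : ι → Type} [∀ i, Fintype (α i)]
    (μ : Weights α) (i : ι) (A : α i → Prop) :
    μ.P (fun ω => A (ω i)) = ∑ a, if A a then μ.w i a else 0 := by
  unfold Weights.P
  rw [← μ.E_avg i]
  have h1 : μ.avg i (fun ω => if A (ω i) then (1 : ℝ) else 0) =
      fun _ => ∑ a, if A a then μ.w i a else 0 := by
    funext ω
    unfold Weights.avg
    refine Finset.sum_congr rfl fun a _ => ?_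
    simp only [Function.update_self]
    split_ifs <;> simp
  rw [h1, μ.E_const]

theorem a29_adj (hD : SelHyp D K N j0) (x : Q × R) (hx : x ∈ D.H) :
    ((D.H.filter fun y => D.Adj x y).card : ℝ) ≤ (1 + K + j0 * K ^ 2) * N := by
  have h1 : D.H.filter (fun y => D.Adj x y) ⊆ ({x} ∪ D.H.filter fun y => D.conf x y) ∪
      (D.J x).biUnion fun f => D.A f ×ˢ D.B f := by
    intro y hy
    rw [Finset.mem_filter] at hy
    obtain ⟨hyH, _, _, h⟩ := hy
    rw [Finset.mem_union, Finset.mem_union, Finset.mem_singleton, Finset.mem_filter,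
      Finset.mem_biUnion]
    rcases h with h | h | h
    · exact Or.inl (Or.inl h.symm)
    · exact Or.inl (Or.inr ⟨hyH, h⟩)
    · refine Or.inr ?_
      unfold SelData.Share at h
      rw [Finset.not_disjoint_iff] at h
      obtain ⟨f, hf, hf'⟩ := h
      refine ⟨f, hf, ?_⟩
      unfold SelData.J H93A.Jset at hf'
      rw [Finset.mem_filter] at hf'
      rw [Finset.mem_product]
      exact hf'.2
  have hN0 : 0 ≤ N := zero_le_one.trans hD.hN
  have hK0 : 0 ≤ K := zero_le_one.trans hD.hK
  have h2 : (((D.J x).biUnion fun f => D.A f ×ˢ D.B f).card : ℝ) ≤ j0 * (K ^ 2 * N) := by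
    have h3 : (((D.J x).biUnion fun f => D.A f ×ˢ D.B f).card : ℝ) ≤
        ∑ f ∈ D.J x, ((D.A f ×ˢ D.B f).card : ℝ) := by
      exact_mod_cast Finset.card_biUnion_le
    refine h3.trans ?_
    have h4 : ∀ f ∈ D.J x, ((D.A f ×ˢ D.B f).card : ℝ) ≤ K ^ 2 * N := by
      intro f _
      rw [Finset.card_product, Nat.cast_mul]
      calc ((D.A f).card : ℝ) * (D.B f).card ≤ (K * Real.sqrt N) * (K * Real.sqrt N) :=
            mul_le_mul (hD.cardA f) (hD.cardB f) (Nat.cast_nonneg _) (by positivity)
        _ = K ^ 2 * (Real.sqrt N * Real.sqrt N) := by ring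
        _ = K ^ 2 * N := by rw [Real.mul_self_sqrt hN0]
    refine (Finset.sum_le_card_nsmul _ _ _ h4).trans ?_
    rw [nsmul_eq_mul]
    refine mul_le_mul_of_nonneg_right ?_ (by positivity)
    exact_mod_cast hD.cardJ x hx
  have h5 := Finset.card_le_card h1
  have h6 : ((D.H.filter fun y => D.Adj x y).card : ℝ) ≤
      1 + ((D.H.filter fun y => D.conf x y).card : ℝ) +
        (((D.J x).biUnion fun f => D.A f ×ˢ D.B f).card : ℝ) := by
    have h7 := h5.trans ((Finset.card_union_le _ _).trans
      (Nat.add_le_add_right (Finset.card_union_le _ _) _))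
    rw [Finset.card_singleton] at h7
    exact_mod_cast h7
  have h8 := hD.conf_card x hx
  have h9 := hD.hN
  nlinarith

theorem toLS_hyp (hCw : 0 ≤ Cw) (hD : SelHyp D K N j0) (hs : SelBase D s N Cw nc d) :
    LSHyp (toLS D s) s.μ N (1 + K + j0 * K ^ 2) Cw j0 nc d where
  N_pos := zero_lt_one.trans_le hD.hN
  K_nonneg := by
    have := hD.hK
    positivity
  Cw_nonneg := hCw
  adj_refl := fun x hx => ⟨hx, hx, Or.inl rfl⟩
  adj_symm := by
    rintro x _ y _ ⟨hx, hy, h⟩
    refine ⟨hy, hx, ?_⟩
    rcases h with h | h | h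
    · exact Or.inl h.symm
    · exact Or.inr (Or.inl (hD.conf_symm _ _ h))
    · refine Or.inr (Or.inr ?_)
      unfold SelData.Share at h ⊢
      rwa [disjoint_comm]
  adj_J := by
    intro x hx y hy f hf hf'
    refine ⟨hx, hy, Or.inr (Or.inr ?_)⟩
    unfold SelData.Share
    rw [Finset.not_disjoint_iff]
    exact ⟨f, hf, hf'⟩
  adj_card := a29_adj hD
  J_card := hD.cardJ
  loc_card := by
    intro l
    have h := hs.locCard l
    have e : ∀ (d1 d2 : DecidablePred fun i => s.loc i = l),
        @Finset.filter s.ι (fun i => s.loc i = l) d1 univ =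
          @Finset.filter s.ι (fun i => s.loc i = l) d2 univ := fun d1 d2 => by
      rw [Subsingleton.elim d1 d2]
    exact le_of_eq_of_le (congrArg Finset.card (e _ _)) h
  rate := by
    intro x hx
    have h1 : s.μ.P (fun ω => x ∈ (toLS D s).act ω) ≤
        s.μ.P (fun ω => ∃ i ∈ univ.filter (fun i => s.loc i = Sum.inl x), s.one (ω i)) := by
      refine s.μ.P_mono fun ω hω => ?_
      rw [a29_mem] at hω
      obtain ⟨_, i, hi, h⟩ := hω
      exact ⟨i, Finset.mem_filter.2 ⟨Finset.mem_univ _, hi⟩, h⟩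
    refine h1.trans ((s.μ.P_exists_le _ _).trans ?_)
    refine le_trans (le_of_eq ?_) (hs.rate x)
    refine Finset.sum_congr rfl fun i _ => ?_
    rw [a29_marg s.μ i s.one, Finset.sum_filter]
  S_sub := by
    intro ω
    rw [toLS_act hs]
    exact hs.act ω
  T5 := by
    intro i ω ω' h x hx
    rw [toLS_act hs, toLS_act hs]
    have h2 := hs.path i ω ω' h x hx
    have e : ∀ (d1 d2 : DecidableEq (Q × R)) (A B : Finset (Q × R)),
        @Union.union _ (@Finset.instUnion _ d1) A B = @Union.union _ (@Finset.instUnion _ d2) A B := by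
      intro d1 d2 A B
      rw [Subsingleton.elim d1 d2]
    rw [e _ (fun a b => instDecidableEqProd a b)]
    exact h2

theorem a29_within {A : Finset (Q × R)} (y : Q × R) : ∀ (n : ℕ) (x : Q × R),
    Reach D.Adj (fun z => z = y) A n x → D.Within n x y := by
  intro n
  induction n with
  | zero =>
    intro x h
    exact h.2
  | succ n ih =>
    intro x h
    rcases h.2 with h1 | ⟨z, hz, h1⟩
    · exact Or.inl h1
    · exact Or.inr ⟨z, hz, ih z h1⟩

theorem within_ball (hCw : 0 ≤ Cw) (hD : SelHyp D K N j0) (hs : SelBase D s N Cw nc d)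
    {L0 : Finset (Q × R)} (n : ℕ) (y : Q × R) (hy : y ∈ (toLS D s).ball L0 n) :
    ∃ x ∈ L0, D.Within n x y := by
  unfold LS.ball at hy
  rw [Finset.mem_filter] at hy
  obtain ⟨x, hx, h⟩ := (reach_exists n y).1 hy.2
  refine ⟨x, hx, ?_⟩
  have h2 := reach_rev (toLS_hyp hCw hD hs).adj_symm n y x h
  exact a29_within y n x h2

end Pool.Agent.Lib.H93E
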