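import Pool.Agent.Lib.H93E.A2

/-!
# H93E, chunk A3: higher moments

Induction on `j`; `q = 2^j`. `j = 0`: `es` (`C = 1`). Step from `q = 2^j` to `2q`: let
`W' = W - μ.E W` (`VV` is unchanged), `M_r = E W'^r`. By `es` for `F = W'^(2q)` and `vv_pow_le`
(with exponent `2q`):
`M_(4q) - (M_(2q))^2 = E (F - E F)^2 ≤ (1/2) * 2 * (2q)^2 * E [W'^(4q-2) V]`. Pointwise, for
`x = W'^2 ≥ 0`, `v = V ≥ 0`, `ε > 0` and `Q = 2q ≥ 1`: `x^(Q-1) v ≤ ε x^Q + ε^(-(Q-1)) v^Q` (if `v ≤ ε x` the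
left side is `≤ ε x^Q`; otherwise `x < v/ε`). Take `ε = 1/(2 (2q)^2)`:
`M_(4q) ≤ (M_(2q))^2 + (1/2) M_(4q) + C' E V^(2q)`, and by induction `M_(2q) ≤ C E V^q`,
`(E V^q)^2 ≤ E V^(2q)` (Jensen: `E (V^q - E V^q)^2 ≥ 0`).
-/

set_option autoImplicit false

open Finset
open scoped Classical

namespace Pool.Agent.Lib.H93E

open Pool.Agent.Lib.Prob48 Pool.Agent.Lib.H93D

theorem a3_young (x v ε : ℝ) (Q : ℕ) (hQ : 1 ≤ Q) (hx : 0 ≤ x) (hv : 0 ≤ v) (hε : 0 < ε) :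
    x ^ (Q - 1) * v ≤ ε * x ^ Q + (ε⁻¹) ^ (Q - 1) * v ^ Q := by
  obtain ⟨n, rfl⟩ : ∃ n, Q = n + 1 := ⟨Q - 1, by omega⟩
  rw [Nat.add_sub_cancel]
  by_cases h : v ≤ ε * x
  · have h1 : x ^ n * v ≤ x ^ n * (ε * x) := mul_le_mul_of_nonneg_left h (pow_nonneg hx n)
    have h2 : 0 ≤ (ε⁻¹) ^ n * v ^ (n + 1) :=
      mul_nonneg (pow_nonneg (inv_nonneg.2 hε.le) n) (pow_nonneg hv _)
    calc x ^ n * v ≤ x ^ n * (ε * x) := h1
      _ = ε * x ^ (n + 1) := by ring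
      _ ≤ ε * x ^ (n + 1) + (ε⁻¹) ^ n * v ^ (n + 1) := by linarith
  · rw [not_le] at h
    have h1 : x ≤ ε⁻¹ * v := by
      rw [inv_mul_eq_div, le_div_iff₀ hε]
      linarith
    have h2 : x ^ n ≤ (ε⁻¹ * v) ^ n := pow_le_pow_left₀ hx h1 n
    have h3 : x ^ n * v ≤ (ε⁻¹ * v) ^ n * v := mul_le_mul_of_nonneg_right h2 hv
    have h4 : 0 ≤ ε * x ^ (n + 1) := mul_nonneg hε.le (pow_nonneg hx _)
    calc x ^ n * v ≤ (ε⁻¹ * v) ^ n * v := h3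
      _ = (ε⁻¹) ^ n * v ^ (n + 1) := by rw [mul_pow]; ring
      _ ≤ ε * x ^ (n + 1) + (ε⁻¹) ^ n * v ^ (n + 1) := by linarith

theorem a3_jensen {ι : Type} [Fintype ι] [DecidableEq ι] {α : ι → Type} [∀ i, Fintype (α i)]
    (μ : Weights α) (F : (∀ i, α i) → ℝ) : μ.E F ^ 2 ≤ μ.E (fun ω => F ω ^ 2) := by
  have h0 : 0 ≤ μ.E (fun ω => (F ω - μ.E F) ^ 2) := μ.E_nonneg fun ω => sq_nonneg _
  have h1 : (fun ω => (F ω - μ.E F) ^ 2) =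
      fun ω => (F ω ^ 2 - (2 * μ.E F) * F ω) + μ.E F ^ 2 := by
    funext ω
    ring
  rw [h1, μ.E_add, μ.E_sub, μ.E_mul_left, μ.E_const] at h0
  nlinarith [h0]

theorem a3_var {ι : Type} [Fintype ι] [DecidableEq ι] {α : ι → Type} [∀ i, Fintype (α i)]
    (μ : Weights α) (F : (∀ i, α i) → ℝ) :
    μ.E (fun ω => (F ω - μ.E F) ^ 2) = μ.E (fun ω => F ω ^ 2) - μ.E F ^ 2 := by
  have h1 : (fun ω => (F ω - μ.E F) ^ 2) =
      fun ω => (F ω ^ 2 - (2 * μ.E F) * F ω) + μ.E F ^ 2 := by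
    funext ω
    ring
  rw [h1, μ.E_add, μ.E_sub, μ.E_mul_left, μ.E_const]
  ring

theorem a3_vv {ι : Type} [Fintype ι] [DecidableEq ι] {α : ι → Type} [∀ i, Fintype (α i)]
    (μ : Weights α) (F : (∀ i, α i) → ℝ) (c : ℝ) (ω : ∀ i, α i) :
    VV μ (fun ω => F ω - c) ω = VV μ F ω := by
  unfold VV
  refine sum_congr rfl fun i _ => sum_congr rfl fun a _ => ?_
  ring

theorem moment (j : ℕ) : ∃ C : ℝ, 0 ≤ C ∧ ∀ (ι : Type) [Fintype ι] [DecidableEq ι] (α : ι → Type)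
    [∀ i, Fintype (α i)] (μ : Weights α) (W : (∀ i, α i) → ℝ),
    μ.E (fun ω => (W ω - μ.E W) ^ (2 * 2 ^ j)) ≤ C * μ.E (fun ω => VV μ W ω ^ 2 ^ j) := by
  induction j with
  | zero =>
    refine ⟨1 / 2, by norm_num, ?_⟩
    intro ι _ _ α _ μ W
    simp only [pow_zero, mul_one, pow_one]
    exact es μ W
  | succ j ih =>
    obtain ⟨C, hC, hC'⟩ := ih
    set q : ℕ := 2 ^ j with hq
    have hq1 : 1 ≤ q := Nat.one_le_two_pow
    set Q : ℕ := 2 * q with hQ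
    have hQ1 : 1 ≤ Q := by omega
    have hQ0 : (0 : ℝ) < Q := by exact_mod_cast hQ1
    set ε : ℝ := 1 / (2 * (Q : ℝ) ^ 2) with hε
    have hε0 : 0 < ε := by positivity
    set C2 : ℝ := (Q : ℝ) ^ 2 * (ε⁻¹) ^ (Q - 1) with hC2
    have hC20 : 0 ≤ C2 := by positivity
    refine ⟨2 * (C ^ 2 + C2), by positivity, ?_⟩
    intro ι _ _ α _ μ W
    have hpow : 2 ^ (j + 1) = Q := by rw [hQ, hq, pow_succ]; ring
    rw [hpow]
    set m : ℝ := μ.E W with hm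
    set V := VV μ W with hV
    have hV0 : ∀ ω, 0 ≤ V ω := fun ω => vv_nonneg μ W ω
    -- the function `F`
    have h1 := es μ (fun ω => (W ω - m) ^ Q)
    rw [a3_var] at h1
    have h2 := vv_pow_le μ (fun ω => W ω - m) Q hQ1
    have h3 : μ.E (fun ω => (W ω - m) ^ (2 * Q - 2) * VV μ (fun ω => W ω - m) ω) ≤
        ε * μ.E (fun ω => (W ω - m) ^ (2 * Q)) + (ε⁻¹) ^ (Q - 1) * μ.E (fun ω => V ω ^ Q) := by
      rw [← μ.E_mul_left, ← μ.E_mul_left, ← μ.E_add]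
      refine μ.E_mono fun ω => ?_
      rw [a3_vv]
      have e1 := a3_young ((W ω - m) ^ 2) (V ω) ε Q hQ1 (sq_nonneg _) (hV0 ω) hε0
      rw [← pow_mul, ← pow_mul, show 2 * (Q - 1) = 2 * Q - 2 by omega] at e1
      exact e1
    have h4 : μ.E (fun ω => ((W ω - m) ^ Q) ^ 2) = μ.E (fun ω => (W ω - m) ^ (2 * Q)) := by
      congr 1
      funext ω
      rw [← pow_mul, mul_comm]
    rw [h4] at h1
    have h5 := hC' ι α μ W
    have h6 : 0 ≤ μ.E (fun ω => (W ω - m) ^ Q) := by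
      refine μ.E_nonneg fun ω => ?_
      rw [hQ, pow_mul]
      exact pow_nonneg (sq_nonneg _) _
    have h7 : μ.E (fun ω => (W ω - m) ^ Q) ^ 2 ≤ C ^ 2 * μ.E (fun ω => V ω ^ Q) := by
      have e1 : μ.E (fun ω => (W ω - m) ^ Q) ^ 2 ≤ (C * μ.E (fun ω => V ω ^ q)) ^ 2 :=
        pow_le_pow_left₀ h6 h5 2
      have e2 := a3_jensen μ (fun ω => V ω ^ q)
      have e3 : μ.E (fun ω => (V ω ^ q) ^ 2) = μ.E (fun ω => V ω ^ Q) := by
        congr 1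
        funext ω
        rw [← pow_mul, mul_comm]
      rw [e3] at e2
      calc μ.E (fun ω => (W ω - m) ^ Q) ^ 2 ≤ (C * μ.E (fun ω => V ω ^ q)) ^ 2 := e1
        _ = C ^ 2 * μ.E (fun ω => V ω ^ q) ^ 2 := by ring
        _ ≤ C ^ 2 * μ.E (fun ω => V ω ^ Q) := mul_le_mul_of_nonneg_left e2 (sq_nonneg C)
    have h8 : (Q : ℝ) ^ 2 * (ε * μ.E (fun ω => (W ω - m) ^ (2 * Q)) +
        (ε⁻¹) ^ (Q - 1) * μ.E (fun ω => V ω ^ Q)) =
        (1 / 2) * μ.E (fun ω => (W ω - m) ^ (2 * Q)) + C2 * μ.E (fun ω => V ω ^ Q) := by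
      have e1 : (Q : ℝ) ^ 2 * ε = 1 / 2 := by
        rw [hε]
        field_simp
      rw [mul_add, ← mul_assoc, e1, hC2, mul_assoc]
    have h9 : (1 / 2) * μ.E (VV μ fun ω => (W ω - m) ^ Q) ≤
        (1 / 2) * μ.E (fun ω => (W ω - m) ^ (2 * Q)) + C2 * μ.E (fun ω => V ω ^ Q) := by
      rw [← h8]
      have e1 := mul_le_mul_of_nonneg_left h3 (sq_nonneg (Q : ℝ))
      linarith
    nlinarith [h1, h9, h7]

end Pool.Agent.Lib.H93E
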