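import Pool.Agent.Lib.H93E.A29
import Pool.Agent.Lib.H93E.A5A

/-!
# H93E, A30: tokens with nonzero weight and nonempty support
-/

set_option autoImplicit false

open Finset
open scoped Classical

namespace Pool.Agent.Lib.H93E

open Pool.Agent.Lib.Prob48 Pool.Agent.Lib.H93D Pool.Agent.Lib.H93B

/-- tokens which matter -/
abbrev Ts {X T : Type} (w : T → ℝ) (ρ : T → Finset X) : Type :=
  {t : T // w t ≠ 0 ∧ (ρ t).Nonempty}

theorem tf_eq {X T : Type} [Fintype T] (w : T → ℝ) (ρ : T → Finset X) (om : X → ℝ)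
    (B : Finset X) : tf w ρ om B = FF ρ w om B := rfl

theorem a30_sub {T : Type} [Fintype T] (p : T → Prop) [Fintype {t // p t}] (g : T → ℝ)
    (hg : ∀ t, 0 ≤ g t) : ∑ t : {t : T // p t}, g t.1 ≤ ∑ t, g t := by
  rw [← Finset.sum_subtype (Finset.univ.filter p) (fun x => by simp) g]
  exact Finset.sum_le_sum_of_subset_of_nonneg (Finset.filter_subset _ _) fun t _ _ => hg t

theorem a30_sub' {T : Type} [Fintype T] (p : T → Prop) [Fintype {t // p t}] (g : T → ℝ)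
    (hg : ∀ t, ¬ p t → g t = 0) : ∑ t : {t : T // p t}, g t.1 = ∑ t, g t := by
  rw [← Finset.sum_subtype (Finset.univ.filter p) (fun x => by simp) g]
  refine Finset.sum_subset (Finset.filter_subset _ _) fun t _ ht => hg t fun h => ht ?_
  exact Finset.mem_filter.2 ⟨Finset.mem_univ t, h⟩

theorem ts_le {X T : Type} [Fintype T] (w : T → ℝ) (ρ : T → Finset X) (hw : ∀ t, 0 ≤ w t)
    (om : X → ℝ) (hom : ∀ x, 0 ≤ om x) (B : Finset X) :
    FF (fun t : Ts w ρ => ρ t.1) (fun t => w t.1) om B ≤ tf w ρ om B := by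
  rw [tf_eq]
  unfold FF
  refine a30_sub (fun t => w t ≠ 0 ∧ (ρ t).Nonempty)
    (fun t => if B ⊆ ρ t then w t * ∏ x ∈ ρ t \ B, om x else 0) fun t => ?_
  split_ifs
  · exact mul_nonneg (hw t) (Finset.prod_nonneg fun x _ => hom x)
  · exact le_rfl

theorem a30_lip {X T : Type} [Fintype T] (w : T → ℝ) (ρ : T → Finset X) (hw : ∀ t, 0 ≤ w t)
    (Z : Finset X → ℝ) (hZ : Lip w ρ Z) (S S' A A' : Finset X) (hS : S ⊆ A) (hS' : S' ⊆ A') :
    |Z S - Z S'| ≤ ∑ t : Ts w ρ, if (∃ x ∈ ρ t.1, ¬ (x ∈ S ↔ x ∈ S')) ∧ ρ t.1 ⊆ A ∪ A'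
      then w t.1 else 0 := by
  refine (hZ S S').trans ?_
  rw [← a30_sub' (fun t => w t ≠ 0 ∧ (ρ t).Nonempty)]
  · refine Finset.sum_le_sum fun t _ => ?_
    by_cases h : ρ t.1 ⊆ S ∪ S' ∧ ∃ x ∈ ρ t.1, x ∈ symmDiff S S'
    · rw [if_pos h, if_pos]
      obtain ⟨hsub, x, hx, hx'⟩ := h
      refine ⟨⟨x, hx, ?_⟩, hsub.trans (Finset.union_subset_union hS hS')⟩
      rw [Finset.mem_symmDiff] at hx'
      tauto
    · rw [if_neg h]
      split_ifs
      · exact hw t.1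
      · exact le_rfl
  · intro t ht
    split_ifs with h
    · obtain ⟨_, x, hx, _⟩ := h
      by_contra h2
      exact ht ⟨h2, x, hx⟩
    · rfl

variable {Q R M : Type} [Fintype Q] [Fintype R] [Fintype M] {D : SelData Q R M} {s : Sel Q R M}
  {N K Cw : ℝ} {j0 nc d : ℕ}

theorem ts_dom {T : Type} [Fintype T] (hs : SelBase D s N Cw nc d) (w : T → ℝ)
    (ρ : T → Finset (Q × R)) (hw : ∀ t, 0 ≤ w t) (Z : Finset (Q × R) → ℝ) (hZ : Lip w ρ Z) :
    (toLS D s).Dom (fun t : Ts w ρ => ρ t.1) (fun t => w t.1) (fun v => Z (s.S v)) := by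
  intro v i a
  rw [toLS_act hs, toLS_act hs]
  have h := a30_lip w ρ hw Z hZ (s.S v) (s.S (Function.update v i a)) (s.act v)
    (s.act (Function.update v i a)) (hs.act _) (hs.act _)
  refine h.trans (Finset.sum_le_sum fun t _ => ?_)
  split_ifs with h1 h2 h2
  · exact le_rfl
  · exact absurd h1 h2
  · exact hw t.1
  · exact le_rfl

end Pool.Agent.Lib.H93E
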