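import Pool.Agent.Lib.H93E.Defs

/-!
# H93E, chunk A4: activity of several elements

If `Y` is not contained in `H` the probability is `0`. Otherwise induction on `Y`
(`Finset.induction_on`): for `x ∉ Y` the event `x ∈ act ω` depends only on the coordinates located at `x`,
the event `Y ⊆ act ω` only on the coordinates located at elements of `Y`
(`Weights.P_and_of_dependsOn`, with `S` the finite set of coordinates located at `x`), so
`P(insert x Y ⊆ act) = P(x ∈ act) * P(Y ⊆ act)`; `LSHyp.rate`.
-/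

set_option autoImplicit false

open Finset
open scoped Classical

namespace Pool.Agent.Lib.H93E

open Pool.Agent.Lib.Prob48 Pool.Agent.Lib.H93D

theorem a4_mem {X M ι : Type} {α : ι → Type} {s : LS X M ι α} (ω : ∀ i, α i) (x : X) :
    x ∈ s.act ω ↔ x ∈ s.H ∧ ∃ i, s.loc i = Sum.inl x ∧ s.one i (ω i) := by
  unfold LS.act
  exact Finset.mem_filter

variable {X M ι : Type} [Fintype ι] [DecidableEq ι] {α : ι → Type} [∀ i, Fintype (α i)]
  {s : LS X M ι α} {μ : Weights α} {N K Cw : ℝ} {j0 nc d : ℕ}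

theorem a4_dep (x : X) : DependsOn (fun ω => x ∈ s.act ω)
    ((Finset.univ.filter fun i => s.loc i = Sum.inl x : Finset ι) : Set ι) := by
  intro ω ω' h
  simp only [eq_iff_iff]
  rw [a4_mem, a4_mem]
  refine and_congr_right fun _ => exists_congr fun i => and_congr_right fun hi => ?_
  have h1 : ω i = ω' i := h i (by simp [hi])
  rw [h1]

theorem a4_dep' (Y : Finset X) : DependsOn (fun ω => Y ⊆ s.act ω)
    {i | ∃ x ∈ Y, s.loc i = Sum.inl x} := by
  intro ω ω' h
  simp only [eq_iff_iff]
  have h1 : ∀ x ∈ Y, (x ∈ s.act ω ↔ x ∈ s.act ω') := by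
    intro x hx
    rw [a4_mem, a4_mem]
    refine and_congr_right fun _ => exists_congr fun i => and_congr_right fun hi => ?_
    have h1 : ω i = ω' i := h i ⟨x, hx, hi⟩
    rw [h1]
  exact ⟨fun h2 x hx => (h1 x hx).1 (h2 hx), fun h2 x hx => (h1 x hx).2 (h2 hx)⟩

theorem act_prob (hs : LSHyp s μ N K Cw j0 nc d) (Y : Finset X) :
    μ.P (fun ω => Y ⊆ s.act ω) ≤ ∏ _x ∈ Y, Cw / N := by
  have hcn : 0 ≤ Cw / N := div_nonneg hs.Cw_nonneg hs.N_pos.le
  by_cases hY : Y ⊆ s.H
  · induction Y using Finset.induction_on with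
    | empty =>
      rw [Finset.prod_empty]
      exact μ.P_le_one _
    | insert x Y hx ih =>
      have h1 : μ.P (fun ω => insert x Y ⊆ s.act ω) =
          μ.P (fun ω => x ∈ s.act ω ∧ Y ⊆ s.act ω) := by
        refine μ.P_congr fun ω => ?_
        rw [Finset.insert_subset_iff]
      rw [h1, μ.P_and_of_dependsOn (Finset.univ.filter fun i => s.loc i = Sum.inl x)
        {i | ∃ x ∈ Y, s.loc i = Sum.inl x} ?_ (a4_dep x) (a4_dep' Y),
        Finset.prod_insert hx]
      · exact mul_le_mul (hs.rate x (hY (Finset.mem_insert_self x Y)))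
          (ih fun z hz => hY (Finset.mem_insert_of_mem hz)) (μ.P_nonneg _) hcn
      · rintro i hi ⟨z, hz, hiz⟩
        rw [Finset.mem_filter] at hi
        rw [hi.2] at hiz
        have h2 : x = z := by simpa using hiz
        exact hx (h2 ▸ hz)
  · have h1 : μ.P (fun ω => Y ⊆ s.act ω) = 0 := by
      rw [← μ.P_false]
      refine μ.P_congr fun ω => ⟨fun h => hY fun x hx => ?_, fun h => h.elim⟩
      exact ((a4_mem ω x).1 (h hx)).1
    rw [h1]
    exact Finset.prod_nonneg fun _ _ => hcn

end Pool.Agent.Lib.H93E
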