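import Pool.Agent.Lib.H93E.A7B

/-!
# H93E, chunk A8: elements which reach a given element

Induction on `n` (for all `m`). `n = 0`: only `x = y`. Step: if `x ∈ ball m` reaches `y` in at most `n+1` steps
inside `insert y A` then `x = y` or `x` is adjacent to some `y'` which reaches `y` in `n` steps; `y' ∈ insert y A ⊆ H`, so
`y' ∈ ball (m+1)` (`ball_step`), and `x ∈ insert y A` is adjacent to `y'` (symmetry). By `g1` (`m + 1 ≤ d + 1`) at most
`h + 1` such `x` for every `y'`. Total: `1 + (h+1) (h+2)^n ≤ (h+2)^(n+1)`.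
(`Finset.card_biUnion_le`.)
-/

set_option autoImplicit false

open Finset
open scoped Classical

namespace Pool.Agent.Lib.H93E

open Pool.Agent.Lib.Prob48 Pool.Agent.Lib.H93D

variable {X M ι : Type} {α : ι → Type} {s : LS X M ι α}

theorem a8_biUnion {β γ : Type} (s : Finset β) (t : β → Finset γ) (c b : ℝ) (hb : 0 ≤ b)
    (hs : (s.card : ℝ) ≤ c) (ht : ∀ a ∈ s, ((t a).card : ℝ) ≤ b) :
    ((s.biUnion t).card : ℝ) ≤ c * b := by
  have h1 : ((s.biUnion t).card : ℝ) ≤ ∑ a ∈ s, ((t a).card : ℝ) := by
    exact_mod_cast Finset.card_biUnion_le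
  have h2 : ∑ a ∈ s, ((t a).card : ℝ) ≤ ∑ _a ∈ s, b := Finset.sum_le_sum ht
  rw [Finset.sum_const, nsmul_eq_mul] at h2
  exact (h1.trans h2).trans (mul_le_mul_of_nonneg_right hs hb)

theorem count_in
    (hsymm : ∀ x ∈ s.H, ∀ y ∈ s.H, s.adj x y → s.adj y x) (L0 A : Finset X) (hA : A ⊆ s.H)
    (h : ℝ) (h0 : 0 ≤ h) (d : ℕ)
    (g1 : ∀ z ∈ s.ball L0 (d + 1), ((A.filter fun y => s.adj z y).card : ℝ) ≤ h)
    (y : X) (hy : y ∈ s.H) (n : ℕ) : ∀ m, n + m ≤ d + 1 →
    (((s.ball L0 m).filter fun x => Reach s.adj (fun z => z = y) (insert y A) n x).card : ℝ)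
      ≤ (h + 2) ^ n := by
  have hB : insert y A ⊆ s.H := Finset.insert_subset hy hA
  induction n with
  | zero =>
    intro m _
    have h1 : ((s.ball L0 m).filter fun x =>
        Reach s.adj (fun z => z = y) (insert y A) 0 x) ⊆ {y} := by
      intro x hx
      rw [Finset.mem_filter] at hx
      rw [Finset.mem_singleton]
      exact hx.2.2
    have h2 := Finset.card_le_card h1
    rw [Finset.card_singleton] at h2
    rw [pow_zero]
    exact_mod_cast h2
  | succ n ih =>
    intro m hm
    have h1 : ((s.ball L0 m).filter fun x =>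
        Reach s.adj (fun z => z = y) (insert y A) (n + 1) x) ⊆ {y} ∪
        ((s.ball L0 (m + 1)).filter fun x =>
          Reach s.adj (fun z => z = y) (insert y A) n x).biUnion
          (fun v => (insert y A).filter fun x => s.adj v x) := by
      intro x hx
      rw [Finset.mem_filter] at hx
      obtain ⟨hx1, hx2, hx3⟩ := hx
      rw [Finset.mem_union, Finset.mem_singleton, Finset.mem_biUnion]
      rcases hx3 with hx3 | ⟨v, hxv, hx3⟩
      · exact Or.inl hx3
      · right
        have hv : v ∈ s.H := hB hx3.mem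
        refine ⟨v, ?_, ?_⟩
        · rw [Finset.mem_filter]
          exact ⟨ball_step hsymm hx1 hv hxv, hx3⟩
        · rw [Finset.mem_filter]
          exact ⟨hx2, hsymm x (hB hx2) v hv hxv⟩
    have h2 := Finset.card_le_card h1
    have h3 := h2.trans (Finset.card_union_le _ _)
    rw [Finset.card_singleton] at h3
    have h4 : (((s.ball L0 m).filter fun x =>
        Reach s.adj (fun z => z = y) (insert y A) (n + 1) x).card : ℝ) ≤ 1 +
        ((((s.ball L0 (m + 1)).filter fun x =>
          Reach s.adj (fun z => z = y) (insert y A) n x).biUnion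
          (fun v => (insert y A).filter fun x => s.adj v x)).card : ℝ) := by
      exact_mod_cast h3
    have h5 := a8_biUnion ((s.ball L0 (m + 1)).filter fun x =>
          Reach s.adj (fun z => z = y) (insert y A) n x)
          (fun v => (insert y A).filter fun x => s.adj v x) ((h + 2) ^ n) (h + 1) (by linarith)
          (ih (m + 1) (by omega)) (by
            intro v hv
            rw [Finset.mem_filter] at hv
            have h6 := g1 v (ball_mono (by omega) hv.1)
            have h7 : ((insert y A).filter fun x => s.adj v x) ⊆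
                insert y (A.filter fun x => s.adj v x) := by
              intro x hx
              rw [Finset.mem_filter, Finset.mem_insert] at hx
              rw [Finset.mem_insert, Finset.mem_filter]
              rcases hx with ⟨h8 | h8, h9⟩
              · exact Or.inl h8
              · exact Or.inr ⟨h8, h9⟩
            have h8 := (Finset.card_le_card h7).trans (Finset.card_insert_le _ _)
            have h9 : (((insert y A).filter fun x => s.adj v x).card : ℝ) ≤
                ((A.filter fun x => s.adj v x).card : ℝ) + 1 := by exact_mod_cast h8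
            linarith)
    have h6 : (1 : ℝ) ≤ (h + 2) ^ n := one_le_pow₀ (by linarith)
    calc _ ≤ 1 + (h + 2) ^ n * (h + 1) := by linarith
      _ ≤ (h + 2) ^ (n + 1) := by
        rw [pow_succ]
        nlinarith

theorem card_Cl
    (hsymm : ∀ x ∈ s.H, ∀ y ∈ s.H, s.adj x y → s.adj y x) (L0 A : Finset X) (hA : A ⊆ s.H)
    (h : ℝ) (h0 : 0 ≤ h) (d : ℕ)
    (g1 : ∀ z ∈ s.ball L0 (d + 1), ((A.filter fun y => s.adj z y).card : ℝ) ≤ h)
    (hL : L0 ⊆ s.H) (y : X) (hy : y ∈ s.H) : ((s.Cl L0 A d y).card : ℝ) ≤ (h + 2) ^ d := by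
  have h1 := count_in hsymm L0 A hA h h0 d g1 y hy d 0 (by omega)
  have h2 : s.Cl L0 A d y ⊆
      (s.ball L0 0).filter fun x => Reach s.adj (fun z => z = y) (insert y A) d x := by
    unfold LS.Cl
    exact Finset.filter_subset_filter _ (ball_zero hL)
  have h3 : ((s.Cl L0 A d y).card : ℝ) ≤
      (((s.ball L0 0).filter fun x => Reach s.adj (fun z => z = y) (insert y A) d x).card : ℝ) := by
    exact_mod_cast Finset.card_le_card h2
  exact h3.trans h1

end Pool.Agent.Lib.H93E
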