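import Pool.Agent.Lib.Prob48.Basic
import Pool.Agent.Lib.H93D.Reach

/-!
# H93E: concentration for located selections (module A of MP_12b0e2, all graphs)

See `H93B/PROOF.md`, section 5. Product spaces, `μ.E`, `μ.P`, `μ.avg` are those of `Prob48/Basic.lean`;
paths `Reach adj near A d x` are those of `H93D/Reach.lean` (a path `x = x_0 ~ .. ~ x_j`, `j ≤ d`, inside `A`
with `near x_j`).

* tokens: a finite type `T`, supports `ρ t : Finset X`, weights `w t ≥ 0`;
* `FF ρ w om B`: sum over the tokens `t` with `B ⊆ ρ t` of `w t * ∏ x ∈ ρ t \ B, om x`;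
* `VV μ F ω`: sum over the coordinates `i` of the mean of `(F ω - F (ω resampled at i))^2`;
* `LS`: a located selection: ground set `H`, adjacency, label sets `J x`, location `loc i` of the coordinates
  (an element or a label), the values `one i a` which count as `1`, the selected set `S ω`;
* `act ω`: active elements; `Loc.ball`: elements of `H` at distance at most `n` from `L0`.
-/

set_option autoImplicit false

open Finset
open scoped Classical

namespace Pool.Agent.Lib.H93E

open Pool.Agent.Lib.Prob48 Pool.Agent.Lib.H93D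

/-- the token functional -/
noncomputable def FF {X T : Type} [Fintype T] (ρ : T → Finset X) (w : T → ℝ) (om : X → ℝ)
    (B : Finset X) : ℝ :=
  ∑ t, if B ⊆ ρ t then w t * ∏ x ∈ ρ t \ B, om x else 0

/-- `om` plus the indicator of `A` -/
noncomputable def plus {X : Type} (om : X → ℝ) (A : Finset X) (x : X) : ℝ :=
  om x + if x ∈ A then 1 else 0

/-- sum over the coordinates of the mean square change if the coordinate is resampled -/
noncomputable def VV {ι : Type} [Fintype ι] [DecidableEq ι] {α : ι → Type} [∀ i, Fintype (α i)]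
    (μ : Weights α) (F : (∀ i, α i) → ℝ) (ω : ∀ i, α i) : ℝ :=
  ∑ i, ∑ a, μ.w i a * (F ω - F (Function.update ω i a)) ^ 2

/-- a located selection -/
structure LS (X M ι : Type) (α : ι → Type) where
  H : Finset X
  adj : X → X → Prop
  J : X → Finset M
  loc : ι → X ⊕ M
  one : ∀ i, α i → Prop
  S : (∀ i, α i) → Finset X

/-- the element `x` is at the location `l` -/
def near {X M : Type} (J : X → Finset M) (l : X ⊕ M) (x : X) : Prop :=
  l = Sum.inl x ∨ ∃ f ∈ J x, l = Sum.inr f

namespace LS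

variable {X M ι : Type} {α : ι → Type} (s : LS X M ι α)

/-- the active elements -/
noncomputable def act (ω : ∀ i, α i) : Finset X :=
  s.H.filter fun x => ∃ i, s.loc i = Sum.inl x ∧ s.one i (ω i)

/-- elements of `H` at distance at most `n` from `L0` -/
noncomputable def ball (L0 : Finset X) (n : ℕ) : Finset X :=
  s.H.filter fun y => Reach s.adj (fun x => x ∈ L0) s.H n y

/-- `x` changes its status between `ω` and `ω'` -/
def Ch (ω ω' : ∀ i, α i) (x : X) : Prop := ¬ (x ∈ s.S ω ↔ x ∈ s.S ω')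

/-- elements of `L0` connected to `y` inside `A ∪ {y}` -/
noncomputable def Cl (L0 A : Finset X) (d : ℕ) (y : X) : Finset X :=
  L0.filter fun x => Reach s.adj (fun z => z = y) (insert y A) d x

/-- elements of `L0` connected inside `A` to an element with the label `f` -/
noncomputable def ClL (L0 A : Finset X) (d : ℕ) (f : M) : Finset X :=
  L0.filter fun x => Reach s.adj (fun z => f ∈ s.J z) A d x

/-- `Z` is dominated by the tokens `ρ, w` -/
def Dom {T : Type} [Fintype T] [DecidableEq ι] (ρ : T → Finset X) (w : T → ℝ)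
    (Z : (∀ i, α i) → ℝ) : Prop :=
  ∀ ω i a, |Z ω - Z (Function.update ω i a)| ≤
    ∑ t, if (∃ x ∈ ρ t, s.Ch ω (Function.update ω i a) x) ∧
      ρ t ⊆ s.act ω ∪ s.act (Function.update ω i a) then w t else 0

/-- the good event -/
structure Good {T : Type} [Fintype T] (ρ : T → Finset X) (w : T → ℝ) (L0 : Finset X) (d : ℕ)
    (π h Q0 Q1 : ℝ) (ω : ∀ i, α i) : Prop where
  g1 : ∀ z ∈ s.ball L0 (d + 1), (((s.act ω).filter fun y => s.adj z y).card : ℝ) ≤ h
  g2 : FF ρ w (plus (fun _ => π) (s.act ω)) ∅ ≤ h * (Q0 + Q1)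
  g3 : ∀ x ∈ L0, ∀ y ∈ s.ball L0 (d + 1), FF ρ w (plus (fun _ => π) (s.act ω)) {x, y} ≤ h * Q1

end LS

/-- hypotheses on a located selection -/
structure LSHyp {X M ι : Type} [Fintype ι] [DecidableEq ι] {α : ι → Type} [∀ i, Fintype (α i)]
    (s : LS X M ι α) (μ : Weights α) (N K Cw : ℝ) (j0 nc d : ℕ) : Prop where
  N_pos : 0 < N
  K_nonneg : 0 ≤ K
  Cw_nonneg : 0 ≤ Cw
  adj_refl : ∀ x ∈ s.H, s.adj x x
  adj_symm : ∀ x ∈ s.H, ∀ y ∈ s.H, s.adj x y → s.adj y x
  adj_J : ∀ x ∈ s.H, ∀ y ∈ s.H, ∀ f ∈ s.J x, f ∈ s.J y → s.adj x y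
  adj_card : ∀ x ∈ s.H, ((s.H.filter fun y => s.adj x y).card : ℝ) ≤ K * N
  J_card : ∀ x ∈ s.H, (s.J x).card ≤ j0
  loc_card : ∀ l, (Finset.univ.filter fun i => s.loc i = l).card ≤ nc
  rate : ∀ x ∈ s.H, μ.P (fun ω => x ∈ s.act ω) ≤ Cw / N
  S_sub : ∀ ω, s.S ω ⊆ s.act ω
  T5 : ∀ i, ∀ ω ω' : ∀ i, α i, (∀ i', i' ≠ i → ω i' = ω' i') → ∀ x, s.Ch ω ω' x →
    Reach s.adj (near s.J (s.loc i)) (s.act ω ∪ s.act ω') d x

end Pool.Agent.Lib.H93E
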